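import Pool.Agent.Lib_MP_884f32_an.Jac

/-! The two compactness lemmas on automorphisms. -/

open Filter Metric Set Topology
open scoped Manifold ContDiff

set_option linter.unusedSectionVars false

namespace Pool.Agent.NonTame

section Top

variable {X : Type*} [TopologicalSpace X] [LocallyConnectedSpace X]

/-- the component of `x₀` in the sublevel set -/
def Wset (u : X → ℝ) (x₀ : X) (a : ℝ) : Set X := connectedComponentIn {x | u x < a} x₀

theorem wset_subset (u : X → ℝ) (x₀ : X) (a : ℝ) : Wset u x₀ a ⊆ {x | u x < a} :=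
  connectedComponentIn_subset _ _

theorem wset_open {u : X → ℝ} (hu : Continuous u) (x₀ : X) (a : ℝ) : IsOpen (Wset u x₀ a) :=
  (isOpen_lt hu continuous_const).connectedComponentIn

theorem wset_preconnected (u : X → ℝ) (x₀ : X) (a : ℝ) : IsPreconnected (Wset u x₀ a) :=
  isPreconnected_connectedComponentIn

theorem wset_mono (u : X → ℝ) (x₀ : X) {a b : ℝ} (h : a ≤ b) : Wset u x₀ a ⊆ Wset u x₀ b :=
  connectedComponentIn_mono _ (fun x (hx : u x < a) => (lt_of_lt_of_le hx h : u x < b))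

theorem wset_mem {u : X → ℝ} {x₀ : X} {a : ℝ} (h : u x₀ < a) : x₀ ∈ Wset u x₀ a :=
  mem_connectedComponentIn h

theorem wset_lt {u : X → ℝ} {x₀ : X} {a : ℝ} {x : X} (h : x ∈ Wset u x₀ a) : u x < a :=
  wset_subset u x₀ a h

theorem wset_nonempty {u : X → ℝ} {x₀ : X} {a : ℝ} (h : (Wset u x₀ a).Nonempty) : u x₀ < a :=
  (connectedComponentIn_nonempty_iff (F := {x | u x < a})).1 h

theorem wset_closure {u : X → ℝ} (hu : Continuous u) (x₀ : X) {a b : ℝ} (h : a < b) :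
    closure (Wset u x₀ a) ⊆ Wset u x₀ b := by
  rcases (Wset u x₀ a).eq_empty_or_nonempty with he | hne
  · rw [he, closure_empty]
    exact empty_subset _
  have hx₀ : u x₀ < a := wset_nonempty hne
  refine (wset_preconnected u x₀ a).closure.subset_connectedComponentIn
    (subset_closure (wset_mem hx₀)) ?_
  have h1 : closure (Wset u x₀ a) ⊆ {x | u x ≤ a} :=
    closure_minimal (fun x hx => le_of_lt (wset_lt hx)) (isClosed_le hu continuous_const)
  intro x hx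
  exact lt_of_le_of_lt (h1 hx) h

theorem wset_exhaust {u : X → ℝ} (hu : Continuous u) (x₀ : X) {x : X}
    (hx : x ∈ connectedComponent x₀) : ∃ n : ℕ, x ∈ Wset u x₀ n := by
  set S : Set X := ⋃ n : ℕ, Wset u x₀ n with hS
  have hSo : IsOpen S := isOpen_iUnion fun n => wset_open hu x₀ n
  have hSc : IsClosed S := by
    rw [← closure_subset_iff_isClosed]
    intro y hy
    obtain ⟨n, hn⟩ := exists_nat_gt (u y)
    have h1 : IsOpen (connectedComponentIn {x | u x < (n : ℝ)} y) :=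
      (isOpen_lt hu continuous_const).connectedComponentIn
    obtain ⟨z, hz1, hz2⟩ := mem_closure_iff.1 hy _ h1 (mem_connectedComponentIn hn)
    obtain ⟨m, hm⟩ := mem_iUnion.1 hz2
    refine mem_iUnion.2 ⟨max m n, ?_⟩
    have hx₀m : u x₀ < m := wset_nonempty ⟨z, hm⟩
    have h2 : IsPreconnected (Wset u x₀ m ∪ connectedComponentIn {x | u x < (n : ℝ)} y) :=
      IsPreconnected.union z hm hz1 (wset_preconnected u x₀ m) isPreconnected_connectedComponentIn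
    refine h2.subset_connectedComponentIn (Or.inl (wset_mem hx₀m)) ?_
      (Or.inr (mem_connectedComponentIn hn))
    rintro w (hw | hw)
    · have h3 : u w < m := wset_subset u x₀ m hw
      have h4 : (m : ℝ) ≤ ((max m n : ℕ) : ℝ) := by exact_mod_cast le_max_left m n
      exact lt_of_lt_of_le h3 h4
    · have h3 : u w < n := connectedComponentIn_subset {x | u x < (n : ℝ)} y hw
      have h4 : (n : ℝ) ≤ ((max m n : ℕ) : ℝ) := by exact_mod_cast le_max_right m n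
      exact lt_of_lt_of_le h3 h4
  have hx₀S : x₀ ∈ S := by
    obtain ⟨n, hn⟩ := exists_nat_gt (u x₀)
    exact mem_iUnion.2 ⟨n, wset_mem hn⟩
  have h5 : connectedComponent x₀ ⊆ S := IsClopen.connectedComponent_subset ⟨hSc, hSo⟩ hx₀S
  exact mem_iUnion.1 (h5 hx)

end Top

variable {E : Type*} [NormedAddCommGroup E] [NormedSpace ℂ E] [FiniteDimensional ℂ E]
variable {X : Type*} [MetricSpace X] [ChartedSpace E X] [IsManifold 𝓘(ℂ, E) ω X]

/-- automorphisms with a lower Jacobian bound at `x₀` -/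
def Cls (E : Type*) [NormedAddCommGroup E] [NormedSpace ℂ E]
    {X : Type*} [TopologicalSpace X] [ChartedSpace E X] (u : X → ℝ) (x₀ : X)
    (Q : ℕ → Set X) (q : ℕ → X) (i : ℕ) : Set (X ≃ₘ^ω⟮𝓘(ℂ, E), 𝓘(ℂ, E)⟯ X) :=
  {ψ | u (ψ x₀) ≤ i ∧ ∃ j ≤ i, ψ x₀ ∈ Q j ∧ 1 / ((i : ℝ) + 1) ≤ ‖jac E x₀ (q j) ψ x₀‖}

theorem cls_mono {u : X → ℝ} {x₀ : X} {Q : ℕ → Set X} {q : ℕ → X} {i i' : ℕ} (h : i ≤ i') :
    Cls E u x₀ Q q i ⊆ Cls E u x₀ Q q i' := by
  rintro ψ ⟨h1, j, hj, h2, h3⟩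
  have h4 : (i : ℝ) ≤ i' := by exact_mod_cast h
  refine ⟨h1.trans h4, j, hj.trans h, h2, le_trans ?_ h3⟩
  have h5 : (0 : ℝ) ≤ i := Nat.cast_nonneg i
  apply one_div_le_one_div_of_le <;> linarith

theorem cls_exhaust {u : X → ℝ} {x₀ : X} {Q : ℕ → Set X} {q : ℕ → X}
    (hQs : ∀ j, Q j ⊆ (chartAt E (q j)).source) (hQu : ∀ x, ∃ j, x ∈ Q j)
    (ψ : X ≃ₘ^ω⟮𝓘(ℂ, E), 𝓘(ℂ, E)⟯ X) : ∃ i, ψ ∈ Cls E u x₀ Q q i := by
  obtain ⟨j, hj⟩ := hQu (ψ x₀)
  obtain ⟨n, hn⟩ := exists_nat_gt (u (ψ x₀))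
  have hne : jac E x₀ (q j) ψ x₀ ≠ 0 :=
    jac_ne_zero (θ := ψ.symm) ψ.contMDiff ψ.symm.contMDiff (fun x => ψ.symm_apply_apply x)
      (mem_chart_source E x₀) (hQs j hj)
  have hpos : 0 < ‖jac E x₀ (q j) ψ x₀‖ := norm_pos_iff.2 hne
  obtain ⟨m, hm⟩ := exists_nat_one_div_lt hpos
  refine ⟨max n (max m j), ?_, j, ?_, hj, ?_⟩
  · have : (n : ℝ) ≤ ((max n (max m j) : ℕ) : ℝ) := by exact_mod_cast le_max_left _ _
    linarith
  · exact (le_max_right m j).trans (le_max_right _ _)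
  · have h1 : (m : ℝ) ≤ ((max n (max m j) : ℕ) : ℝ) := by
      exact_mod_cast (le_max_left m j).trans (le_max_right _ _)
    have h2 : (0 : ℝ) ≤ m := Nat.cast_nonneg m
    refine le_trans ?_ hm.le
    apply one_div_le_one_div_of_le <;> linarith

theorem cls_nd {u : X → ℝ} {x₀ : X} {Q : ℕ → Set X} {q : ℕ → X}
    (hQc : ∀ j, IsClosed (Q j)) (hQs : ∀ j, Q j ⊆ (chartAt E (q j)).source) {i : ℕ}
    {𝒰 : Ultrafilter ℕ} {ψ : ℕ → X ≃ₘ^ω⟮𝓘(ℂ, E), 𝓘(ℂ, E)⟯ X}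
    (hψ : ∀ k, ψ k ∈ Cls E u x₀ Q q i) {g : X → X}
    (hlim : Tendsto (fun k => ψ k x₀) 𝒰 (𝓝 (g x₀))) :
    NDp E 𝒰 (fun k => (ψ k : X → X)) g x₀ := by
  have h1 : ∀ᶠ k in (𝒰 : Filter ℕ), ∃ j ∈ Finset.range (i + 1), ψ k x₀ ∈ Q j ∧
      1 / ((i : ℝ) + 1) ≤ ‖jac E x₀ (q j) (ψ k) x₀‖ := by
    refine Eventually.of_forall fun k => ?_
    obtain ⟨-, j, hj, h2, h3⟩ := hψ k
    exact ⟨j, Finset.mem_range.2 (by omega), h2, h3⟩
  have h2 : ∃ j ∈ Finset.range (i + 1), ∀ᶠ k in (𝒰 : Filter ℕ), ψ k x₀ ∈ Q j ∧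
      1 / ((i : ℝ) + 1) ≤ ‖jac E x₀ (q j) (ψ k) x₀‖ := by
    by_contra hcon
    push Not at hcon
    have h3 : ∀ᶠ k in (𝒰 : Filter ℕ), ∀ j ∈ Finset.range (i + 1), ¬ (ψ k x₀ ∈ Q j ∧
      1 / ((i : ℝ) + 1) ≤ ‖jac E x₀ (q j) (ψ k) x₀‖) := by
      rw [Filter.eventually_all_finset]
      intro j hj
      filter_upwards [hcon j hj] with k hk
      push Not
      exact hk
    obtain ⟨k, ⟨j, hj, hj2⟩, hk⟩ := (h1.and h3).exists
    exact hk j hj hj2
  obtain ⟨j, -, hj⟩ := h2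
  have hmem : g x₀ ∈ Q j := (hQc j).mem_of_tendsto hlim (hj.mono fun k hk => hk.1)
  refine ⟨x₀, q j, mem_chart_source E x₀, hQs j hmem, 1 / ((i : ℝ) + 1), by positivity, ?_⟩
  exact hj.mono fun k hk => hk.2

theorem mdiff_diffeo (ψ : X ≃ₘ^ω⟮𝓘(ℂ, E), 𝓘(ℂ, E)⟯ X) :
    MDifferentiable 𝓘(ℂ, E) 𝓘(ℂ, E) (ψ : X → X) :=
  ψ.mdifferentiable (by simp)

theorem lemma_one (hH : ∀ L : Set X, IsCompact L → HDisc E L) {u : X → ℝ} (hu : Continuous u)
    (huc : ∀ r, IsCompact {x | u x ≤ r}) {x₀ : X} (hnc : ¬ IsCompact (connectedComponent x₀))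
    {Q : ℕ → Set X} {q : ℕ → X}
    (hQc : ∀ j, IsClosed (Q j)) (hQs : ∀ j, Q j ⊆ (chartAt E (q j)).source) (i : ℕ) :
    ∃ N : ℕ, ∀ ψ ∈ Cls E u x₀ Q q i, ¬ MapsTo ψ (Wset u x₀ N) {x | u x ≤ i + 1} := by
  by_contra hcon
  push Not at hcon
  choose ψ hψc hψL using hcon
  have hlc : LocallyConnectedSpace X := ChartedSpace.locallyConnectedSpace E X
  have hlcp : LocallyCompactSpace X := by
    have : ProperSpace E := FiniteDimensional.proper ℂ E
    exact ChartedSpace.locallyCompactSpace E X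
  set L : Set X := {x | u x ≤ i + 1} with hL
  have hLc : IsCompact L := huc _
  let 𝒰 : Ultrafilter ℕ := hyperfilter ℕ
  have h𝒰 : (𝒰 : Filter ℕ) ≤ atTop := by
    rw [← Nat.cofinite_eq_atTop]
    exact hyperfilter_le_cofinite
  set X₀ : Set X := connectedComponent x₀ with hX₀
  have hX₀o : IsOpen X₀ := isOpen_connectedComponent
  have hcce : ∀ x ∈ X₀, ∃ y ∈ L, Tendsto (fun p : ℕ × X => ψ p.1 p.2)
      ((𝒰 : Filter ℕ) ×ˢ 𝓝 x) (𝓝 y) := by
    intro x hx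
    obtain ⟨N, hN⟩ := wset_exhaust hu x₀ hx
    refine cc_of_hdisc (E := E) (ψ := fun k => (ψ k : X → X)) hLc (hH L hLc)
      (wset_open hu x₀ N) hN ?_
    have h1 : ∀ᶠ k in (𝒰 : Filter ℕ), N ≤ k := h𝒰 (eventually_ge_atTop N)
    filter_upwards [h1] with k hk
    refine ⟨discHol_of_mdiff (mdiff_diffeo (ψ k)) _, ?_⟩
    exact (hψL k).mono_left (wset_mono u x₀ (by exact_mod_cast hk))
  choose! e heL hecc using hcce
  have hx₀ : x₀ ∈ X₀ := mem_connectedComponent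
  have he : DiscHol E X₀ e := by
    refine discHol_limit (l := (𝒰 : Filter ℕ)) (ψ := fun k => (ψ k : X → X)) hX₀o ?_ hecc
    intro x _
    exact ⟨univ, univ_mem, Eventually.of_forall fun k => discHol_of_mdiff (mdiff_diffeo (ψ k)) _⟩
  obtain ⟨x', z', hx', hz', hnd⟩ := cls_nd (E := E) hQc hQs hψc (𝒰 := 𝒰) (g := e)
    (cc_pointwise (F := fun k => (ψ k : X → X)) (hecc x₀ hx₀))
  obtain ⟨V, hVn, hVX, hVc⟩ := local_compact_nhds (hX₀o.mem_nhds hx₀)
  have hccx₀ := hecc x₀ hx₀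
  obtain ⟨O', hO'n, hO'⟩ := robust_open_mfd (𝒰 := 𝒰) (ψ := fun k => (ψ k : X → X))
    (fun k => (ψ k).contMDiff) hx' hz' hccx₀ hnd hVn
  obtain ⟨O, hOO', hOo, hxO⟩ := _root_.mem_nhds_iff.1 hO'n
  have hOe : ∀ y ∈ O, ∃ x ∈ X₀, e x = y := by
    intro y hy
    have h1 : ∀ᶠ k in (𝒰 : Filter ℕ), (ψ k).symm y ∈ V := by
      filter_upwards [hO'] with k hk
      obtain ⟨x, hx, hxy⟩ := hk (hOO' hy)
      have : (ψ k).symm y = x := by
        rw [← hxy]
        exact (ψ k).symm_apply_apply x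
      rw [this]
      exact hx
    obtain ⟨x, hxV, hx⟩ := exists_ultra_lim 𝒰 hVc h1
    refine ⟨x, hVX hxV, ?_⟩
    have h2 : Tendsto (fun k => ψ k ((ψ k).symm y)) 𝒰 (𝓝 (e x)) :=
      cc_comp (F := fun k => (ψ k : X → X)) (hecc x (hVX hxV)) hx
    have h3 : (fun k => ψ k ((ψ k).symm y)) = fun _ => y := by
      funext k
      exact (ψ k).apply_symm_apply y
    rw [h3] at h2
    exact (tendsto_nhds_unique h2 tendsto_const_nhds)
  set X₁ : Set X := connectedComponent (e x₀) with hX₁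
  have hX₁o : IsOpen X₁ := isOpen_connectedComponent
  have hk₁ : ∀ᶠ k in (𝒰 : Filter ℕ), ψ k x₀ ∈ X₁ :=
    (cc_pointwise (F := fun k => (ψ k : X → X)) hccx₀).eventually_mem
      (hX₁o.mem_nhds mem_connectedComponent)
  have hsymm : ∀ k, ψ k x₀ ∈ X₁ → MapsTo (ψ k).symm X₁ X₀ := by
    intro k hk
    have h1 : X₁ = connectedComponent (ψ k x₀) := connectedComponent_eq hk
    rw [h1]
    have h2 := (ψ k).symm.continuous.mapsTo_connectedComponent (ψ k x₀)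
    rw [(ψ k).symm_apply_apply] at h2
    exact h2
  have hcch : ∀ y ∈ X₁, ∃ z ∈ L, Tendsto (fun p : ℕ × X => (e ∘ (ψ p.1).symm) p.2)
      ((𝒰 : Filter ℕ) ×ˢ 𝓝 y) (𝓝 z) := by
    intro y hy
    refine cc_of_hdisc (E := E) (ψ := fun k => e ∘ (ψ k).symm) hLc (hH L hLc) hX₁o hy ?_
    filter_upwards [hk₁] with k hk
    exact ⟨he.comp (discHol_of_mdiff (mdiff_diffeo (ψ k).symm) _) (hsymm k hk),
      fun y' hy' => heL _ (hsymm k hk hy')⟩
  choose! h hhL hhcc using hcch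
  have hhd : DiscHol E X₁ h := by
    refine discHol_limit (l := (𝒰 : Filter ℕ)) (ψ := fun k => e ∘ (ψ k).symm) hX₁o ?_ hhcc
    intro y hy
    refine ⟨X₁, hX₁o.mem_nhds hy, ?_⟩
    filter_upwards [hk₁] with k hk
    exact he.comp (discHol_of_mdiff (mdiff_diffeo (ψ k).symm) _) (hsymm k hk)
  have hid : ∀ y ∈ O ∩ X₁, h y = y := by
    rintro y ⟨hyO, hy1⟩
    obtain ⟨x, hxX, hxy⟩ := hOe y hyO
    have h1 : Tendsto (fun k => ψ k x) 𝒰 (𝓝 y) := by
      rw [← hxy]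
      exact cc_pointwise (F := fun k => (ψ k : X → X)) (hecc x hxX)
    have h2 : Tendsto (fun k => (e ∘ (ψ k).symm) (ψ k x)) 𝒰 (𝓝 (h y)) :=
      cc_comp (F := fun k => e ∘ (ψ k).symm) (hhcc y hy1) h1
    have h3 : (fun k => (e ∘ (ψ k).symm) (ψ k x)) = fun _ => y := by
      funext k
      simp only [Function.comp]
      rw [(ψ k).symm_apply_apply]
      exact hxy
    rw [h3] at h2
    exact (tendsto_nhds_unique h2 tendsto_const_nhds)
  have hall := discHol_eq_id hX₁o isPreconnected_connectedComponent hhd hOo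
    ⟨e x₀, hxO, mem_connectedComponent⟩ hid
  have hX₁L : X₁ ⊆ L := fun y hy => by
    have := hhL y hy
    rwa [hall y hy] at this
  have hX₁c : IsCompact X₁ := hLc.of_isClosed_subset isClosed_connectedComponent hX₁L
  obtain ⟨k, hk⟩ := hk₁.exists
  refine hnc ((hX₁c.image (ψ k).symm.continuous).of_isClosed_subset
    isClosed_connectedComponent ?_)
  intro x hx
  refine ⟨ψ k x, ?_, (ψ k).symm_apply_apply x⟩
  have h1 : X₁ = connectedComponent (ψ k x₀) := connectedComponent_eq hk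
  rw [h1]
  exact (ψ k).continuous.mapsTo_connectedComponent x₀ hx

theorem lemma_two (hH : ∀ L : Set X, IsCompact L → HDisc E L) [SecondCountableTopology X]
    {u : X → ℝ} (hu : Continuous u)
    (huc : ∀ r, IsCompact {x | u x ≤ r}) {x₀ : X}
    {Q : ℕ → Set X} {q : ℕ → X}
    (hQc : ∀ j, IsClosed (Q j)) (hQs : ∀ j, Q j ⊆ (chartAt E (q j)).source) (i : ℕ)
    {a b : ℝ} (hab : a < b) :
    ∃ D : Set X, D.Finite ∧ (∀ x ∈ D, (i : ℝ) < u x ∧ u x < i + 1) ∧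
      ∀ ψ ∈ Cls E u x₀ Q q i, MapsTo ψ (Wset u x₀ b) {x | u x < i + 2} →
        (∀ x ∈ D, x ∉ ψ '' Wset u x₀ b) → MapsTo ψ (Wset u x₀ a) {x | u x < i + 1} := by
  by_contra hcon
  push Not at hcon
  have hlc : LocallyConnectedSpace X := ChartedSpace.locallyConnectedSpace E X
  have hne : Nonempty X := ⟨x₀⟩
  set d : ℕ → X := TopologicalSpace.denseSeq X with hd
  have hdd : DenseRange d := TopologicalSpace.denseRange_denseSeq X
  set D : ℕ → Set X := fun k => {x | (∃ m ≤ k, d m = x) ∧ (i : ℝ) < u x ∧ u x < i + 1} with hD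
  have hDf : ∀ k, (D k).Finite := by
    intro k
    refine ((Set.finite_Iic k).image d).subset ?_
    rintro x ⟨⟨m, hm, hmx⟩, -⟩
    exact ⟨m, hm, hmx⟩
  have hex : ∀ k, ∃ ψ ∈ Cls E u x₀ Q q i, MapsTo ψ (Wset u x₀ b) {x | u x < i + 2} ∧
      (∀ x ∈ D k, x ∉ ψ '' Wset u x₀ b) ∧ ¬ MapsTo ψ (Wset u x₀ a) {x | u x < i + 1} :=
    fun k => hcon (D k) (hDf k) (fun x hx => hx.2)
  choose ψ hψc hψb hψD hψa using hex
  set L : Set X := {x | u x ≤ i + 2} with hL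
  have hLc : IsCompact L := huc _
  let 𝒰 : Ultrafilter ℕ := hyperfilter ℕ
  have h𝒰 : (𝒰 : Filter ℕ) ≤ atTop := by
    rw [← Nat.cofinite_eq_atTop]
    exact hyperfilter_le_cofinite
  set W : Set X := Wset u x₀ b with hW
  have hWo : IsOpen W := wset_open hu x₀ b
  have hcce : ∀ x ∈ W, ∃ y ∈ L, Tendsto (fun p : ℕ × X => ψ p.1 p.2)
      ((𝒰 : Filter ℕ) ×ˢ 𝓝 x) (𝓝 y) := by
    intro x hx
    refine cc_of_hdisc (E := E) (ψ := fun k => (ψ k : X → X)) hLc (hH L hLc) hWo hx ?_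
    refine Eventually.of_forall fun k => ?_
    refine ⟨discHol_of_mdiff (mdiff_diffeo (ψ k)) _, ?_⟩
    intro x' hx'
    exact le_of_lt (show u (ψ k x') < i + 2 from hψb k hx')
  choose! e heL hecc using hcce
  have hxa : u x₀ < a := by
    have := hψa 0
    rw [MapsTo] at this
    push Not at this
    obtain ⟨w, hw, -⟩ := this
    exact wset_nonempty ⟨w, hw⟩
  have hx₀ : x₀ ∈ W := wset_mem (hxa.trans hab)
  have hp : ∀ k, ∃ p ∈ Wset u x₀ a, u (ψ k p) = i + 1 / 2 := by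
    intro k
    have h1 := hψa k
    rw [MapsTo] at h1
    push Not at h1
    obtain ⟨w, hw, hw2⟩ := h1
    have hw3 : (i : ℝ) + 1 ≤ u (ψ k w) := by
      by_contra hlt
      push Not at hlt
      exact hw2 hlt
    have h2 : u (ψ k x₀) ≤ i := (hψc k).1
    have h3 := (wset_preconnected u x₀ a).intermediate_value (wset_mem hxa) hw
      (f := fun x => u (ψ k x)) ((hu.comp (ψ k).continuous).continuousOn)
    obtain ⟨p, hp1, hp2⟩ := h3 (show (i : ℝ) + 1 / 2 ∈ Icc (u (ψ k x₀)) (u (ψ k w)) from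
      ⟨by linarith, by linarith⟩)
    exact ⟨p, hp1, hp2⟩
  choose p hpa hpu using hp
  have hclc : IsCompact (closure (Wset u x₀ a)) := by
    refine (huc a).of_isClosed_subset isClosed_closure ?_
    exact closure_minimal (fun x hx => le_of_lt (wset_lt hx)) (isClosed_le hu continuous_const)
  obtain ⟨p', hp'1, hp'2⟩ := exists_ultra_lim 𝒰 (F := p) hclc
    (Eventually.of_forall fun k => subset_closure (hpa k))
  have hp'W : p' ∈ W := wset_closure hu x₀ hab hp'1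
  have hup' : u (e p') = i + 1 / 2 := by
    have h1 : Tendsto (fun k => ψ k (p k)) 𝒰 (𝓝 (e p')) :=
      cc_comp (F := fun k => (ψ k : X → X)) (hecc p' hp'W) hp'2
    have h2 := (hu.tendsto _).comp h1
    have h3 : (u ∘ fun k => ψ k (p k)) = fun _ => (i : ℝ) + 1 / 2 := by
      funext k
      exact hpu k
    rw [h3] at h2
    exact (tendsto_nhds_unique h2 tendsto_const_nhds)
  have hec : ContinuousAt e p' := by
    refine continuousAt_of_cc (F := fun k => (ψ k : X → X)) (l := (𝒰 : Filter ℕ)) ?_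
      (hecc p' hp'W)
    filter_upwards [hWo.mem_nhds hp'W] with x' hx'
    exact cc_pointwise (F := fun k => (ψ k : X → X)) (hecc x' hx')
  have hnd₀ : NDp E 𝒰 (fun k => (ψ k : X → X)) e x₀ :=
    cls_nd (E := E) hQc hQs hψc (𝒰 := 𝒰) (g := e)
      (cc_pointwise (F := fun k => (ψ k : X → X)) (hecc x₀ hx₀))
  have hdense := nd_dense_mfd (𝒰 := 𝒰) (ψ := fun k => (ψ k : X → X))
    (fun k => (ψ k).contMDiff) hWo (wset_preconnected u x₀ b) hecc hx₀ hnd₀
  have hnear : {x | (i : ℝ) < u (e x) ∧ u (e x) < i + 1} ∈ 𝓝 p' := by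
    have h1 : ContinuousAt (fun x => u (e x)) p' := hu.continuousAt.comp hec
    filter_upwards [h1.eventually_const_lt (show (i : ℝ) < u (e p') by rw [hup']; linarith),
      h1.eventually_lt_const (show u (e p') < (i : ℝ) + 1 by rw [hup']; linarith)] with x h1 h2
    exact ⟨h1, h2⟩
  obtain ⟨s, hs1, hsW, x', z', hx', hz', hnd⟩ := mem_closure_iff_nhds.1 (hdense hp'W) _ hnear
  obtain ⟨O, hOn, hO⟩ := robust_open_mfd (𝒰 := 𝒰) (ψ := fun k => (ψ k : X → X))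
    (fun k => (ψ k).contMDiff) hx' hz' (hecc s hsW) hnd (hWo.mem_nhds hsW)
  have hshell : IsOpen {y : X | (i : ℝ) < u y ∧ u y < i + 1} :=
    (isOpen_lt continuous_const hu).inter (isOpen_lt hu continuous_const)
  obtain ⟨O', hO'sub, hO'o, hsO'⟩ := _root_.mem_nhds_iff.1 (inter_mem hOn
    (hshell.mem_nhds hs1))
  obtain ⟨m, hm⟩ := hdd.exists_mem_open hO'o ⟨_, hsO'⟩
  have h1 : ∀ᶠ k in (𝒰 : Filter ℕ), m ≤ k := h𝒰 (eventually_ge_atTop m)
  obtain ⟨k, hk1, hk2⟩ := (h1.and hO).exists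
  refine hψD k (d m) ⟨⟨m, hk1, rfl⟩, (hO'sub hm).2⟩ (hk2 (hO'sub hm).1)

end Pool.Agent.NonTame
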