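import Pool.Agent.Lib_MP_884f32_an.Cls2

/-! The two compactness lemmas modulo the relation defined by all holomorphic maps. -/

open Filter Metric Set Topology
open scoped Manifold ContDiff

set_option linter.unusedSectionVars false

namespace Pool.Agent.NonTame

variable {E : Type*} [NormedAddCommGroup E] [NormedSpace ℂ E] [FiniteDimensional ℂ E]
variable {X : Type*} [TopologicalSpace X] [ChartedSpace E X] [IsManifold 𝓘(ℂ, E) ω X]
variable {E' : Type*} [NormedAddCommGroup E'] [NormedSpace ℂ E'] [FiniteDimensional ℂ E']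
variable {Y : Type*} [MetricSpace Y] [ChartedSpace E' Y] [IsManifold 𝓘(ℂ, E') ω Y]

theorem mdiff_diffeo2 (ψ : X ≃ₘ^ω⟮𝓘(ℂ, E), 𝓘(ℂ, E)⟯ X) :
    MDifferentiable 𝓘(ℂ, E) 𝓘(ℂ, E) (ψ : X → X) :=
  ψ.mdifferentiable (by simp)

/-- continuous convergence of `f ∘ ψ k` for every holomorphic map `f` -/
theorem hol_cc {𝒰 : Ultrafilter ℕ} (hH : ∀ L : Set Y, IsCompact L → HDisc E' L)
    {L : Set X} (hL : IsCompact L) {W : Set X} (hW : IsOpen W)
    {ψ : ℕ → X ≃ₘ^ω⟮𝓘(ℂ, E), 𝓘(ℂ, E)⟯ X}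
    (hψ : ∀ᶠ k in (𝒰 : Filter ℕ), MapsTo (ψ k) W L) {x q : X} (hx : x ∈ W)
    (hq : Tendsto (fun k => ψ k x) 𝒰 (𝓝 q)) {f : X → Y} (hf : f ∈ HolF E E' X Y) :
    Tendsto (fun p : ℕ × X => f (ψ p.1 p.2)) ((𝒰 : Filter ℕ) ×ˢ 𝓝 x) (𝓝 (f q)) := by
  have hfm : ContMDiff 𝓘(ℂ, E) 𝓘(ℂ, E') ω f := hf
  have hfL : IsCompact (f '' L) := hL.image hfm.continuous
  obtain ⟨y, -, hy⟩ := dcc_of_hdisc (E := E) (𝒰 := 𝒰) (ψ := fun k x => f (ψ k x)) hfL
    (hH _ hfL) hW hx (by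
      filter_upwards [hψ] with k hk
      refine ⟨dHol_of_mdiffOn ?_, fun x' hx' => ⟨ψ k x', hk hx', rfl⟩⟩
      have h1 : ContMDiff 𝓘(ℂ, E) 𝓘(ℂ, E') ω (fun x => f (ψ k x)) := hfm.comp (ψ k).contMDiff
      exact (h1.mdifferentiable (by simp)).mdifferentiableOn)
  have h1 := cc_pointwise (F := fun k x => f (ψ k x)) hy
  have h2 : Tendsto (fun k => f (ψ k x)) 𝒰 (𝓝 (f q)) := (hfm.continuous.tendsto q).comp hq
  rw [tendsto_nhds_unique h2 h1]
  exact hy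

/-- saturated continuous functions converge too -/
theorem sat_cc {𝒰 : Ultrafilter ℕ} {L : Set X} (hL : IsCompact L) {W : Set X} (hW : IsOpen W)
    {ψ : ℕ → X ≃ₘ^ω⟮𝓘(ℂ, E), 𝓘(ℂ, E)⟯ X}
    (hψ : ∀ᶠ k in (𝒰 : Filter ℕ), MapsTo (ψ k) W L) {x q : X} (hx : x ∈ W)
    (hcc : ∀ f ∈ HolF E E' X Y,
      Tendsto (fun p : ℕ × X => f (ψ p.1 p.2)) ((𝒰 : Filter ℕ) ×ˢ 𝓝 x) (𝓝 (f q)))
    {u : X → ℝ} (hu : Continuous u) (hus : ∀ x x', FRel (HolF E E' X Y) x x' → u x = u x') :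
    Tendsto (fun p : ℕ × X => u (ψ p.1 p.2)) ((𝒰 : Filter ℕ) ×ˢ 𝓝 x) (𝓝 (u q)) := by
  rw [tendsto_iff_ultrafilter]
  intro 𝒱 h𝒱
  have hLev : ∀ᶠ p in (𝒱 : Filter (ℕ × X)), ψ p.1 p.2 ∈ L := by
    have h1 : ∀ᶠ p in ((𝒰 : Filter ℕ) ×ˢ 𝓝 x), ψ p.1 p.2 ∈ L := by
      have h2 : ∀ᶠ p in ((𝒰 : Filter ℕ) ×ˢ 𝓝 x), p.2 ∈ W :=
        Filter.Eventually.prod_inr (hW.mem_nhds hx) _
      filter_upwards [hψ.prod_inl (𝓝 x), h2] with p hp1 hp2
      exact hp1 hp2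
    exact h𝒱 h1
  obtain ⟨q', -, hq'⟩ := exists_ultra_lim 𝒱 (F := fun p : ℕ × X => ψ p.1 p.2) hL hLev
  have hrel : FRel (HolF E E' X Y) q' q := by
    intro f hf
    have hfm : ContMDiff 𝓘(ℂ, E) 𝓘(ℂ, E') ω f := hf
    have h1 : Tendsto (fun p : ℕ × X => f (ψ p.1 p.2)) 𝒱 (𝓝 (f q')) :=
      (hfm.continuous.tendsto q').comp hq'
    have h2 : Tendsto (fun p : ℕ × X => f (ψ p.1 p.2)) 𝒱 (𝓝 (f q)) :=
      (hcc f hf).mono_left h𝒱
    exact tendsto_nhds_unique h1 h2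
  rw [← hus _ _ hrel]
  exact (hu.tendsto q').comp hq'

theorem frel_aut {ψ : X ≃ₘ^ω⟮𝓘(ℂ, E), 𝓘(ℂ, E)⟯ X} {x x' : X}
    (h : FRel (HolF E E' X Y) x x') : FRel (HolF E E' X Y) (ψ x) (ψ x') := by
  intro f hf
  have hfm : ContMDiff 𝓘(ℂ, E) 𝓘(ℂ, E') ω f := hf
  exact h (fun z => f (ψ z)) (hfm.comp ψ.contMDiff)

/-- classes of automorphisms -/
def Cls2 {s m : ℕ} (u : X → ℝ) (x₀ : X) (T : ℕ → Cert E E' X Y s m) (i : ℕ) :
    Set (X ≃ₘ^ω⟮𝓘(ℂ, E), 𝓘(ℂ, E)⟯ X) :=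
  {ψ | u (ψ x₀) ≤ i ∧ ∃ j ≤ i, (T j).Sat (ψ : X → X)}

theorem cls2_exhaust {s m : ℕ} {u : X → ℝ} {x₀ : X} {T : ℕ → Cert E E' X Y s m}
    (hT : ∀ ψ : X ≃ₘ^ω⟮𝓘(ℂ, E), 𝓘(ℂ, E)⟯ X, ∃ i, (T i).Sat (ψ : X → X))
    (ψ : X ≃ₘ^ω⟮𝓘(ℂ, E), 𝓘(ℂ, E)⟯ X) : ∃ i, ψ ∈ Cls2 u x₀ T i := by
  obtain ⟨j, hj⟩ := hT ψ
  obtain ⟨n, hn⟩ := exists_nat_gt (u (ψ x₀))
  refine ⟨max n j, ?_, j, le_max_right _ _, hj⟩
  have : (n : ℝ) ≤ ((max n j : ℕ) : ℝ) := by exact_mod_cast le_max_left _ _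
  linarith

/-- a single certificate is satisfied along the ultrafilter -/
theorem cls2_ultra {s m : ℕ} {u : X → ℝ} {x₀ : X} {T : ℕ → Cert E E' X Y s m} {i : ℕ}
    {𝒰 : Ultrafilter ℕ} {ψ : ℕ → X ≃ₘ^ω⟮𝓘(ℂ, E), 𝓘(ℂ, E)⟯ X}
    (hψ : ∀ k, ψ k ∈ Cls2 u x₀ T i) :
    ∃ j ≤ i, ∀ᶠ k in (𝒰 : Filter ℕ), (T j).Sat (ψ k : X → X) := by
  by_contra hcon
  push Not at hcon
  have h3 : ∀ᶠ k in (𝒰 : Filter ℕ), ∀ j ∈ Finset.range (i + 1), ¬ (T j).Sat (ψ k : X → X) := by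
    rw [Filter.eventually_all_finset]
    intro j hj
    exact hcon j (by rw [Finset.mem_range] at hj; omega)
  obtain ⟨k, hk⟩ := h3.exists
  obtain ⟨-, j, hj, hj2⟩ := hψ k
  exact hk j (Finset.mem_range.2 (by omega)) hj2

theorem lemma_one2 [T2Space X] (hH : ∀ L : Set Y, IsCompact L → HDisc E' L)
    (hHull : ∀ K : Set X, IsCompact K → IsCompact (FHull (HolF E E' X Y) K))
    {u : X → ℝ} (hu : Continuous u)
    (huc : ∀ r, IsCompact {x | u x ≤ r}) {x₀ : X} (hnc : ¬ IsCompact (connectedComponent x₀))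
    {s m : ℕ} {T : ℕ → Cert E E' X Y s m} (hTx : ∀ i, (T i).x ∈ connectedComponent x₀)
    (hmax : ∀ x ∈ connectedComponent x₀, ¬ HasRank E E' Y (m + 1) x) (i : ℕ) :
    ∃ N : ℕ, ∀ ψ ∈ Cls2 u x₀ T i, ¬ MapsTo ψ (Wset u x₀ N) {x | u x ≤ i + 1} := by
  by_contra hcon
  push Not at hcon
  choose ψ hψc hψL using hcon
  have hlc : LocallyConnectedSpace X := ChartedSpace.locallyConnectedSpace E X
  have hlcp : LocallyCompactSpace X := by
    have : ProperSpace E := FiniteDimensional.proper ℂ E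
    exact ChartedSpace.locallyCompactSpace E X
  set L : Set X := {x | u x ≤ i + 1} with hL
  have hLc : IsCompact L := huc _
  let 𝒰 : Ultrafilter ℕ := hyperfilter ℕ
  have h𝒰 : (𝒰 : Filter ℕ) ≤ atTop := by
    rw [← Nat.cofinite_eq_atTop]
    exact hyperfilter_le_cofinite
  set X₀ : Set X := connectedComponent x₀ with hX₀
  have hX₀o : IsOpen X₀ := isOpen_connectedComponent
  have hWev : ∀ N : ℕ, ∀ᶠ k in (𝒰 : Filter ℕ), MapsTo (ψ k) (Wset u x₀ N) L := by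
    intro N
    have h1 : ∀ᶠ k in (𝒰 : Filter ℕ), N ≤ k := h𝒰 (eventually_ge_atTop N)
    filter_upwards [h1] with k hk
    exact (hψL k).mono_left (wset_mono u x₀ (by exact_mod_cast hk))
  have hlim : ∀ x ∈ X₀, ∃ y ∈ L, Tendsto (fun k => ψ k x) 𝒰 (𝓝 y) := by
    intro x hx
    obtain ⟨N, hN⟩ := wset_exhaust hu x₀ hx
    refine exists_ultra_lim 𝒰 hLc ?_
    filter_upwards [hWev N] with k hk
    exact hk hN
  choose! e heL he using hlim
  have hcc : ∀ x ∈ X₀, ∀ f ∈ HolF E E' X Y,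
      Tendsto (fun p : ℕ × X => f (ψ p.1 p.2)) ((𝒰 : Filter ℕ) ×ˢ 𝓝 x) (𝓝 (f (e x))) := by
    intro x hx f hf
    obtain ⟨N, hN⟩ := wset_exhaust hu x₀ hx
    exact hol_cc hH hLc (wset_open hu x₀ N) (hWev N) hN (he x hx) hf
  have hfe : ∀ f ∈ HolF E E' X Y, DHol E E' X₀ (fun x => f (e x)) := by
    intro f hf
    have hfm : ContMDiff 𝓘(ℂ, E) 𝓘(ℂ, E') ω f := hf
    refine dHol_limit (l := (𝒰 : Filter ℕ)) (ψ := fun k x => f (ψ k x)) hX₀o ?_
      (fun x hx => hcc x hx f hf)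
    intro x _
    refine ⟨univ, univ_mem, Eventually.of_forall fun k => dHol_of_mdiffOn ?_⟩
    have h1 : ContMDiff 𝓘(ℂ, E) 𝓘(ℂ, E') ω (fun x => f (ψ k x)) := hfm.comp (ψ k).contMDiff
    exact (h1.mdifferentiable (by simp)).mdifferentiableOn
  have hfec : ∀ f ∈ HolF E E' X Y, ∀ x ∈ X₀, ContinuousAt (fun x => f (e x)) x :=
    fun f hf x hx => (hfe f hf).1.continuousAt (hX₀o.mem_nhds hx)
  obtain ⟨j, -, hj⟩ := cls2_ultra (𝒰 := 𝒰) hψc
  set xj := (T j).x with hxj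
  have hxjX : xj ∈ X₀ := hTx j
  have hnd := cert_nd (t := T j) (𝒰 := 𝒰) (ψ := fun k => (ψ k : X → X))
    (fun k => (ψ k).contMDiff) (e := e) (fun l => hcc xj hxjX _ ((T j).hg l)) hj
  have hmaxk : ∀ k, ∀ᶠ x in 𝓝 xj, ¬ HasRank E E' Y (m + 1) (ψ k x) := by
    intro k
    filter_upwards [hX₀o.mem_nhds hxjX] with x hx hr
    exact hmax x hx (hasRank_comp (ψ k).contMDiff (ψ k).symm.contMDiff
      (fun x => (ψ k).symm_apply_apply x) (fun x => (ψ k).apply_symm_apply x) hr)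
  obtain ⟨V, hVn, hVX, hVc⟩ := local_compact_nhds (hX₀o.mem_nhds hxjX)
  obtain ⟨C, hCn, hC⟩ := robust_rel (𝒰 := 𝒰) (ψ := fun k => (ψ k : X → X))
    (θ := fun k => ((ψ k).symm : X → X))
    (fun k => (ψ k).contMDiff) (fun k => (ψ k).symm.contMDiff)
    (fun k x => (ψ k).symm_apply_apply x) (fun k x => (ψ k).apply_symm_apply x)
    (T j).hg (fun l => hcc xj hxjX _ ((T j).hg l)) (he xj hxjX) hmaxk hnd hVn
  set X₁ : Set X := connectedComponent (e xj) with hX₁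
  have hX₁o : IsOpen X₁ := isOpen_connectedComponent
  have hk₁ : ∀ᶠ k in (𝒰 : Filter ℕ), ψ k xj ∈ X₁ :=
    (he xj hxjX).eventually_mem (hX₁o.mem_nhds mem_connectedComponent)
  have hsymm : ∀ k, ψ k xj ∈ X₁ → MapsTo (ψ k).symm X₁ X₀ := by
    intro k hk
    have h1 : X₁ = connectedComponent (ψ k xj) := connectedComponent_eq hk
    rw [h1]
    have h2 := (ψ k).symm.continuous.mapsTo_connectedComponent (ψ k xj)
    rw [(ψ k).symm_apply_apply] at h2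
    have h3 : X₀ = connectedComponent xj := connectedComponent_eq hxjX
    rw [h3]
    exact h2
  -- the values of e on related points
  have hrel_e : ∀ f ∈ HolF E E' X Y, ∀ x ∈ X₀, ∀ x' ∈ X₀, FRel (HolF E E' X Y) x x' →
      f (e x) = f (e x') := by
    intro f hf x hx x' hx' hxx
    have h1 := cc_pointwise (F := fun k x => f (ψ k x)) (hcc x hx f hf)
    have h2 := cc_pointwise (F := fun k x => f (ψ k x)) (hcc x' hx' f hf)
    have h3 : (fun k => f (ψ k x)) = fun k => f (ψ k x') := by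
      funext k
      exact frel_aut (ψ := ψ k) hxx f hf
    rw [h3] at h1
    exact tendsto_nhds_unique h1 h2
  have hkey : ∀ f ∈ HolF E E' X Y, ∀ z ∈ X₁, f z ∈ f '' L := by
    intro f hf
    have hfm : ContMDiff 𝓘(ℂ, E) 𝓘(ℂ, E') ω f := hf
    have hfL : IsCompact (f '' L) := hLc.image hfm.continuous
    have hcch : ∀ z ∈ X₁, ∃ w ∈ f '' L,
        Tendsto (fun p : ℕ × X => ((fun x => f (e x)) ∘ (ψ p.1).symm) p.2)
        ((𝒰 : Filter ℕ) ×ˢ 𝓝 z) (𝓝 w) := by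
      intro z hz
      refine dcc_of_hdisc (E := E) (ψ := fun k => (fun x => f (e x)) ∘ (ψ k).symm) hfL
        (hH _ hfL) hX₁o hz ?_
      filter_upwards [hk₁] with k hk
      exact ⟨(hfe f hf).comp (dHol_self_of_mdiff (mdiff_diffeo2 (ψ k).symm) _) (hsymm k hk),
        fun y' hy' => ⟨_, heL _ (hsymm k hk hy'), rfl⟩⟩
    have hneY : Nonempty Y := ⟨f x₀⟩
    choose! h hhL hhcc using hcch
    have hhd : DHol E E' X₁ h := by
      refine dHol_limit (l := (𝒰 : Filter ℕ)) (ψ := fun k => (fun x => f (e x)) ∘ (ψ k).symm)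
        hX₁o ?_ hhcc
      intro y hy
      refine ⟨X₁, hX₁o.mem_nhds hy, ?_⟩
      filter_upwards [hk₁] with k hk
      exact (hfe f hf).comp (dHol_self_of_mdiff (mdiff_diffeo2 (ψ k).symm) _) (hsymm k hk)
    have hfd : DHol E E' X₁ f :=
      dHol_of_mdiffOn (hfm.mdifferentiable (by simp)).mdifferentiableOn
    have hid : ∀ᶠ z in 𝓝 (e xj), h z = f z := by
      filter_upwards [hCn, hX₁o.mem_nhds mem_connectedComponent] with z hzC hz1
      -- choose the related points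
      have h1 : ∀ᶠ k in (𝒰 : Filter ℕ), ∃ v ∈ V, FRel (HolF E E' X Y) z (ψ k v) := by
        filter_upwards [hC] with k hk
        exact hk z hzC
      have hex : ∀ k, (∃ v ∈ V, FRel (HolF E E' X Y) z (ψ k v)) →
          ∃ v ∈ V, FRel (HolF E E' X Y) z (ψ k v) := fun k h => h
      have : Nonempty X := ⟨x₀⟩
      choose! v hvV hvR using hex
      obtain ⟨v', hv'V, hv'⟩ := exists_ultra_lim 𝒰 (F := v) hVc (by
        filter_upwards [h1] with k hk
        exact hvV k hk)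
      have hv'X : v' ∈ X₀ := hVX hv'V
      -- f z = f (e v')
      have e1 : f z = f (e v') := by
        have h2 : Tendsto (fun k => f (ψ k (v k))) 𝒰 (𝓝 (f (e v'))) :=
          cc_comp (F := fun k x => f (ψ k x)) (hcc v' hv'X f hf) hv'
        have h3 : Tendsto (fun k => f (ψ k (v k))) 𝒰 (𝓝 (f z)) := by
          refine tendsto_const_nhds.congr' ?_
          filter_upwards [h1] with k hk
          exact hvR k hk f hf
        exact tendsto_nhds_unique h3 h2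
      -- h z = f (e v')
      have e2 : h z = f (e v') := by
        have h2 : Tendsto (fun k => ((fun x => f (e x)) ∘ (ψ k).symm) z) 𝒰 (𝓝 (h z)) :=
          cc_pointwise (F := fun k => (fun x => f (e x)) ∘ (ψ k).symm) (hhcc z hz1)
        have h3 : Tendsto (fun k => f (e (v k))) 𝒰 (𝓝 (f (e v'))) :=
          (hfec f hf v' hv'X).tendsto.comp hv'
        have h4 : Tendsto (fun k => ((fun x => f (e x)) ∘ (ψ k).symm) z) 𝒰
            (𝓝 (f (e v'))) := by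
          refine h3.congr' ?_
          filter_upwards [h1, hk₁] with k hk hk1
          have h5 : FRel (HolF E E' X Y) ((ψ k).symm z) (v k) := by
            have h6 := frel_aut (ψ := (ψ k).symm) (hvR k hk)
            rw [(ψ k).symm_apply_apply] at h6
            exact h6
          exact (hrel_e f hf _ (hsymm k hk1 hz1) _ (hVX (hvV k hk)) h5).symm
        exact tendsto_nhds_unique h2 h4
      rw [e1, e2]
    have hall := dHol_eq hX₁o isPreconnected_connectedComponent hhd hfd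
      mem_connectedComponent hid
    intro z hz
    rw [← hall z hz]
    exact hhL z hz
  have hX₁c : IsCompact X₁ :=
    (hHull L hLc).of_isClosed_subset isClosed_connectedComponent fun z hz f hf => hkey f hf z hz
  obtain ⟨k, hk⟩ := hk₁.exists
  refine hnc ((hX₁c.image (ψ k).symm.continuous).of_isClosed_subset
    isClosed_connectedComponent ?_)
  intro x hx
  refine ⟨ψ k x, ?_, (ψ k).symm_apply_apply x⟩
  have h1 : X₁ = connectedComponent (ψ k xj) := connectedComponent_eq hk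
  rw [h1]
  have h3 : X₀ = connectedComponent xj := connectedComponent_eq hxjX
  have hx' : x ∈ connectedComponent xj := by rw [← h3]; exact hx
  exact (ψ k).continuous.mapsTo_connectedComponent xj hx'

theorem lemma_two2 [T2Space X] [SecondCountableTopology X]
    (hH : ∀ L : Set Y, IsCompact L → HDisc E' L)
    {u : X → ℝ} (hu : Continuous u)
    (huc : ∀ r, IsCompact {x | u x ≤ r})
    (hus : ∀ x x', FRel (HolF E E' X Y) x x' → u x = u x') {x₀ : X}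
    {s m : ℕ} {T : ℕ → Cert E E' X Y s m}
    (hmax : ∀ x ∈ connectedComponent x₀, ¬ HasRank E E' Y (m + 1) x) {i j : ℕ} (hji : j ≤ i)
    {a b : ℝ} (hab : a < b) (hTb : ∀ l ≤ j, (T l).x ∈ Wset u x₀ b) :
    ∃ D : Set X, D.Finite ∧ (∀ x ∈ D, (i : ℝ) < u x ∧ u x < i + 1) ∧
      ∀ ψ ∈ Cls2 u x₀ T j, MapsTo ψ (Wset u x₀ b) {x | u x < i + 2} →
        (∀ x ∈ D, x ∉ ψ '' {x | u x < b}) → MapsTo ψ (Wset u x₀ a) {x | u x < i + 1} := by
  by_contra hcon
  push Not at hcon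
  have hlc : LocallyConnectedSpace X := ChartedSpace.locallyConnectedSpace E X
  have hne : Nonempty X := ⟨x₀⟩
  set d : ℕ → X := TopologicalSpace.denseSeq X with hd
  have hdd : DenseRange d := TopologicalSpace.denseRange_denseSeq X
  set D : ℕ → Set X := fun k => {x | (∃ m ≤ k, d m = x) ∧ (i : ℝ) < u x ∧ u x < i + 1} with hD
  have hDf : ∀ k, (D k).Finite := by
    intro k
    refine ((Set.finite_Iic k).image d).subset ?_
    rintro x ⟨⟨m, hm, hmx⟩, -⟩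
    exact ⟨m, hm, hmx⟩
  have hex : ∀ k, ∃ ψ ∈ Cls2 u x₀ T j, MapsTo ψ (Wset u x₀ b) {x | u x < i + 2} ∧
      (∀ x ∈ D k, x ∉ ψ '' {x | u x < b}) ∧ ¬ MapsTo ψ (Wset u x₀ a) {x | u x < i + 1} :=
    fun k => hcon (D k) (hDf k) (fun x hx => hx.2)
  choose ψ hψc hψb hψD hψa using hex
  set L : Set X := {x | u x ≤ i + 2} with hL
  have hLc : IsCompact L := huc _
  let 𝒰 : Ultrafilter ℕ := hyperfilter ℕ
  have h𝒰 : (𝒰 : Filter ℕ) ≤ atTop := by
    rw [← Nat.cofinite_eq_atTop]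
    exact hyperfilter_le_cofinite
  set W : Set X := Wset u x₀ b with hW
  have hWo : IsOpen W := wset_open hu x₀ b
  have hWL : ∀ k, MapsTo (ψ k) W L := fun k x hx =>
    le_of_lt (show u (ψ k x) < i + 2 from hψb k hx)
  have hlim : ∀ x ∈ W, ∃ y ∈ L, Tendsto (fun k => ψ k x) 𝒰 (𝓝 y) := by
    intro x hx
    exact exists_ultra_lim 𝒰 hLc (Eventually.of_forall fun k => hWL k hx)
  choose! e heL he using hlim
  have hcc : ∀ x ∈ W, ∀ f ∈ HolF E E' X Y,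
      Tendsto (fun p : ℕ × X => f (ψ p.1 p.2)) ((𝒰 : Filter ℕ) ×ˢ 𝓝 x) (𝓝 (f (e x))) :=
    fun x hx f hf => hol_cc hH hLc hWo (Eventually.of_forall hWL) hx (he x hx) hf
  have huccv : ∀ x ∈ W,
      Tendsto (fun p : ℕ × X => u (ψ p.1 p.2)) ((𝒰 : Filter ℕ) ×ˢ 𝓝 x) (𝓝 (u (e x))) :=
    fun x hx => sat_cc hLc hWo (Eventually.of_forall hWL) hx (hcc x hx) hu hus
  have hxa : u x₀ < a := by
    have := hψa 0
    rw [MapsTo] at this
    push Not at this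
    obtain ⟨w, hw, -⟩ := this
    exact wset_nonempty ⟨w, hw⟩
  have hp : ∀ k, ∃ p ∈ Wset u x₀ a, u (ψ k p) = i + 1 / 2 := by
    intro k
    have h1 := hψa k
    rw [MapsTo] at h1
    push Not at h1
    obtain ⟨w, hw, hw2⟩ := h1
    have hw3 : (i : ℝ) + 1 ≤ u (ψ k w) := by
      by_contra hlt
      push Not at hlt
      exact hw2 hlt
    have h2 : u (ψ k x₀) ≤ j := (hψc k).1
    have h2' : (j : ℝ) ≤ i := by exact_mod_cast hji
    have h3 := (wset_preconnected u x₀ a).intermediate_value (wset_mem hxa) hw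
      (f := fun x => u (ψ k x)) ((hu.comp (ψ k).continuous).continuousOn)
    obtain ⟨p, hp1, hp2⟩ := h3 (show (i : ℝ) + 1 / 2 ∈ Icc (u (ψ k x₀)) (u (ψ k w)) from
      ⟨by linarith, by linarith⟩)
    exact ⟨p, hp1, hp2⟩
  choose p hpa hpu using hp
  have hclc : IsCompact (closure (Wset u x₀ a)) := by
    refine (huc a).of_isClosed_subset isClosed_closure ?_
    exact closure_minimal (fun x hx => le_of_lt (wset_lt hx)) (isClosed_le hu continuous_const)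
  obtain ⟨p', hp'1, hp'2⟩ := exists_ultra_lim 𝒰 (F := p) hclc
    (Eventually.of_forall fun k => subset_closure (hpa k))
  have hp'W : p' ∈ W := wset_closure hu x₀ hab hp'1
  have hup' : u (e p') = i + 1 / 2 := by
    have h1 : Tendsto (fun k => u (ψ k (p k))) 𝒰 (𝓝 (u (e p'))) :=
      cc_comp (F := fun k x => u (ψ k x)) (huccv p' hp'W) hp'2
    have h3 : (fun k => u (ψ k (p k))) = fun _ => (i : ℝ) + 1 / 2 := by
      funext k
      exact hpu k
    rw [h3] at h1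
    exact (tendsto_nhds_unique h1 tendsto_const_nhds)
  have hec : ContinuousAt (fun x => u (e x)) p' := by
    refine continuousAt_of_cc (F := fun k x => u (ψ k x)) (l := (𝒰 : Filter ℕ)) ?_
      (huccv p' hp'W)
    filter_upwards [hWo.mem_nhds hp'W] with x' hx'
    exact cc_pointwise (F := fun k x => u (ψ k x)) (huccv x' hx')
  obtain ⟨l, hl, hsat⟩ := cls2_ultra (𝒰 := 𝒰) hψc
  set xl := (T l).x with hxl
  have hxlW : xl ∈ W := hTb l hl
  have hnd₀ := cert_nd (t := T l) (𝒰 := 𝒰) (ψ := fun k => (ψ k : X → X))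
    (fun k => (ψ k).contMDiff) (e := e) (fun l' => hcc xl hxlW _ ((T l).hg l')) hsat
  have hdense := ndq_dense (𝒰 := 𝒰) (ψ := fun k => (ψ k : X → X))
    (fun k => (ψ k).contMDiff) (T l).hg hWo (wset_preconnected u x₀ b)
    (fun x hx l' => hcc x hx _ ((T l).hg l')) hxlW hnd₀
  have hnear : {x | (i : ℝ) < u (e x) ∧ u (e x) < i + 1} ∈ 𝓝 p' := by
    filter_upwards [hec.eventually_const_lt (show (i : ℝ) < u (e p') by rw [hup']; linarith),
      hec.eventually_lt_const (show u (e p') < (i : ℝ) + 1 by rw [hup']; linarith)] with x h1 h2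
    exact ⟨h1, h2⟩
  obtain ⟨q, hq1, hqW, hnd⟩ := mem_closure_iff_nhds.1 (hdense hp'W) _ hnear
  have hWX₀ : W ⊆ connectedComponent x₀ :=
    (wset_preconnected u x₀ b).subset_connectedComponent (wset_mem (hxa.trans hab))
  have hmaxk : ∀ k, ∀ᶠ x in 𝓝 q, ¬ HasRank E E' Y (m + 1) (ψ k x) := by
    intro k
    filter_upwards [hWo.mem_nhds hqW] with x hx hr
    exact hmax x (hWX₀ hx) (hasRank_comp (ψ k).contMDiff (ψ k).symm.contMDiff
      (fun x => (ψ k).symm_apply_apply x) (fun x => (ψ k).apply_symm_apply x) hr)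
  obtain ⟨O, hOn, hO⟩ := robust_rel (𝒰 := 𝒰) (ψ := fun k => (ψ k : X → X))
    (θ := fun k => ((ψ k).symm : X → X))
    (fun k => (ψ k).contMDiff) (fun k => (ψ k).symm.contMDiff)
    (fun k x => (ψ k).symm_apply_apply x) (fun k x => (ψ k).apply_symm_apply x)
    (T l).hg (fun l' => hcc q hqW _ ((T l).hg l')) (he q hqW) hmaxk hnd (hWo.mem_nhds hqW)
  have hshell : IsOpen {y : X | (i : ℝ) < u y ∧ u y < i + 1} :=
    (isOpen_lt continuous_const hu).inter (isOpen_lt hu continuous_const)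
  obtain ⟨O', hO'sub, hO'o, hsO'⟩ := _root_.mem_nhds_iff.1 (inter_mem hOn
    (hshell.mem_nhds hq1))
  obtain ⟨n, hn⟩ := hdd.exists_mem_open hO'o ⟨_, hsO'⟩
  have h1 : ∀ᶠ k in (𝒰 : Filter ℕ), n ≤ k := h𝒰 (eventually_ge_atTop n)
  obtain ⟨k, hk1, hk2⟩ := (h1.and hO).exists
  obtain ⟨v, hvW, hvR⟩ := hk2 (d n) (hO'sub hn).1
  have h2 := frel_aut (ψ := (ψ k).symm) hvR
  rw [(ψ k).symm_apply_apply] at h2
  have h3 : u ((ψ k).symm (d n)) < b := by
    rw [hus _ _ h2]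
    exact wset_lt hvW
  exact hψD k (d n) ⟨⟨n, hk1, rfl⟩, (hO'sub hn).2⟩ ⟨(ψ k).symm (d n), h3,
    (ψ k).apply_symm_apply _⟩

end Pool.Agent.NonTame
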