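import Pool.Agent.Lib_MP_884f32_an.Disc

/-! A Brody type reparametrisation: if there are no nonconstant entire curves with relatively
compact image then holomorphic discs with values in a compact set are equicontinuous. -/

open Filter Metric Set Topology
open scoped Manifold ContDiff

set_option linter.unusedSectionVars false

namespace Pool.Agent.NonTame

theorem zoom {X : Type*} [MetricSpace X] {f : ℂ → X} {R ε M r : ℝ} (hR : 0 < R)
    (hf : ContinuousOn f (closedBall 0 R)) (hε : 0 < ε) (hM : 1 ≤ M) (hr : 0 < r)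
    (hMr : 4 * M * r ≤ R) {w : ℂ} (hw : ‖w‖ ≤ r) (hwf : ε < dist (f w) (f 0)) :
    ∃ (z : ℂ) (s : ℝ), 0 < s ∧ ‖z‖ + 2 * M * s < R ∧
      (∃ w, ‖w - z‖ ≤ s ∧ ε < dist (f w) (f z)) ∧
      ∀ z' w', ‖z' - z‖ ≤ M * s → ‖w' - z'‖ ≤ s / 4 → dist (f w') (f z') ≤ ε := by
  have huc : UniformContinuousOn f (closedBall 0 R) :=
    (isCompact_closedBall (0 : ℂ) R).uniformContinuousOn_of_continuous hf
  rw [Metric.uniformContinuousOn_iff] at huc
  obtain ⟨δ, hδ, huc⟩ := huc ε hε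
  let bad : ℂ → ℝ → Prop := fun z s => 0 < s ∧ ‖z‖ ≤ R ∧
    ∃ w, ‖w‖ ≤ R ∧ ‖w - z‖ ≤ s ∧ ε < dist (f w) (f z)
  have hbadδ : ∀ z s, bad z s → δ ≤ s := by
    rintro z s ⟨hs, hz, w, hw, hwz, hd⟩
    by_contra hlt
    push Not at hlt
    have := huc w (by rwa [mem_closedBall_zero_iff]) z (by rwa [mem_closedBall_zero_iff])
      (by rw [dist_eq_norm]; linarith)
    linarith
  let S : Set ℝ := {x | ∃ z s, bad z s ∧ x = (R - ‖z‖) / s}
  have hSbdd : BddAbove S := by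
    refine ⟨R / δ, ?_⟩
    rintro x ⟨z, s, hb, rfl⟩
    have h1 := hbadδ z s hb
    have h2 : 0 ≤ ‖z‖ := norm_nonneg z
    rw [div_le_div_iff₀ hb.1 hδ]
    nlinarith [hb.2.1]
  have hrR : r ≤ R := by nlinarith
  have hbad0 : bad 0 r := by
    refine ⟨hr, by simpa using hR.le, w, hw.trans hrR, by simpa using hw, hwf⟩
  have hmem : R / r ∈ S := ⟨0, r, hbad0, by simp⟩
  have hle : R / r ≤ sSup S := le_csSup hSbdd hmem
  have hRr : 0 < R / r := by positivity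
  obtain ⟨x, ⟨z, s, hb, rfl⟩, hx⟩ := exists_lt_of_lt_csSup (⟨_, hmem⟩ : S.Nonempty)
    (show sSup S / 2 < sSup S by linarith)
  have hs := hb.1
  have h4 : 4 * M ≤ R / r := by rw [le_div_iff₀ hr]; exact hMr
  have h1 : 2 * M < (R - ‖z‖) / s := by linarith
  have h2 : 2 * M * s < R - ‖z‖ := by rwa [lt_div_iff₀ hs] at h1
  refine ⟨z, s, hs, by linarith, ?_, ?_⟩
  · obtain ⟨w, -, hwz, hd⟩ := hb.2.2
    exact ⟨w, hwz, hd⟩
  · intro z' w' hz' hw'
    by_contra hcon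
    push Not at hcon
    have hz'n : ‖z'‖ ≤ ‖z‖ + M * s := by
      calc ‖z'‖ = ‖z + (z' - z)‖ := by ring_nf
        _ ≤ ‖z‖ + ‖z' - z‖ := norm_add_le _ _
        _ ≤ _ := by linarith
    have hw'n : ‖w'‖ ≤ ‖z'‖ + s / 4 := by
      calc ‖w'‖ = ‖z' + (w' - z')‖ := by ring_nf
        _ ≤ ‖z'‖ + ‖w' - z'‖ := norm_add_le _ _
        _ ≤ _ := by linarith
    have hMs : s ≤ M * s := by nlinarith
    have hbad' : bad z' (s / 4) := by
      refine ⟨by positivity, by linarith, w', by linarith, hw', hcon⟩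
    have h5 : (R - ‖z'‖) / (s / 4) ≤ sSup S := le_csSup hSbdd ⟨z', s / 4, hbad', rfl⟩
    have h6 : (R - ‖z'‖) / (s / 4) < 2 * ((R - ‖z‖) / s) := by linarith
    have h7 : (R - ‖z'‖) / (s / 4) = 4 * (R - ‖z'‖) / s := by field_simp
    have h8 : 2 * ((R - ‖z‖) / s) = 2 * (R - ‖z‖) / s := by ring
    rw [h7, h8, div_lt_div_iff_of_pos_right hs] at h6
    linarith

variable {E : Type*} [NormedAddCommGroup E] [NormedSpace ℂ E] [FiniteDimensional ℂ E]
variable {X : Type*} [MetricSpace X] [ChartedSpace E X] [IsManifold 𝓘(ℂ, E) ω X]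

theorem exists_rescaled {L : Set X} {f : ℂ → X}
    (hf : MDifferentiableOn 𝓘(ℂ, ℂ) 𝓘(ℂ, E) f (ball 0 1)) (hL : MapsTo f (ball 0 1) L)
    {ε M r : ℝ} (hε : 0 < ε) (hM : 1 ≤ M) (hr : 0 < r) (hMr : 8 * M * r ≤ 1) {w : ℂ}
    (hw : ‖w‖ ≤ r) (hwf : ε < dist (f w) (f 0)) :
    ∃ g : ℂ → X, MDifferentiableOn 𝓘(ℂ, ℂ) 𝓘(ℂ, E) g (ball 0 M) ∧ MapsTo g (ball 0 M) L ∧
      (∃ ζ ∈ closedBall (0 : ℂ) 1, ε < dist (g ζ) (g 0)) ∧
      ∀ ζ ∈ ball (0 : ℂ) M, ∀ ζ' ∈ ball ζ (1 / 4), dist (g ζ') (g ζ) ≤ ε := by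
  obtain ⟨z, s, hs, hzs, ⟨w₁, hw₁, hd₁⟩, hgood⟩ := zoom (R := 1 / 2) (by norm_num)
    (hf.continuousOn.mono (closedBall_subset_ball (by norm_num))) hε hM hr (by linarith) hw hwf
  have hball : ∀ ζ ∈ ball (0 : ℂ) M, z + s * ζ ∈ ball (0 : ℂ) 1 := by
    intro ζ hζ
    rw [mem_ball_zero_iff] at *
    have h1 : ‖(s : ℂ) * ζ‖ ≤ M * s := by
      rw [norm_mul, Complex.norm_real, Real.norm_eq_abs, abs_of_pos hs]
      nlinarith
    have h2 := norm_add_le z ((s : ℂ) * ζ)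
    have h3 : 0 < M * s := by positivity
    linarith
  refine ⟨fun ζ => f (z + s * ζ), ?_, ?_, ?_, ?_⟩
  · refine MDifferentiableOn.comp (f := fun ζ : ℂ => z + s * ζ) hf ?_ hball
    rw [mdifferentiableOn_iff_differentiableOn]
    exact Differentiable.differentiableOn (by fun_prop)
  · intro ζ hζ
    exact hL (hball ζ hζ)
  · refine ⟨(w₁ - z) / s, ?_, ?_⟩
    · rw [mem_closedBall_zero_iff, norm_div, Complex.norm_real, Real.norm_eq_abs, abs_of_pos hs,
        div_le_one hs]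
      exact hw₁
    · have hs0 : (s : ℂ) ≠ 0 := by exact_mod_cast hs.ne'
      have h1 : z + s * ((w₁ - z) / s) = w₁ := by field_simp; ring
      simp only [h1, mul_zero, add_zero]
      exact hd₁
  · intro ζ hζ ζ' hζ'
    rw [mem_ball_zero_iff] at hζ
    rw [mem_ball, dist_eq_norm] at hζ'
    refine hgood _ _ ?_ ?_
    · rw [add_sub_cancel_left, norm_mul, Complex.norm_real, Real.norm_eq_abs, abs_of_pos hs]
      nlinarith
    · have : z + s * ζ' - (z + s * ζ) = s * (ζ' - ζ) := by ring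
      rw [this, norm_mul, Complex.norm_real, Real.norm_eq_abs, abs_of_pos hs]
      nlinarith

/-- there is no nonconstant entire curve with relatively compact image -/
def NoBoundedCurve (E : Type*) [NormedAddCommGroup E] [NormedSpace ℂ E]
    (X : Type*) [TopologicalSpace X] [ChartedSpace E X] : Prop :=
  ∀ f : ℂ → X, MDifferentiable 𝓘(ℂ, ℂ) 𝓘(ℂ, E) f →
    (∃ K : Set X, IsCompact K ∧ ∀ t, f t ∈ K) → ∀ s t, f s = f t

theorem hdisc_of_noBounded (hX : NoBoundedCurve E X) {L : Set X} (hL : IsCompact L) :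
    HDisc E L := by
  by_contra hcon
  unfold HDisc at hcon
  push Not at hcon
  obtain ⟨ε, hε, hcon⟩ := hcon
  obtain ⟨δ, hδ, hδL⟩ := lebesgue_number_lemma_of_metric hL
    (c := fun z : X => (chartAt E z).source) (fun z => (chartAt E z).open_source)
    (fun y _ => mem_iUnion.2 ⟨y, mem_chart_source E y⟩)
  set ε₁ : ℝ := min (ε / 2) (δ / 4) with hε₁
  have hε₁pos : 0 < ε₁ := by positivity
  have hex : ∀ n : ℕ, ∃ g : ℂ → X, MDifferentiableOn 𝓘(ℂ, ℂ) 𝓘(ℂ, E) g (ball 0 (n + 1)) ∧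
      MapsTo g (ball 0 (n + 1)) L ∧
      (∃ ζ ∈ closedBall (0 : ℂ) 1, ε₁ < dist (g ζ) (g 0)) ∧
      ∀ ζ ∈ ball (0 : ℂ) (n + 1), ∀ ζ' ∈ ball ζ (1 / 4), dist (g ζ') (g ζ) ≤ ε₁ := by
    intro n
    obtain ⟨f, hf, hfL, t, ht, htε⟩ := hcon (1 / (8 * ((n : ℝ) + 1))) (by positivity)
    rw [mem_ball_zero_iff] at ht
    refine exists_rescaled hf hfL hε₁pos (by linarith [(Nat.cast_nonneg n : (0 : ℝ) ≤ n)])
      (r := 1 / (8 * ((n : ℝ) + 1))) (by positivity) ?_ ht.le ?_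
    · rw [mul_one_div, div_self (by positivity)]
    · have : ε₁ ≤ ε / 2 := min_le_left _ _
      linarith
  choose g hgd hgL hgζ hgε using hex
  choose ζs hζs hζd using hgζ
  let 𝒰 : Ultrafilter ℕ := hyperfilter ℕ
  have h𝒰 : (𝒰 : Filter ℕ) ≤ atTop := by
    rw [← Nat.cofinite_eq_atTop]
    exact hyperfilter_le_cofinite
  have hbig : ∀ t : ℂ, ∀ᶠ k : ℕ in (𝒰 : Filter ℕ), ‖t‖ + 1 < (k : ℝ) + 1 := by
    intro t
    refine h𝒰 ?_
    have h1 : ∀ᶠ k : ℕ in atTop, ‖t‖ < (k : ℝ) :=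
      tendsto_natCast_atTop_atTop.eventually_gt_atTop ‖t‖
    filter_upwards [h1] with k hk
    linarith
  have hlim : ∀ t : ℂ, ∃ y ∈ L, Tendsto (fun k => g k t) 𝒰 (𝓝 y) := by
    intro t
    refine exists_ultra_lim 𝒰 hL ?_
    filter_upwards [hbig t] with k hk
    refine hgL k ?_
    rw [mem_ball_zero_iff]
    linarith
  choose G hGL hG using hlim
  have hballs : ∀ t : ℂ, ∀ᶠ k : ℕ in (𝒰 : Filter ℕ), ball t (1 / 4) ⊆ ball 0 ((k : ℝ) + 1) := by
    intro t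
    filter_upwards [hbig t] with k hk
    intro t' ht'
    rw [mem_ball_zero_iff]
    rw [mem_ball, dist_eq_norm] at ht'
    have : ‖t'‖ ≤ ‖t' - t‖ + ‖t‖ := by
      calc ‖t'‖ = ‖(t' - t) + t‖ := by ring_nf
        _ ≤ _ := norm_add_le _ _
    linarith
  have hcc : ∀ t : ℂ, Tendsto (fun p : ℕ × ℂ => g p.1 p.2) ((𝒰 : Filter ℕ) ×ˢ 𝓝 t)
      (𝓝 (G t)) := by
    intro t
    obtain ⟨z, hz⟩ := hδL (G t) (hGL t)
    set c := chartAt E z with hc
    set K : Set X := L ∩ closedBall (G t) (δ / 2) with hK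
    have hKc : IsCompact K := hL.inter_right isClosed_closedBall
    have hKs : K ⊆ c.source := fun y hy => hz (closedBall_subset_ball (by linarith) hy.2)
    have hcK : IsCompact (c '' K) := hKc.image_of_continuousOn (c.continuousOn.mono hKs)
    obtain ⟨C, hC⟩ := hcK.isBounded.exists_norm_le
    have hGK : G t ∈ K := ⟨hGL t, mem_closedBall_self (by positivity)⟩
    have hC0 : 0 ≤ C := (norm_nonneg _).trans (hC _ (mem_image_of_mem c hGK))
    have hev : ∀ᶠ k in (𝒰 : Filter ℕ), MapsTo (g k) (ball t (1 / 4)) K ∧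
        MDifferentiableOn 𝓘(ℂ, ℂ) 𝓘(ℂ, E) (g k) (ball t (1 / 4)) := by
      have h1 : ∀ᶠ k in (𝒰 : Filter ℕ), dist (g k t) (G t) < δ / 4 :=
        Metric.tendsto_nhds.1 (hG t) _ (by positivity)
      filter_upwards [hballs t, h1] with k hk hk1
      refine ⟨fun t' ht' => ⟨hgL k (hk ht'), ?_⟩, (hgd k).mono hk⟩
      rw [mem_closedBall]
      have h2 := hgε k t (hk (mem_ball_self (by norm_num))) t' ht'
      have h3 : ε₁ ≤ δ / 4 := min_le_right _ _
      have h4 := dist_triangle (g k t') (g k t) (G t)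
      linarith
    have hcch : Tendsto (fun p : ℕ × ℂ => c (g p.1 p.2)) ((𝒰 : Filter ℕ) ×ˢ 𝓝 t)
        (𝓝 (c (G t))) := by
      refine cc_of_equi (F := fun k t' => c (g k t'))
        (((c.continuousAt (hKs hGK)).tendsto).comp (hG t)) ?_
      intro ε' hε'
      have hδ' : 0 < min (1 / 4) (ε' / (2 * C / (1 / 4) + 1)) := by positivity
      have h2 : ∀ᶠ p in ((𝒰 : Filter ℕ) ×ˢ 𝓝 t),
          p.2 ∈ ball t (min (1 / 4) (ε' / (2 * C / (1 / 4) + 1))) :=
        Filter.Eventually.prod_inr (ball_mem_nhds t hδ') _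
      filter_upwards [hev.prod_inl (𝓝 t), h2] with p hp1 hp2
      have hp3 : p.2 ∈ ball t (1 / 4) := ball_subset_ball (min_le_left _ _) hp2
      have hd1 : DifferentiableOn ℂ (fun t' => c (g p.1 t')) (ball t (1 / 4)) :=
        curve_chart hp1.2 (fun t' ht' => hKs (hp1.1 ht'))
      have hm : MapsTo (fun t' => c (g p.1 t')) (ball t (1 / 4))
          (closedBall (c (g p.1 t)) (2 * C)) := by
        intro s hs'
        rw [mem_closedBall, dist_eq_norm]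
        have h5 := hC _ (mem_image_of_mem c (hp1.1 hs'))
        have h6 := hC _ (mem_image_of_mem c (hp1.1 (mem_ball_self (by norm_num : (0:ℝ) < 1/4))))
        calc ‖c (g p.1 s) - c (g p.1 t)‖ ≤ ‖c (g p.1 s)‖ + ‖c (g p.1 t)‖ := norm_sub_le _ _
          _ ≤ 2 * C := by linarith
      have h4 := Complex.dist_le_div_mul_dist_of_mapsTo_ball hd1 hm hp3
      have h5 : dist p.2 t < ε' / (2 * C / (1 / 4) + 1) := lt_of_lt_of_le hp2 (min_le_right _ _)
      rw [lt_div_iff₀ (by positivity)] at h5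
      have h6 : 0 ≤ dist p.2 t := dist_nonneg
      nlinarith
    have h7 : ContinuousAt c.symm (c (G t)) := c.continuousAt_symm (c.map_source (hKs hGK))
    have h8 := h7.tendsto.comp hcch
    rw [c.left_inv (hKs hGK)] at h8
    refine h8.congr' ?_
    have h9 : ∀ᶠ p in ((𝒰 : Filter ℕ) ×ˢ 𝓝 t), p.2 ∈ ball t (1 / 4) :=
      Filter.Eventually.prod_inr (ball_mem_nhds t (by norm_num)) _
    filter_upwards [hev.prod_inl (𝓝 t), h9] with p hp1 hp2
    exact c.left_inv (hKs (hp1.1 hp2))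
  have hGd : MDifferentiable 𝓘(ℂ, ℂ) 𝓘(ℂ, E) G := by
    rw [← mdifferentiableOn_univ]
    refine curve_limit (l := (𝒰 : Filter ℕ)) (f := g) isOpen_univ ?_ (fun t _ => hcc t)
    intro t _
    refine ⟨1 / 4, by norm_num, ?_⟩
    filter_upwards [hballs t] with k hk
    exact (hgd k).mono hk
  have hconst := hX G hGd ⟨L, hL, hGL⟩
  obtain ⟨ζ, -, hζ⟩ := exists_ultra_lim 𝒰 (F := ζs) (isCompact_closedBall (0 : ℂ) 1)
    (Eventually.of_forall hζs)
  have h1 : Tendsto (fun k => g k (ζs k)) 𝒰 (𝓝 (G ζ)) := cc_comp (F := g) (hcc ζ) hζ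
  have h2 : Tendsto (fun k => dist (g k (ζs k)) (g k 0)) 𝒰 (𝓝 (dist (G ζ) (G 0))) :=
    h1.dist (hG 0)
  have h3 : ε₁ ≤ dist (G ζ) (G 0) :=
    ge_of_tendsto h2 (Eventually.of_forall fun k => (hζd k).le)
  rw [hconst ζ 0, dist_self] at h3
  linarith

end Pool.Agent.NonTame
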