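import Pool.Agent.Lib_MP_884f32_an.Local

/-! Rank conditions on linear maps, density of points of maximal rank, robust local inverses on
slices, and functions which are locally constant on the fibres of a submersion. -/

open Filter Metric Set Topology
open scoped NNReal

set_option linter.unusedSectionVars false

namespace Pool.Agent.NonTame

theorem line_convex {E : Type*} [NormedAddCommGroup E] [NormedSpace ℂ E] {B : Set E}
    (hB : Convex ℝ B) (p κ : E) : Convex ℝ {t : ℂ | p + t • κ ∈ B} := by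
  intro t₁ ht₁ t₂ ht₂ α β hα hβ hαβ
  have h1 := hB ht₁ ht₂ hα hβ hαβ
  have h2 : α • (p + t₁ • κ) + β • (p + t₂ • κ) = p + (α • t₁ + β • t₂) • κ := by
    have : α • p + β • p = p := by rw [← add_smul, hαβ, one_smul]
    rw [smul_add, smul_add, add_smul, smul_assoc, smul_assoc]
    calc α • p + α • t₁ • κ + (β • p + β • t₂ • κ)
        = (α • p + β • p) + (α • t₁ • κ + β • t₂ • κ) := by abel
      _ = _ := by rw [this]
  rw [h2] at h1
  exact h1

section Linear

variable {E : Type*} [NormedAddCommGroup E] [NormedSpace ℂ E] [FiniteDimensional ℂ E]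
variable {F : Type*} [NormedAddCommGroup F] [NormedSpace ℂ F] [FiniteDimensional ℂ F]
variable {G : Type*} [NormedAddCommGroup G] [NormedSpace ℂ G] [FiniteDimensional ℂ G]
variable {H : Type*} [NormedAddCommGroup H] [NormedSpace ℂ H] [FiniteDimensional ℂ H]

/-- `D` has rank at least `m` -/
def Rk (m : ℕ) (D : E →L[ℂ] F) : Prop :=
  ∃ Λ : F →L[ℂ] (Fin m → ℂ), Function.Surjective (Λ ∘L D)

theorem exists_slice {m : ℕ} {A : E →L[ℂ] (Fin m → ℂ)} (hA : Function.Surjective A) :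
    ∃ ι : (Fin m → ℂ) →L[ℂ] E, A ∘L ι = ContinuousLinearMap.id ℂ (Fin m → ℂ) := by
  obtain ⟨g, hg⟩ := LinearMap.exists_rightInverse_of_surjective (A : E →ₗ[ℂ] (Fin m → ℂ))
    (LinearMap.range_eq_top.2 hA)
  refine ⟨LinearMap.toContinuousLinearMap g, ?_⟩
  ext1 v
  have := congrArg (fun l : (Fin m → ℂ) →ₗ[ℂ] (Fin m → ℂ) => l v) hg
  exact this

theorem det_id_clm {m : ℕ} : (ContinuousLinearMap.id ℂ (Fin m → ℂ)).det = 1 := by
  change LinearMap.det (LinearMap.id : (Fin m → ℂ) →ₗ[ℂ] (Fin m → ℂ)) = 1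
  exact LinearMap.det_id

theorem bijective_of_det_ne_zero {m : ℕ} {A : (Fin m → ℂ) →L[ℂ] (Fin m → ℂ)}
    (hA : A.det ≠ 0) : Function.Bijective A :=
  (A.toContinuousLinearEquivOfDetNeZero hA).bijective

theorem surjective_of_det {m : ℕ} {A : E →L[ℂ] (Fin m → ℂ)} {ι : (Fin m → ℂ) →L[ℂ] E}
    (h : (A ∘L ι).det ≠ 0) : Function.Surjective A := by
  intro y
  obtain ⟨x, hx⟩ := (bijective_of_det_ne_zero h).2 y
  exact ⟨ι x, hx⟩

theorem rk_zero (D : E →L[ℂ] F) : Rk 0 D :=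
  ⟨0, fun _ => ⟨0, Subsingleton.elim _ _⟩⟩

theorem rk_le {m : ℕ} {D : E →L[ℂ] F} (h : Rk m D) : m ≤ Module.finrank ℂ E := by
  obtain ⟨Λ, hΛ⟩ := h
  have h1 := LinearMap.finrank_le_finrank_of_surjective
    (f := ((Λ ∘L D : E →L[ℂ] (Fin m → ℂ)) : E →ₗ[ℂ] (Fin m → ℂ))) hΛ
  simpa using h1

theorem rk_of_comp {m : ℕ} {D : E →L[ℂ] F} {T : F →L[ℂ] G} {B : H →L[ℂ] E}
    (h : Rk m (T ∘L D ∘L B)) : Rk m D := by
  obtain ⟨Λ, hΛ⟩ := h
  refine ⟨Λ ∘L T, fun y => ?_⟩
  obtain ⟨x, hx⟩ := hΛ y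
  exact ⟨B x, hx⟩

theorem rk_comp {m : ℕ} {D : E →L[ℂ] F} {T : F →L[ℂ] G} {T' : G →L[ℂ] F} {B : H →L[ℂ] E}
    (hT : T' ∘L T = ContinuousLinearMap.id ℂ F) (hB : Function.Surjective B) (h : Rk m D) :
    Rk m (T ∘L D ∘L B) := by
  obtain ⟨Λ, hΛ⟩ := h
  refine ⟨Λ ∘L T', fun y => ?_⟩
  obtain ⟨x, hx⟩ := hΛ y
  obtain ⟨z, hz⟩ := hB x
  refine ⟨z, ?_⟩
  have h1 : T' (T (D (B z))) = D (B z) :=
    congrArg (fun l : F →L[ℂ] F => l (D (B z))) hT
  change Λ (T' (T (D (B z)))) = y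
  rw [h1, hz]
  exact hx

/-- adding one more functional -/
theorem rk_succ {m : ℕ} {D : E →L[ℂ] F} {P : F →L[ℂ] G} {Λ : G →L[ℂ] (Fin m → ℂ)}
    (hs : Function.Surjective (Λ ∘L P ∘L D)) {μ : F →L[ℂ] ℂ} {v : E} (hv : Λ (P (D v)) = 0)
    (hμ : μ (D v) ≠ 0) : Rk (m + 1) D := by
  refine ⟨ContinuousLinearMap.pi (Fin.cons μ fun i => (ContinuousLinearMap.proj i) ∘L Λ ∘L P),
    fun y => ?_⟩
  obtain ⟨e, he⟩ := hs (fun i => y i.succ)
  refine ⟨e + ((y 0 - μ (D e)) / μ (D v)) • v, ?_⟩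
  funext i
  refine Fin.cases ?_ (fun j => ?_) i
  · change μ (D (e + ((y 0 - μ (D e)) / μ (D v)) • v)) = y 0
    rw [map_add, map_smul, map_add, map_smul, smul_eq_mul, div_mul_cancel₀ _ hμ]
    ring
  · change (Λ (P (D (e + ((y 0 - μ (D e)) / μ (D v)) • v)))) j = y j.succ
    rw [map_add, map_smul, map_add, map_smul, map_add, map_smul, hv, smul_zero, add_zero]
    exact congrFun he j

end Linear

section Local

variable {E : Type*} [NormedAddCommGroup E] [NormedSpace ℂ E] [FiniteDimensional ℂ E]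
variable {F' : Type*} [NormedAddCommGroup F'] [NormedSpace ℂ F'] [FiniteDimensional ℂ F']
variable {E' : Type*} [NormedAddCommGroup E'] [NormedSpace ℂ E'] [FiniteDimensional ℂ E']

/-- limits of derivatives exist -/
theorem exists_lim_fderiv {ι : Type*} {𝒰 : Ultrafilter ι} {F : ι → E → F'} {a : E} {R M : ℝ}
    (hR : 0 < R)
    (hF : ∀ᶠ k in (𝒰 : Filter ι), AnalyticOnNhd ℂ (F k) (ball a R) ∧
      MapsTo (F k) (ball a R) (closedBall 0 M))
    {x : E} (hx : x ∈ ball a (R / 2)) :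
    ∃ D, Tendsto (fun k => fderiv ℂ (F k) x) 𝒰 (𝓝 D) := by
  have : ProperSpace (E →L[ℂ] F') := FiniteDimensional.proper ℂ _
  obtain ⟨D, -, hD⟩ := exists_ultra_lim 𝒰 (F := fun k => fderiv ℂ (F k) x)
    (isCompact_closedBall (0 : E →L[ℂ] F') (2 * M / (R / 2))) (by
      filter_upwards [hF] with k hk
      rw [mem_closedBall_zero_iff]
      exact norm_fderiv_le hR hk.1.differentiableOn hk.2 hx)
  exact ⟨D, hD⟩

theorem rk_dense {ι : Type*} {𝒰 : Ultrafilter ι} {F : ι → E → F'} {a : E} {R M : ℝ}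
    (hR : 0 < R)
    (hF : ∀ᶠ k in (𝒰 : Filter ι), AnalyticOnNhd ℂ (F k) (ball a R) ∧
      MapsTo (F k) (ball a R) (closedBall 0 M))
    {x : E} (hx : x ∈ ball a (R / 2)) {m : ℕ} {D : E →L[ℂ] F'} (hD : Rk m D)
    (hDx : Tendsto (fun k => fderiv ℂ (F k) x) 𝒰 (𝓝 D))
    {V : Set E} (hV : IsOpen V) (hVa : V ⊆ ball a (R / 2)) {s : E} (hs : s ∈ V) :
    ∃ x' ∈ V, ∃ D' : E →L[ℂ] F', Tendsto (fun k => fderiv ℂ (F k) x') 𝒰 (𝓝 D') ∧ Rk m D' := by
  obtain ⟨Λ, hΛ⟩ := hD
  obtain ⟨ι', hι'⟩ := exists_slice hΛ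
  have hcl : Continuous fun A : E →L[ℂ] F' => (Λ ∘L A ∘L ι').det := by
    refine ContinuousLinearMap.continuous_det.comp ?_
    exact continuous_const.clm_comp (continuous_id.clm_comp continuous_const)
  by_contra hcon
  push Not at hcon
  have hz : ∀ x' ∈ V, Tendsto (fun k => (Λ ∘L fderiv ℂ (F k) x' ∘L ι').det) 𝒰 (𝓝 0) := by
    intro x' hx'
    obtain ⟨D', hD'⟩ := exists_lim_fderiv hR hF (hVa hx')
    have h1 : (Λ ∘L D' ∘L ι').det = 0 := by
      by_contra hne
      exact hcon x' hx' D' hD' ⟨Λ, surjective_of_det (ι := ι') (by exact hne)⟩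
    have h2 := (hcl.tendsto D').comp hD'
    rw [h1] at h2
    exact h2
  have : ProperSpace (E →L[ℂ] F') := FiniteDimensional.proper ℂ _
  set C₁ : ℝ := 2 * M / (R / 2) with hC₁
  obtain ⟨C, hC⟩ := (isCompact_closedBall (0 : E →L[ℂ] F') C₁).exists_bound_of_continuousOn
    (f := fun A : E →L[ℂ] F' => (Λ ∘L A ∘L ι').det) hcl.continuousOn
  let T : Set ℂ := {t : ℂ | s + t • (x - s) ∈ ball a (R / 2)}
  have hcont : Continuous fun t : ℂ => s + t • (x - s) := by fun_prop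
  have hT : IsOpen T := isOpen_ball.preimage hcont
  have hTconv : Convex ℝ T := line_convex (convex_ball a (R / 2)) s (x - s)
  have hfin := vitali_zero (𝒰 := 𝒰) (T := T) hT hTconv.isPreconnected
    (h := fun k t => (Λ ∘L fderiv ℂ (F k) (s + t • (x - s)) ∘L ι').det) (C := C)
    (t₀ := 0) (t₁ := 1) ?_ ?_ ?_ ?_
  · simp only [one_smul, add_sub_cancel] at hfin
    have h1 := (hcl.tendsto D).comp hDx
    have h2 : (Λ ∘L D ∘L ι').det = 0 := tendsto_nhds_unique h1 hfin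
    have h3 : (Λ ∘L D ∘L ι').det = 1 := by
      have : Λ ∘L D ∘L ι' = ContinuousLinearMap.id ℂ (Fin m → ℂ) := hι'
      rw [this]
      exact det_id_clm
    rw [h3] at h2
    exact one_ne_zero h2
  · filter_upwards [hF] with k hk
    constructor
    · apply differentiableOn_det
      have : CompleteSpace F' := FiniteDimensional.complete ℂ F'
      have hdf : DifferentiableOn ℂ (fderiv ℂ (F k)) (ball a (R / 2)) :=
        (hk.1.fderiv.differentiableOn).mono (ball_subset_ball (by linarith))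
      have h1 : DifferentiableOn ℂ (fun t : ℂ => fderiv ℂ (F k) (s + t • (x - s))) T := by
        refine hdf.comp ?_ ?_
        · exact (Differentiable.differentiableOn (by fun_prop))
        · intro t ht
          exact ht
      exact (differentiableOn_const _).clm_comp (h1.clm_comp (differentiableOn_const _))
    · intro t ht
      apply hC
      rw [mem_closedBall_zero_iff]
      exact norm_fderiv_le hR hk.1.differentiableOn hk.2 ht
  · change s + (0 : ℂ) • (x - s) ∈ ball a (R / 2)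
    rw [zero_smul, add_zero]
    exact hVa hs
  · change s + (1 : ℂ) • (x - s) ∈ ball a (R / 2)
    rw [one_smul, add_sub_cancel]
    exact hx
  · have h1 : ∀ᶠ t in 𝓝 (0 : ℂ), s + t • (x - s) ∈ V := by
      refine hcont.continuousAt.eventually_mem (hV.mem_nhds ?_)
      rw [zero_smul, add_zero]
      exact hs
    filter_upwards [h1] with t ht
    exact hz _ ht

/-- robust local inverse with holomorphic dependence -/
theorem robust_inverse {ι : Type*} {𝒰 : Ultrafilter ι} {m : ℕ}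
    {θ : ι → (Fin m → ℂ) → (Fin m → ℂ)} {b : Fin m → ℂ} {R M : ℝ} (hR : 0 < R)
    (hF : ∀ᶠ k in (𝒰 : Filter ι), AnalyticOnNhd ℂ (θ k) (ball 0 R) ∧
      MapsTo (θ k) (ball 0 R) (closedBall 0 M))
    {A : (Fin m → ℂ) →L[ℂ] (Fin m → ℂ)} (hAdet : A.det ≠ 0)
    (hA : Tendsto (fun k => fderiv ℂ (θ k) 0) 𝒰 (𝓝 A))
    (hlim : Tendsto (fun k => θ k 0) 𝒰 (𝓝 b)) {r₀ : ℝ} (hr₀ : 0 < r₀) :
    ∃ ρ > 0, ∀ᶠ k in (𝒰 : Filter ι), ∃ s : (Fin m → ℂ) → (Fin m → ℂ),
      DifferentiableOn ℂ s (ball b ρ) ∧ MapsTo s (ball b ρ) (ball 0 r₀) ∧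
      (∀ w ∈ ball b ρ, θ k (s w) = w) ∧ θ k 0 ∈ ball b ρ ∧ s (θ k 0) = 0 := by
  rcases subsingleton_or_nontrivial (Fin m → ℂ) with hsub | hnt
  · refine ⟨1, one_pos, Eventually.of_forall fun k => ⟨fun _ => 0, ?_, ?_, ?_, ?_, rfl⟩⟩
    · exact differentiableOn_const _
    · intro w _
      exact mem_ball_self hr₀
    · intro w _
      exact Subsingleton.elim _ _
    · rw [Subsingleton.elim (θ k 0) b]
      exact mem_ball_self one_pos
  set A' : (Fin m → ℂ) ≃L[ℂ] (Fin m → ℂ) := A.toContinuousLinearEquivOfDetNeZero hAdet with hA'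
  have hAA : (A' : (Fin m → ℂ) →L[ℂ] (Fin m → ℂ)) = A := rfl
  set N : ℝ≥0 := ‖(A'.symm : (Fin m → ℂ) →L[ℂ] (Fin m → ℂ))‖₊ with hN
  have hNpos : 0 < N := A'.nnnorm_symm_pos
  set c : ℝ≥0 := N⁻¹ / 2 with hc
  have hcpos : 0 < c := by positivity
  have hcN : c < N⁻¹ := by
    rw [hc]
    exact NNReal.half_lt_self (by positivity)
  have hcR : (c : ℝ) = (N : ℝ)⁻¹ / 2 := by rw [hc]; push_cast; ring
  set C₁ : ℝ := 2 * M / (R / 2) with hC₁
  have hM : 0 ≤ M := by
    obtain ⟨k, hk⟩ := hF.exists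
    have := hk.2 (mem_ball_self hR)
    rw [mem_closedBall_zero_iff] at this
    exact (norm_nonneg _).trans this
  have hC₁0 : 0 ≤ C₁ := by positivity
  set C₂ : ℝ := 2 * C₁ / (R / 4) with hC₂
  have hC₂0 : 0 ≤ C₂ := by positivity
  set δ : ℝ := min (min (r₀ / 2) (R / 8)) ((c : ℝ) / 2 / (C₂ + 1)) with hδ
  have hδpos : 0 < δ := by positivity
  have hδr : δ ≤ r₀ / 2 := (min_le_left _ _).trans (min_le_left _ _)
  have hδR : δ ≤ R / 8 := (min_le_left _ _).trans (min_le_right _ _)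
  have hδc : δ * (C₂ + 1) ≤ c / 2 := by
    have : δ ≤ (c : ℝ) / 2 / (C₂ + 1) := min_le_right _ _
    rwa [le_div_iff₀ (by positivity)] at this
  have hev1 : ∀ᶠ k in (𝒰 : Filter ι), dist (fderiv ℂ (θ k) 0) A < c / 2 :=
    Metric.tendsto_nhds.1 hA _ (by positivity)
  set ρ : ℝ := c * (δ / 2) / 2 with hρdef
  have hρ : 0 < ρ := by positivity
  have hev2 : ∀ᶠ k in (𝒰 : Filter ι), dist (θ k 0) b < ρ := Metric.tendsto_nhds.1 hlim _ hρ
  refine ⟨ρ, hρ, ?_⟩
  filter_upwards [hF, hev1, hev2] with k hk hk1 hk2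
  have hsubb : ball (0 : Fin m → ℂ) δ ⊆ ball 0 (R / 2 / 2) := ball_subset_ball (by linarith)
  have hdf : DifferentiableOn ℂ (fderiv ℂ (θ k)) (ball 0 (R / 2)) :=
    (hk.1.fderiv.differentiableOn).mono (ball_subset_ball (by linarith))
  have hdm : MapsTo (fderiv ℂ (θ k)) (ball 0 (R / 2)) (closedBall 0 C₁) := by
    intro x hx
    rw [mem_closedBall_zero_iff]
    exact norm_fderiv_le hR hk.1.differentiableOn hk.2 hx
  have hbd : ∀ z ∈ ball (0 : Fin m → ℂ) δ, ‖fderiv ℂ (θ k) z - A‖ ≤ (c : ℝ) := by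
    intro z hz
    have h1 : dist (fderiv ℂ (θ k) z) (fderiv ℂ (θ k) 0) ≤
        2 * C₁ / (R / 2 / 2) * dist z 0 :=
      dist_le_of_bounded hdf hdm (mem_ball_self (by linarith)) (hsubb hz)
    have h2 : dist z 0 ≤ δ := (mem_ball.1 hz).le
    have h3 : 2 * C₁ / (R / 2 / 2) = C₂ := by rw [hC₂]; ring
    rw [h3] at h1
    have h4 : C₂ * dist z 0 ≤ C₂ * δ := mul_le_mul_of_nonneg_left h2 hC₂0
    rw [← dist_eq_norm]
    have h5 := dist_triangle (fderiv ℂ (θ k) z) (fderiv ℂ (θ k) 0) A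
    nlinarith
  have hda : ∀ z ∈ ball (0 : Fin m → ℂ) δ, HasFDerivAt (θ k) (fderiv ℂ (θ k) z) z := by
    intro z hz
    have hz' : z ∈ ball (0 : Fin m → ℂ) R := ball_subset_ball (by linarith) hz
    exact (hk.1 z hz').differentiableAt.hasFDerivAt
  have happ : ApproximatesLinearOn (θ k) (A' : (Fin m → ℂ) →L[ℂ] (Fin m → ℂ))
      (ball 0 δ) c := by
    rw [hAA]
    intro x hx y hy
    exact (convex_ball (0 : Fin m → ℂ) δ).norm_image_sub_le_of_norm_hasFDerivWithin_le'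
      (fun z hz => (hda z hz).hasFDerivWithinAt) hbd hy hx
  let P := happ.toOpenPartialHomeomorph (θ k) (ball 0 δ) (Or.inr hcN) isOpen_ball
  have htar : ball b ρ ⊆ P.target := by
    intro w hw
    have h1 := happ.closedBall_subset_target (Or.inr hcN) isOpen_ball (b := 0) (ε := δ / 2)
      (by positivity) (closedBall_subset_ball (by linarith))
    apply h1
    rw [mem_closedBall]
    rw [mem_ball] at hw
    have h2 : ((N : ℝ)⁻¹ - c) = c := by linarith
    have h3 := dist_triangle w b (θ k 0)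
    rw [dist_comm b] at h3
    have h4 : (((N⁻¹ : ℝ≥0) : ℝ) - c) * (δ / 2) = c * (δ / 2) := by
      push_cast
      rw [h2]
    rw [h4]
    rw [hρdef] at hw hk2
    linarith
  have h0 : (0 : Fin m → ℂ) ∈ P.source := mem_ball_self hδpos
  refine ⟨P.symm, ?_, ?_, ?_, ?_, ?_⟩
  · intro w hw
    have hwt : w ∈ P.target := htar hw
    have hv : P.symm w ∈ ball (0 : Fin m → ℂ) δ := P.map_target hwt
    have hinj : (fderiv ℂ (θ k) (P.symm w)).det ≠ 0 := by
      intro hdet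
      have h1 : LinearMap.det ((fderiv ℂ (θ k) (P.symm w) : (Fin m → ℂ) →L[ℂ] (Fin m → ℂ)) :
          (Fin m → ℂ) →ₗ[ℂ] (Fin m → ℂ)) = 0 := hdet
      rw [LinearMap.det_eq_zero_iff_ker_ne_bot, Submodule.ne_bot_iff] at h1
      obtain ⟨x, hx, hx0⟩ := h1
      have hx' : fderiv ℂ (θ k) (P.symm w) x = 0 := hx
      have h2 : ‖A x‖ ≤ c * ‖x‖ := by
        have h3 := (fderiv ℂ (θ k) (P.symm w) - A).le_opNorm x
        rw [_root_.sub_apply, hx', zero_sub, norm_neg] at h3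
        exact h3.trans (mul_le_mul_of_nonneg_right (hbd _ hv) (norm_nonneg x))
      have h3 : ‖x‖ ≤ N * ‖A x‖ := by
        have h4 := (A'.symm : (Fin m → ℂ) →L[ℂ] (Fin m → ℂ)).le_opNorm (A x)
        have h5 : (A'.symm : (Fin m → ℂ) →L[ℂ] (Fin m → ℂ)) (A x) = x :=
          A'.symm_apply_apply x
        rw [h5] at h4
        exact h4
      have hxpos : 0 < ‖x‖ := norm_pos_iff.2 hx0
      have hNR : 0 < (N : ℝ) := hNpos
      have h6 : (N : ℝ) * c = 1 / 2 := by
        rw [hcR]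
        field_simp
      nlinarith
    let B := (fderiv ℂ (θ k) (P.symm w)).toContinuousLinearEquivOfDetNeZero hinj
    have hB : HasFDerivAt P (B : (Fin m → ℂ) →L[ℂ] (Fin m → ℂ)) (P.symm w) := hda _ hv
    exact (P.hasFDerivAt_symm hwt hB).differentiableAt.differentiableWithinAt
  · intro w hw
    exact ball_subset_ball (by linarith) (P.map_target (htar hw))
  · intro w hw
    exact P.right_inv (htar hw)
  · exact hk2
  · exact P.left_inv h0

/-- functions whose derivative kills the kernel of the derivative of a submersion are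
functions of that submersion, locally -/
theorem local_fibre {m : ℕ} {h : E → (Fin m → ℂ)} {φ : E → E'} {a : E}
    (hh : AnalyticAt ℂ h a) (hφ : AnalyticAt ℂ φ a)
    (hs : Function.Surjective (fderiv ℂ h a))
    (hk : ∀ᶠ w in 𝓝 a, ∀ v, fderiv ℂ h w v = 0 → fderiv ℂ φ w v = 0) :
    ∃ U ∈ 𝓝 a, ∀ w ∈ U, ∀ w' ∈ U, h w = h w' → φ w = φ w' := by
  have hcE : CompleteSpace E := FiniteDimensional.complete ℂ E
  have hcE' : CompleteSpace E' := FiniteDimensional.complete ℂ E'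
  set A : E →L[ℂ] (Fin m → ℂ) := fderiv ℂ h a with hA
  obtain ⟨ι, hι⟩ := exists_slice hs
  have hι' : ∀ w, A (ι w) = w := fun w =>
    congrArg (fun l : (Fin m → ℂ) →L[ℂ] (Fin m → ℂ) => l w) hι
  let Ψ : E → E := fun w => w - ι (A (w - a)) + ι (h w - h a)
  have hAΨ : ∀ w, A (Ψ w - a) = h w - h a := by
    intro w
    have : Ψ w - a = (w - a) - ι (A (w - a)) + ι (h w - h a) := by
      simp only [Ψ]; abel
    rw [this, map_add, map_sub, hι', hι', sub_self, zero_add]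
  have hΨa : Ψ a = a := by simp [Ψ]
  have hΨan : AnalyticAt ℂ Ψ a := by
    have h1 : AnalyticAt ℂ (fun w : E => w - ι (A (w - a))) a := by
      have h2 : AnalyticAt ℂ (fun w : E => w - a) a := analyticAt_id.sub analyticAt_const
      exact analyticAt_id.sub (((ι ∘L A).analyticAt _).comp h2)
    have h3 : AnalyticAt ℂ (fun w : E => h w - h a) a := hh.sub analyticAt_const
    have h4 : AnalyticAt ℂ (fun w : E => ι (h w - h a)) a :=
      (ι.analyticAt (h a - h a)).comp_of_eq h3 rfl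
    exact h1.add h4
  have hΨd : HasFDerivAt Ψ ((ContinuousLinearEquiv.refl ℂ E : E ≃L[ℂ] E) : E →L[ℂ] E) a := by
    have h1 : HasFDerivAt h A a := hh.differentiableAt.hasFDerivAt
    have h2 : HasFDerivAt (fun w : E => w - ι (A (w - a)))
        (ContinuousLinearMap.id ℂ E - ι ∘L A ∘L ContinuousLinearMap.id ℂ E) a := by
      refine (hasFDerivAt_id a).sub ?_
      exact ι.hasFDerivAt.comp a (A.hasFDerivAt.comp a ((hasFDerivAt_id a).sub_const a))
    have h3 : HasFDerivAt (fun w : E => ι (h w - h a)) (ι ∘L A) a :=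
      ι.hasFDerivAt.comp a (h1.sub_const (h a))
    have h4 := h2.add h3
    refine h4.congr_fderiv ?_
    ext1 v
    simp
  have hΨc : ContDiffAt ℂ 1 Ψ a := hΨan.contDiffAt
  let P := hΨc.toOpenPartialHomeomorph Ψ hΨd one_ne_zero
  have hP : (P : E → E) = Ψ := rfl
  have haS : a ∈ P.source := hΨc.mem_toOpenPartialHomeomorph_source hΨd one_ne_zero
  have haT : a ∈ P.target := by
    have := hΨc.image_mem_toOpenPartialHomeomorph_target hΨd one_ne_zero
    rwa [hΨa] at this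
  have hsa : P.symm a = a := by
    have := P.left_inv haS
    rw [hP, hΨa] at this
    exact this
  have hsc : ContDiffAt ℂ 1 P.symm a := by
    have := hΨc.to_localInverse hΨd one_ne_zero
    rw [hΨa] at this
    exact this
  have hsd : ∀ᶠ y in 𝓝 a, DifferentiableAt ℂ P.symm y := by
    have h1 : ∀ᶠ y in 𝓝 a, ContDiffAt ℂ 1 P.symm y := hsc.eventually (by simp)
    filter_upwards [h1] with y hy
    exact hy.differentiableAt one_ne_zero
  have hscont : Tendsto P.symm (𝓝 a) (𝓝 a) := by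
    have := (P.continuousAt_symm haT).tendsto
    rwa [hsa] at this
  have hev : ∀ᶠ y in 𝓝 a, y ∈ P.target ∧ DifferentiableAt ℂ P.symm y ∧
      (∀ v, fderiv ℂ h (P.symm y) v = 0 → fderiv ℂ φ (P.symm y) v = 0) ∧
      DifferentiableAt ℂ h (P.symm y) ∧ DifferentiableAt ℂ φ (P.symm y) := by
    have h1 : ∀ᶠ w in 𝓝 a, DifferentiableAt ℂ h w :=
      hh.eventually_analyticAt.mono fun w hw => hw.differentiableAt
    have h2 : ∀ᶠ w in 𝓝 a, DifferentiableAt ℂ φ w :=
      hφ.eventually_analyticAt.mono fun w hw => hw.differentiableAt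
    filter_upwards [P.open_target.mem_nhds haT, hsd, hscont.eventually hk, hscont.eventually h1,
      hscont.eventually h2] with y h1 h2 h3 h4 h5
    exact ⟨h1, h2, h3, h4, h5⟩
  obtain ⟨ρ, hρ, hball⟩ := Metric.eventually_nhds_iff_ball.1 hev
  have hU : P.source ∩ P ⁻¹' (ball a ρ) ∈ 𝓝 a := by
    refine (P.isOpen_inter_preimage isOpen_ball).mem_nhds ⟨haS, ?_⟩
    change P a ∈ ball a ρ
    rw [hP, hΨa]
    exact mem_ball_self hρ
  refine ⟨_, hU, ?_⟩
  rintro w ⟨hw1, hw2⟩ w' ⟨hw1', hw2'⟩ hww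
  change Ψ w ∈ ball a ρ at hw2
  change Ψ w' ∈ ball a ρ at hw2'
  set κ : E := Ψ w' - Ψ w with hκ
  have hAκ : A κ = 0 := by
    have h1 : κ = (Ψ w' - a) - (Ψ w - a) := by rw [hκ]; abel
    rw [h1, map_sub, hAΨ, hAΨ, hww]
    abel
  let T : Set ℂ := {t : ℂ | Ψ w + t • κ ∈ ball a ρ}
  have hcont : Continuous fun t : ℂ => Ψ w + t • κ := by fun_prop
  have hT : IsOpen T := isOpen_ball.preimage hcont
  have hTconv : Convex ℝ T := line_convex (convex_ball a ρ) (Ψ w) κ
  -- the composite has derivative zero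
  have hder : ∀ t ∈ T, HasFDerivAt (fun t : ℂ => φ (P.symm (Ψ w + t • κ)))
      (0 : ℂ →L[ℂ] E') t := by
    intro t ht
    obtain ⟨q1, q2, q3, q4, q5⟩ := hball _ ht
    set y := Ψ w + t • κ with hy
    have hline : HasFDerivAt (fun t : ℂ => Ψ w + t • κ)
        ((ContinuousLinearMap.id ℂ ℂ).smulRight κ) t := by
      have := ((ContinuousLinearMap.id ℂ ℂ).smulRight κ).hasFDerivAt (x := t)
      exact this.const_add (Ψ w)
    have hsy : HasFDerivAt (fun t : ℂ => P.symm (Ψ w + t • κ))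
        ((fderiv ℂ P.symm y) ∘L ((ContinuousLinearMap.id ℂ ℂ).smulRight κ)) t :=
      q2.hasFDerivAt.comp t hline
    have h1 : HasFDerivAt (fun t : ℂ => h (P.symm (Ψ w + t • κ)))
        ((fderiv ℂ h (P.symm y)) ∘L ((fderiv ℂ P.symm y) ∘L
          ((ContinuousLinearMap.id ℂ ℂ).smulRight κ))) t :=
      HasFDerivAt.comp t q4.hasFDerivAt hsy
    have h2 : HasFDerivAt (fun t : ℂ => φ (P.symm (Ψ w + t • κ)))
        ((fderiv ℂ φ (P.symm y)) ∘L ((fderiv ℂ P.symm y) ∘L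
          ((ContinuousLinearMap.id ℂ ℂ).smulRight κ))) t :=
      HasFDerivAt.comp t q5.hasFDerivAt hsy
    -- h is constant along the line
    have h3 : (fun t : ℂ => h (P.symm (Ψ w + t • κ))) =ᶠ[𝓝 t] fun _ => h a + A (Ψ w - a) := by
      filter_upwards [hT.mem_nhds ht] with t' ht'
      have e1 := hAΨ (P.symm (Ψ w + t' • κ))
      have e2 : Ψ (P.symm (Ψ w + t' • κ)) = Ψ w + t' • κ := P.right_inv (hball _ ht').1
      rw [e2] at e1
      have e3 : Ψ w + t' • κ - a = (Ψ w - a) + t' • κ := by abel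
      rw [e3, map_add, map_smul, hAκ, smul_zero, add_zero] at e1
      rw [e1]
      abel
    have h4 : HasFDerivAt (fun t : ℂ => h (P.symm (Ψ w + t • κ))) (0 : ℂ →L[ℂ] (Fin m → ℂ)) t :=
      (hasFDerivAt_const _ t).congr_of_eventuallyEq h3
    have h5 := h1.unique h4
    have h6 : fderiv ℂ h (P.symm y) (fderiv ℂ P.symm y κ) = 0 := by
      have := congrArg (fun l : ℂ →L[ℂ] (Fin m → ℂ) => l 1) h5
      simpa using this
    have h7 := q3 _ h6
    refine h2.congr_fderiv ?_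
    ext1
    simpa using h7
  have hdT : DifferentiableOn ℂ (fun t : ℂ => φ (P.symm (Ψ w + t • κ))) T := fun t ht =>
    (hder t ht).differentiableAt.differentiableWithinAt
  have h0T : (0 : ℂ) ∈ T := by
    change Ψ w + (0 : ℂ) • κ ∈ ball a ρ
    rw [zero_smul, add_zero]
    exact hw2
  have h1T : (1 : ℂ) ∈ T := by
    change Ψ w + (1 : ℂ) • κ ∈ ball a ρ
    rw [one_smul, hκ, add_sub_cancel]
    exact hw2'
  have hconst := hTconv.is_const_of_fderivWithin_eq_zero (𝕜 := ℂ) hdT (fun t ht => by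
    rw [fderivWithin_of_isOpen hT ht]
    exact (hder t ht).fderiv) h0T h1T
  simp only [zero_smul, add_zero, one_smul] at hconst
  rw [hκ, add_sub_cancel] at hconst
  have e1 : P.symm (Ψ w) = w := P.left_inv hw1
  have e2 : P.symm (Ψ w') = w' := P.left_inv hw1'
  rw [e1, e2] at hconst
  exact hconst

end Local

end Pool.Agent.NonTame
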