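import Mathlib

/-! Saturated exhaustion functions. -/

open Filter Set Topology

set_option linter.unusedSectionVars false

namespace Pool.Agent.NonTame

section

variable {X : Type*} [TopologicalSpace X] {Y : Type*} [TopologicalSpace Y]

/-- points not separated by the family `𝓕` -/
def FRel (𝓕 : Set (X → Y)) (x x' : X) : Prop := ∀ f ∈ 𝓕, f x = f x'

/-- the hull of `K` with respect to the family `𝓕` -/
def FHull (𝓕 : Set (X → Y)) (K : Set X) : Set X := {x | ∀ f ∈ 𝓕, f x ∈ f '' K}

theorem FRel.refl (𝓕 : Set (X → Y)) (x : X) : FRel 𝓕 x x := fun _ _ => rfl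

theorem FRel.symm {𝓕 : Set (X → Y)} {x x' : X} (h : FRel 𝓕 x x') : FRel 𝓕 x' x :=
  fun f hf => (h f hf).symm

theorem FRel.trans {𝓕 : Set (X → Y)} {x x' x'' : X} (h : FRel 𝓕 x x') (h' : FRel 𝓕 x' x'') :
    FRel 𝓕 x x'' := fun f hf => (h f hf).trans (h' f hf)

/-- the open saturated kernel of the interior of `K` -/
def FCore (𝓕 : Set (X → Y)) (K : Set X) : Set X := {x | ∀ c, FRel 𝓕 x c → c ∈ interior K}

theorem fcore_subset {𝓕 : Set (X → Y)} {K : Set X} : FCore 𝓕 K ⊆ K :=
  fun x hx => interior_subset (hx x (FRel.refl 𝓕 x))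

theorem fcore_sat {𝓕 : Set (X → Y)} {K : Set X} {x x' : X} (h : FRel 𝓕 x x')
    (hx : x ∈ FCore 𝓕 K) : x' ∈ FCore 𝓕 K := fun c hc => hx c (h.trans hc)

variable [T2Space X] [LocallyCompactSpace X] [T2Space Y]

theorem fsat_closed {𝓕 : Set (X → Y)} (hc : ∀ f ∈ 𝓕, Continuous f)
    (hH : ∀ K, IsCompact K → IsCompact (FHull 𝓕 K)) {C : Set X} (hC : IsClosed C) :
    IsClosed {x | ∃ c ∈ C, FRel 𝓕 x c} := by
  rw [isClosed_iff_ultrafilter]
  intro x l hl hS
  obtain ⟨K, hK, hxK⟩ := exists_compact_mem_nhds x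
  have hex : ∀ s, (∃ c ∈ C, FRel 𝓕 s c) → ∃ c ∈ C, FRel 𝓕 s c := fun s h => h
  choose! c hcC hcR using hex
  have h1 : (C ∩ FHull 𝓕 K) ∈ (l.map c : Ultrafilter X) := by
    change ∀ᶠ s in (l : Filter X), c s ∈ C ∩ FHull 𝓕 K
    filter_upwards [hS, hl hxK] with s hs hsK
    refine ⟨hcC s hs, fun f hf => ⟨s, hsK, ?_⟩⟩
    exact hcR s hs f hf
  have h2 : IsCompact (C ∩ FHull 𝓕 K) := (hH K hK).inter_left hC
  obtain ⟨y, hy, hy2⟩ := h2.ultrafilter_le_nhds _ (le_principal_iff.2 h1)
  refine ⟨y, hy.1, fun f hf => ?_⟩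
  have h3 : Tendsto (fun s => f (c s)) l (𝓝 (f y)) :=
    ((hc f hf).tendsto y).comp (show Tendsto c l (𝓝 y) from hy2)
  have h4 : Tendsto f l (𝓝 (f x)) := ((hc f hf).tendsto x).mono_left hl
  have h5 : Tendsto (fun s => f (c s)) l (𝓝 (f x)) := by
    refine h4.congr' ?_
    filter_upwards [hS] with s hs
    exact hcR s hs f hf
  exact tendsto_nhds_unique h5 h3

theorem fcore_open {𝓕 : Set (X → Y)} (hc : ∀ f ∈ 𝓕, Continuous f)
    (hH : ∀ K, IsCompact K → IsCompact (FHull 𝓕 K)) (K : Set X) : IsOpen (FCore 𝓕 K) := by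
  have h1 := fsat_closed hc hH (C := (interior K)ᶜ) isOpen_interior.isClosed_compl
  have h2 : FCore 𝓕 K = {x | ∃ c ∈ (interior K)ᶜ, FRel 𝓕 x c}ᶜ := by
    ext x
    constructor
    · rintro hx ⟨c, hc1, hc2⟩
      exact hc1 (hx c hc2)
    · intro hx c hc1
      by_contra hc2
      exact hx ⟨c, hc2, hc1⟩
  rw [h2]
  exact h1.isOpen_compl

theorem exists_mem_fcore {𝓕 : Set (X → Y)}
    (hH : ∀ K, IsCompact K → IsCompact (FHull 𝓕 K)) (x : X) :
    ∃ K, IsCompact K ∧ FHull 𝓕 {x} ⊆ interior K ∧ x ∈ FCore 𝓕 K := by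
  obtain ⟨K, hK, hK2⟩ := exists_compact_superset (hH {x} isCompact_singleton)
  refine ⟨K, hK, hK2, fun c hc => hK2 fun f hf => ?_⟩
  exact ⟨x, rfl, hc f hf⟩

theorem exists_sat_exhaustion [SigmaCompactSpace X] {𝓕 : Set (X → Y)}
    (hc : ∀ f ∈ 𝓕, Continuous f)
    (hH : ∀ K, IsCompact K → IsCompact (FHull 𝓕 K)) :
    ∃ u : X → ℝ, Continuous u ∧ (∀ x, 0 ≤ u x) ∧ (∀ r, IsCompact {x | u x ≤ r}) ∧
      ∀ x x', FRel 𝓕 x x' → u x = u x' := by
  let s : Setoid X := ⟨FRel 𝓕, FRel.refl 𝓕, FRel.symm, FRel.trans⟩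
  have hrel : ∀ a b : X, (Quotient.mk s a = Quotient.mk s b) ↔ FRel 𝓕 a b := fun a b =>
    Quotient.eq (r := s)
  have hπc : Continuous (Quotient.mk s) := continuous_quotient_mk'
  have hT2 : T2Space (Quotient s) := by
    refine ⟨fun p q hpq => ?_⟩
    induction p using Quotient.inductionOn with
    | h a =>
      induction q using Quotient.inductionOn with
      | h b =>
        have h1 : ¬ FRel 𝓕 a b := fun h => hpq ((hrel a b).2 h)
        unfold FRel at h1
        push Not at h1
        obtain ⟨f, hf, hab⟩ := h1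
        let g : Quotient s → Y := Quotient.lift f (fun a b (h : FRel 𝓕 a b) => h f hf)
        have hg : Continuous g := (hc f hf).quotient_lift _
        exact separated_by_continuous hg (show f a ≠ f b from hab)
  have hopen : ∀ K : Set X, IsOpen (Quotient.mk s '' FCore 𝓕 K) := by
    intro K
    rw [← isQuotientMap_quotient_mk'.isOpen_preimage]
    have : Quotient.mk s ⁻¹' (Quotient.mk s '' FCore 𝓕 K) = FCore 𝓕 K := by
      ext x
      constructor
      · rintro ⟨y, hy, hyx⟩
        exact fcore_sat ((hrel y x).1 hyx) hy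
      · intro hx
        exact ⟨x, hx, rfl⟩
    change IsOpen (Quotient.mk s ⁻¹' (Quotient.mk s '' FCore 𝓕 K))
    rw [this]
    exact fcore_open hc hH K
  have hwlc : WeaklyLocallyCompactSpace (Quotient s) := by
    refine ⟨fun p => ?_⟩
    induction p using Quotient.inductionOn with
    | h x =>
      obtain ⟨K, hK, -, hxK⟩ := exists_mem_fcore hH x
      refine ⟨Quotient.mk s '' K, hK.image hπc, ?_⟩
      refine mem_of_superset ((hopen K).mem_nhds ⟨x, hxK, rfl⟩) ?_
      exact image_mono fcore_subset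
  have hσ : SigmaCompactSpace (Quotient s) := by
    refine ⟨⟨fun n => Quotient.mk s '' compactCovering X n,
      fun n => (isCompact_compactCovering X n).image hπc, ?_⟩⟩
    refine eq_univ_of_forall fun p => ?_
    induction p using Quotient.inductionOn with
    | h x =>
      obtain ⟨n, hn⟩ := exists_mem_compactCovering x
      exact mem_iUnion.2 ⟨n, x, hn, rfl⟩
  let K : CompactExhaustion (Quotient s) := CompactExhaustion.choice (Quotient s)
  obtain ⟨g, hg⟩ := exists_continuous_forall_mem_convex_of_local_const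
    (t := fun x : Quotient s => Ici ((K.find x : ℕ) : ℝ)) (fun x => convex_Ici _) (by
      intro x
      obtain ⟨n, hn⟩ := K.exists_mem_nhds x
      refine ⟨(n : ℝ), ?_⟩
      filter_upwards [hn] with y hy
      rw [mem_Ici]
      exact_mod_cast K.mem_iff_find_le.1 hy)
  refine ⟨fun x => g (Quotient.mk s x), g.continuous.comp hπc,
    fun x => (Nat.cast_nonneg _).trans (hg _), ?_, ?_⟩
  · intro r
    -- cover by the images of the cores
    let L : CompactExhaustion X := CompactExhaustion.choice X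
    have hcov : K ⌊r⌋₊ ⊆ ⋃ n, Quotient.mk s '' FCore 𝓕 (L n) := by
      intro p _
      induction p using Quotient.inductionOn with
      | h x =>
        obtain ⟨n, hn⟩ := L.exists_superset_of_isCompact (hH {x} isCompact_singleton)
        refine mem_iUnion.2 ⟨n + 1, x, fun c hc' => ?_, rfl⟩
        refine L.subset_interior_succ n (hn fun f hf => ?_)
        exact ⟨x, rfl, hc' f hf⟩
    obtain ⟨n, hn⟩ := (K.isCompact ⌊r⌋₊).elim_directed_cover
      (fun n => Quotient.mk s '' FCore 𝓕 (L n)) (fun n => hopen _) hcov (by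
        refine Monotone.directed_le ?_
        intro a b hab
        refine image_mono ?_
        intro x hx c hc'
        exact interior_mono (L.subset hab) (hx c hc'))
    refine (L.isCompact n).of_isClosed_subset
      (isClosed_le (g.continuous.comp hπc) continuous_const) ?_
    intro x hx
    have h1 : ((K.find (Quotient.mk s x) : ℕ) : ℝ) ≤ r := le_trans (hg _) hx
    have h2 : Quotient.mk s x ∈ K ⌊r⌋₊ := by
      rw [K.mem_iff_find_le]
      exact Nat.le_floor h1
    obtain ⟨y, hy, hyx⟩ := hn h2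
    exact fcore_subset (fcore_sat ((hrel y x).1 hyx) hy)
  · intro x x' h
    have : Quotient.mk s x = Quotient.mk s x' := (hrel x x').2 h
    simp only [this]

end

end Pool.Agent.NonTame
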