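import Pool.Agent.Lib_MP_884f32_an.Disc2
import Pool.Agent.Lib_MP_884f32_an.Rank
import Pool.Agent.Lib_MP_884f32_an.Sat

/-! Readings of tuples of holomorphic maps in charts, ranks. -/

open Filter Metric Set Topology
open scoped Manifold ContDiff

set_option linter.unusedSectionVars false

namespace Pool.Agent.NonTame

variable {E : Type*} [NormedAddCommGroup E] [NormedSpace ℂ E] [FiniteDimensional ℂ E]
variable {X : Type*} [TopologicalSpace X] [ChartedSpace E X] [IsManifold 𝓘(ℂ, E) ω X]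
variable {E' : Type*} [NormedAddCommGroup E'] [NormedSpace ℂ E'] [FiniteDimensional ℂ E']
variable {Y : Type*} [MetricSpace Y] [ChartedSpace E' Y] [IsManifold 𝓘(ℂ, E') ω Y]

/-- the map `ψ` read in the charts at `x'` and `z'` -/
noncomputable def rdd (E : Type*) [NormedAddCommGroup E] [NormedSpace ℂ E]
    {X : Type*} [TopologicalSpace X] [ChartedSpace E X] (E' : Type*) [NormedAddCommGroup E']
    [NormedSpace ℂ E'] {Y : Type*} [TopologicalSpace Y] [ChartedSpace E' Y]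
    (x' : X) (z' : Y) (ψ : X → Y) : E → E' :=
  fun v => chartAt E' z' (ψ ((chartAt E x').symm v))

theorem analyticAt_of_contDiffAt {F F' : Type*} [NormedAddCommGroup F] [NormedSpace ℂ F]
    [NormedAddCommGroup F'] [NormedSpace ℂ F'] [CompleteSpace F'] {f : F → F'} {x : F}
    (h : ContDiffAt ℂ ω f x) : AnalyticAt ℂ f x := by
  rw [← analyticWithinAt_univ, ← contDiffWithinAt_omega_iff_analyticWithinAt,
    contDiffWithinAt_univ]
  exact h

theorem rdd_analyticAt {ψ : X → Y} (hψ : ContMDiff 𝓘(ℂ, E) 𝓘(ℂ, E') ω ψ) {x' : X} {z' : Y}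
    {v : E} (hv : v ∈ (chartAt E x').target)
    (hz : ψ ((chartAt E x').symm v) ∈ (chartAt E' z').source) :
    AnalyticAt ℂ (rdd E E' x' z' ψ) v := by
  have : CompleteSpace E' := FiniteDimensional.complete ℂ E'
  apply analyticAt_of_contDiffAt
  rw [← contMDiffAt_iff_contDiffAt]
  have h1 : ContMDiffAt 𝓘(ℂ, E) 𝓘(ℂ, E) ω (chartAt E x').symm v :=
    (contMDiffOn_chart_symm (I := 𝓘(ℂ, E)) (n := ω) (x := x')).contMDiffAt
      ((chartAt E x').open_target.mem_nhds hv)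
  have h2 : ContMDiffAt 𝓘(ℂ, E') 𝓘(ℂ, E') ω (chartAt E' z') (ψ ((chartAt E x').symm v)) :=
    (contMDiffOn_chart (I := 𝓘(ℂ, E')) (n := ω) (x := z')).contMDiffAt
      ((chartAt E' z').open_source.mem_nhds hz)
  exact h2.comp v ((hψ _).comp v h1)

theorem rdd_analyticAt' {ψ : X → Y} (hψ : ContMDiff 𝓘(ℂ, E) 𝓘(ℂ, E') ω ψ) {x' x : X} {z' : Y}
    (hx : x ∈ (chartAt E x').source) (hz : ψ x ∈ (chartAt E' z').source) :
    AnalyticAt ℂ (rdd E E' x' z' ψ) (chartAt E x' x) :=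
  rdd_analyticAt hψ ((chartAt E x').map_source hx) (by rwa [(chartAt E x').left_inv hx])

theorem rdd_self_analyticAt {ψ : X → X} (hψ : ContMDiff 𝓘(ℂ, E) 𝓘(ℂ, E) ω ψ) {x' x z' : X}
    (hx : x ∈ (chartAt E x').source) (hz : ψ x ∈ (chartAt E z').source) :
    AnalyticAt ℂ (rdd E E x' z' ψ) (chartAt E x' x) := by
  have : CompleteSpace E := FiniteDimensional.complete ℂ E
  apply analyticAt_of_contDiffAt
  rw [← contMDiffAt_iff_contDiffAt]
  have h0 : (chartAt E x').symm (chartAt E x' x) = x := (chartAt E x').left_inv hx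
  have h1 : ContMDiffAt 𝓘(ℂ, E) 𝓘(ℂ, E) ω (chartAt E x').symm (chartAt E x' x) :=
    (contMDiffOn_chart_symm (I := 𝓘(ℂ, E)) (n := ω) (x := x')).contMDiffAt
      ((chartAt E x').open_target.mem_nhds ((chartAt E x').map_source hx))
  have h2 : ContMDiffAt 𝓘(ℂ, E) 𝓘(ℂ, E) ω (chartAt E z')
      (ψ ((chartAt E x').symm (chartAt E x' x))) := by
    rw [h0]
    exact (contMDiffOn_chart (I := 𝓘(ℂ, E)) (n := ω) (x := z')).contMDiffAt
      ((chartAt E z').open_source.mem_nhds hz)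
  exact h2.comp (chartAt E x' x) ((hψ _).comp (chartAt E x' x) h1)

/-- the tuple `g` read in the charts at the points `y j` -/
noncomputable def RR (E' : Type*) [NormedAddCommGroup E'] [NormedSpace ℂ E']
    {X : Type*} {Y : Type*} [TopologicalSpace Y] [ChartedSpace E' Y]
    {s : ℕ} (g : Fin s → X → Y) (y : Fin s → Y) : X → (Fin s → E') :=
  fun x j => chartAt E' (y j) (g j x)

noncomputable def rr (E : Type*) [NormedAddCommGroup E] [NormedSpace ℂ E]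
    {X : Type*} [TopologicalSpace X] [ChartedSpace E X] (E' : Type*) [NormedAddCommGroup E']
    [NormedSpace ℂ E'] {Y : Type*} [TopologicalSpace Y] [ChartedSpace E' Y]
    {s : ℕ} (g : Fin s → X → Y) (y : Fin s → Y) (x' : X) (ψ : X → X) : E → (Fin s → E') :=
  fun v => RR E' g y (ψ ((chartAt E x').symm v))

theorem rr_analyticAt {s : ℕ} {g : Fin s → X → Y} {y : Fin s → Y}
    (hg : ∀ j, ContMDiff 𝓘(ℂ, E) 𝓘(ℂ, E') ω (g j)) {ψ : X → X}
    (hψ : ContMDiff 𝓘(ℂ, E) 𝓘(ℂ, E) ω ψ) {x' : X} {v : E}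
    (hv : v ∈ (chartAt E x').target)
    (hz : ∀ j, g j (ψ ((chartAt E x').symm v)) ∈ (chartAt E' (y j)).source) :
    AnalyticAt ℂ (rr E E' g y x' ψ) v := by
  have : CompleteSpace E' := FiniteDimensional.complete ℂ E'
  rw [analyticAt_pi_iff]
  intro j
  exact rdd_analyticAt ((hg j).comp hψ) hv (hz j)

theorem rr_analyticAt' {s : ℕ} {g : Fin s → X → Y} {y : Fin s → Y}
    (hg : ∀ j, ContMDiff 𝓘(ℂ, E) 𝓘(ℂ, E') ω (g j)) {ψ : X → X}
    (hψ : ContMDiff 𝓘(ℂ, E) 𝓘(ℂ, E) ω ψ) {x' x : X}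
    (hx : x ∈ (chartAt E x').source)
    (hz : ∀ j, g j (ψ x) ∈ (chartAt E' (y j)).source) :
    AnalyticAt ℂ (rr E E' g y x' ψ) (chartAt E x' x) :=
  rr_analyticAt hg hψ ((chartAt E x').map_source hx) (by rwa [(chartAt E x').left_inv hx])

/-- chain rule -/
theorem rr_comp {s : ℕ} {g : Fin s → X → Y} {y : Fin s → Y}
    (hg : ∀ j, ContMDiff 𝓘(ℂ, E) 𝓘(ℂ, E') ω (g j)) {ψ θ : X → X}
    (hψ : ContMDiff 𝓘(ℂ, E) 𝓘(ℂ, E) ω ψ) (hθ : ContMDiff 𝓘(ℂ, E) 𝓘(ℂ, E) ω θ)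
    {x₁ z₁ x : X} (hx : x ∈ (chartAt E x₁).source) (hz : ψ x ∈ (chartAt E z₁).source)
    (hy : ∀ j, g j (θ (ψ x)) ∈ (chartAt E' (y j)).source) :
    fderiv ℂ (rr E E' g y x₁ (θ ∘ ψ)) (chartAt E x₁ x) =
      (fderiv ℂ (rr E E' g y z₁ θ) (chartAt E z₁ (ψ x))) ∘L
        (fderiv ℂ (rdd E E x₁ z₁ ψ) (chartAt E x₁ x)) := by
  have h1 : rr E E' g y x₁ (θ ∘ ψ) =ᶠ[𝓝 (chartAt E x₁ x)]
      rr E E' g y z₁ θ ∘ rdd E E x₁ z₁ ψ := by
    have hc : ContinuousAt (fun v => ψ ((chartAt E x₁).symm v)) (chartAt E x₁ x) := by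
      refine ContinuousAt.comp (g := ψ) hψ.continuous.continuousAt ?_
      exact (chartAt E x₁).continuousAt_symm ((chartAt E x₁).map_source hx)
    have h2 : ∀ᶠ v in 𝓝 (chartAt E x₁ x), ψ ((chartAt E x₁).symm v) ∈ (chartAt E z₁).source := by
      refine hc.eventually_mem ((chartAt E z₁).open_source.mem_nhds ?_)
      rwa [(chartAt E x₁).left_inv hx]
    filter_upwards [h2] with v hv
    simp only [rr, rdd, Function.comp]
    rw [(chartAt E z₁).left_inv hv]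
  have h3 : rdd E E x₁ z₁ ψ (chartAt E x₁ x) = chartAt E z₁ (ψ x) := by
    simp only [rdd]
    rw [(chartAt E x₁).left_inv hx]
  have h4 : DifferentiableAt ℂ (rr E E' g y z₁ θ) (rdd E E x₁ z₁ ψ (chartAt E x₁ x)) := by
    rw [h3]
    exact (rr_analyticAt' hg hθ hz hy).differentiableAt
  have h5 : DifferentiableAt ℂ (rdd E E x₁ z₁ ψ) (chartAt E x₁ x) :=
    (rdd_self_analyticAt hψ hx hz).differentiableAt
  rw [h1.fderiv_eq, fderiv_comp _ h4 h5, h3]

theorem rdd_comp {ψ θ : X → X}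
    (hψ : ContMDiff 𝓘(ℂ, E) 𝓘(ℂ, E) ω ψ) (hθ : ContMDiff 𝓘(ℂ, E) 𝓘(ℂ, E) ω θ)
    {x₁ z₁ y₁ x : X} (hx : x ∈ (chartAt E x₁).source) (hz : ψ x ∈ (chartAt E z₁).source)
    (hy : θ (ψ x) ∈ (chartAt E y₁).source) :
    fderiv ℂ (rdd E E x₁ y₁ (θ ∘ ψ)) (chartAt E x₁ x) =
      (fderiv ℂ (rdd E E z₁ y₁ θ) (chartAt E z₁ (ψ x))) ∘L
        (fderiv ℂ (rdd E E x₁ z₁ ψ) (chartAt E x₁ x)) := by
  have h1 : rdd E E x₁ y₁ (θ ∘ ψ) =ᶠ[𝓝 (chartAt E x₁ x)]
      rdd E E z₁ y₁ θ ∘ rdd E E x₁ z₁ ψ := by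
    have hc : ContinuousAt (fun v => ψ ((chartAt E x₁).symm v)) (chartAt E x₁ x) := by
      refine ContinuousAt.comp (g := ψ) hψ.continuous.continuousAt ?_
      exact (chartAt E x₁).continuousAt_symm ((chartAt E x₁).map_source hx)
    have h2 : ∀ᶠ v in 𝓝 (chartAt E x₁ x), ψ ((chartAt E x₁).symm v) ∈ (chartAt E z₁).source := by
      refine hc.eventually_mem ((chartAt E z₁).open_source.mem_nhds ?_)
      rwa [(chartAt E x₁).left_inv hx]
    filter_upwards [h2] with v hv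
    simp only [rdd, Function.comp]
    rw [(chartAt E z₁).left_inv hv]
  have h3 : rdd E E x₁ z₁ ψ (chartAt E x₁ x) = chartAt E z₁ (ψ x) := by
    simp only [rdd]
    rw [(chartAt E x₁).left_inv hx]
  have h4 : DifferentiableAt ℂ (rdd E E z₁ y₁ θ) (rdd E E x₁ z₁ ψ (chartAt E x₁ x)) := by
    rw [h3]
    exact (rdd_self_analyticAt hθ hz hy).differentiableAt
  have h5 : DifferentiableAt ℂ (rdd E E x₁ z₁ ψ) (chartAt E x₁ x) :=
    (rdd_self_analyticAt hψ hx hz).differentiableAt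
  rw [h1.fderiv_eq, fderiv_comp _ h4 h5, h3]

theorem rdd_id_self {x₁ x : X} (hx : x ∈ (chartAt E x₁).source) :
    fderiv ℂ (rdd E E x₁ x₁ (id : X → X)) (chartAt E x₁ x) = ContinuousLinearMap.id ℂ E := by
  have h1 : rdd E E x₁ x₁ (id : X → X) =ᶠ[𝓝 (chartAt E x₁ x)] id := by
    filter_upwards [(chartAt E x₁).open_target.mem_nhds ((chartAt E x₁).map_source hx)] with v hv
    simp only [rdd, id]
    exact (chartAt E x₁).right_inv hv
  rw [h1.fderiv_eq, fderiv_id]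

/-- derivatives of automorphisms are surjective -/
theorem rdd_surjective {ψ θ : X → X} (hψ : ContMDiff 𝓘(ℂ, E) 𝓘(ℂ, E) ω ψ)
    (hθ : ContMDiff 𝓘(ℂ, E) 𝓘(ℂ, E) ω θ) (hinv : ∀ x, θ (ψ x) = x)
    (hinv' : ∀ x, ψ (θ x) = x) {x₁ z₁ x : X}
    (hx : x ∈ (chartAt E x₁).source) (hz : ψ x ∈ (chartAt E z₁).source) :
    Function.Surjective (fderiv ℂ (rdd E E x₁ z₁ ψ) (chartAt E x₁ x)) := by
  have h1 := rdd_comp (E := E) hθ hψ (x₁ := z₁) (z₁ := x₁) (y₁ := z₁) (x := ψ x) hz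
    (by rw [hinv]; exact hx) (by rw [hinv]; exact hz)
  have h2 : ψ ∘ θ = id := by
    funext x
    exact hinv' x
  rw [h2, rdd_id_self hz, hinv] at h1
  intro v
  refine ⟨fderiv ℂ (rdd E E z₁ x₁ θ) (chartAt E z₁ (ψ x)) v, ?_⟩
  exact (congrArg (fun l : E →L[ℂ] E => l v) h1).symm

/-- change of charts in the target -/
noncomputable def TT (E' : Type*) [NormedAddCommGroup E'] [NormedSpace ℂ E']
    {Y : Type*} [TopologicalSpace Y] [ChartedSpace E' Y] {s : ℕ} (y₁ y₂ : Fin s → Y) :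
    (Fin s → E') → (Fin s → E') :=
  fun w j => chartAt E' (y₂ j) ((chartAt E' (y₁ j)).symm (w j))

theorem TT_analyticAt {s : ℕ} {y₁ y₂ : Fin s → Y} {p : Fin s → Y}
    (h₁ : ∀ j, p j ∈ (chartAt E' (y₁ j)).source) (h₂ : ∀ j, p j ∈ (chartAt E' (y₂ j)).source) :
    AnalyticAt ℂ (TT E' y₁ y₂) (fun j => chartAt E' (y₁ j) (p j)) := by
  have : CompleteSpace E' := FiniteDimensional.complete ℂ E'
  rw [analyticAt_pi_iff]
  intro j
  have h3 : AnalyticAt ℂ (rdd E' E' (y₁ j) (y₂ j) (id : Y → Y)) (chartAt E' (y₁ j) (p j)) :=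
    rdd_analyticAt contMDiff_id ((chartAt E' (y₁ j)).map_source (h₁ j)) (by
      rw [(chartAt E' (y₁ j)).left_inv (h₁ j)]
      exact h₂ j)
  have h4 : AnalyticAt ℂ (fun w : Fin s → E' => w j) (fun j => chartAt E' (y₁ j) (p j)) :=
    (ContinuousLinearMap.proj (R := ℂ) (φ := fun _ : Fin s => E') j).analyticAt _
  exact h3.comp_of_eq h4 rfl

theorem TT_apply {s : ℕ} {y₁ y₂ : Fin s → Y} {p : Fin s → Y}
    (h₁ : ∀ j, p j ∈ (chartAt E' (y₁ j)).source) :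
    TT E' y₁ y₂ (fun j => chartAt E' (y₁ j) (p j)) = fun j => chartAt E' (y₂ j) (p j) := by
  funext j
  simp only [TT]
  rw [(chartAt E' (y₁ j)).left_inv (h₁ j)]

theorem TT_inverse {s : ℕ} {y₁ y₂ : Fin s → Y} {p : Fin s → Y}
    (h₁ : ∀ j, p j ∈ (chartAt E' (y₁ j)).source) (h₂ : ∀ j, p j ∈ (chartAt E' (y₂ j)).source) :
    (fderiv ℂ (TT E' y₂ y₁) (fun j => chartAt E' (y₂ j) (p j))) ∘L
      (fderiv ℂ (TT E' y₁ y₂) (fun j => chartAt E' (y₁ j) (p j))) =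
      ContinuousLinearMap.id ℂ (Fin s → E') := by
  have h3 : TT E' y₂ y₁ ∘ TT E' y₁ y₂ =ᶠ[𝓝 (fun j => chartAt E' (y₁ j) (p j))] id := by
    have h4 : ∀ j, ∀ᶠ w : Fin s → E' in 𝓝 (fun j => chartAt E' (y₁ j) (p j)),
        w j ∈ (chartAt E' (y₁ j)).target ∧
          (chartAt E' (y₁ j)).symm (w j) ∈ (chartAt E' (y₂ j)).source := by
      intro j
      have h5 : (chartAt E' (y₁ j)).target ∩ (chartAt E' (y₁ j)).symm ⁻¹'
          (chartAt E' (y₂ j)).source ∈ 𝓝 (chartAt E' (y₁ j) (p j)) := by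
        refine ((chartAt E' (y₁ j)).isOpen_inter_preimage_symm
          (chartAt E' (y₂ j)).open_source).mem_nhds ⟨(chartAt E' (y₁ j)).map_source (h₁ j), ?_⟩
        change (chartAt E' (y₁ j)).symm (chartAt E' (y₁ j) (p j)) ∈ (chartAt E' (y₂ j)).source
        rw [(chartAt E' (y₁ j)).left_inv (h₁ j)]
        exact h₂ j
      have h6 : ContinuousAt (fun w : Fin s → E' => w j)
          (fun j => chartAt E' (y₁ j) (p j)) := (continuous_apply j).continuousAt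
      exact h6.eventually_mem h5
    filter_upwards [eventually_all.2 h4] with w hw
    funext j
    simp only [TT, Function.comp, id]
    rw [(chartAt E' (y₂ j)).left_inv (hw j).2, (chartAt E' (y₁ j)).right_inv (hw j).1]
  have h6 : DifferentiableAt ℂ (TT E' y₁ y₂) (fun j => chartAt E' (y₁ j) (p j)) :=
    (TT_analyticAt h₁ h₂).differentiableAt
  have h7 : DifferentiableAt ℂ (TT E' y₂ y₁)
      (TT E' y₁ y₂ (fun j => chartAt E' (y₁ j) (p j))) := by
    rw [TT_apply h₁]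
    exact (TT_analyticAt h₂ h₁).differentiableAt
  have h8 := fderiv_comp _ h7 h6
  rw [TT_apply h₁, h3.fderiv_eq, fderiv_id] at h8
  exact h8.symm

theorem rr_target {s : ℕ} {g : Fin s → X → Y} {y₁ y₂ : Fin s → Y}
    (hg : ∀ j, ContMDiff 𝓘(ℂ, E) 𝓘(ℂ, E') ω (g j)) {ψ : X → X}
    (hψ : ContMDiff 𝓘(ℂ, E) 𝓘(ℂ, E) ω ψ) {x' x : X}
    (hx : x ∈ (chartAt E x').source)
    (h₁ : ∀ j, g j (ψ x) ∈ (chartAt E' (y₁ j)).source)
    (h₂ : ∀ j, g j (ψ x) ∈ (chartAt E' (y₂ j)).source) :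
    fderiv ℂ (rr E E' g y₂ x' ψ) (chartAt E x' x) =
      (fderiv ℂ (TT E' y₁ y₂) (fun j => chartAt E' (y₁ j) (g j (ψ x)))) ∘L
        (fderiv ℂ (rr E E' g y₁ x' ψ) (chartAt E x' x)) := by
  have h3 : rr E E' g y₂ x' ψ =ᶠ[𝓝 (chartAt E x' x)] TT E' y₁ y₂ ∘ rr E E' g y₁ x' ψ := by
    have h4 : ∀ j, ∀ᶠ v in 𝓝 (chartAt E x' x),
        g j (ψ ((chartAt E x').symm v)) ∈ (chartAt E' (y₁ j)).source := by
      intro j
      have hc : ContinuousAt (fun v => g j (ψ ((chartAt E x').symm v))) (chartAt E x' x) := by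
        refine ContinuousAt.comp (g := fun z => g j (ψ z))
          ((hg j).continuous.comp hψ.continuous).continuousAt ?_
        exact (chartAt E x').continuousAt_symm ((chartAt E x').map_source hx)
      refine hc.eventually_mem ((chartAt E' (y₁ j)).open_source.mem_nhds ?_)
      rw [(chartAt E x').left_inv hx]
      exact h₁ j
    filter_upwards [eventually_all.2 h4] with v hv
    funext j
    simp only [rr, RR, TT, Function.comp]
    rw [(chartAt E' (y₁ j)).left_inv (hv j)]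
  have h5 : rr E E' g y₁ x' ψ (chartAt E x' x) = fun j => chartAt E' (y₁ j) (g j (ψ x)) := by
    funext j
    simp only [rr, RR]
    rw [(chartAt E x').left_inv hx]
  have h6 : DifferentiableAt ℂ (TT E' y₁ y₂) (rr E E' g y₁ x' ψ (chartAt E x' x)) := by
    rw [h5]
    exact (TT_analyticAt h₁ h₂).differentiableAt
  have h7 : DifferentiableAt ℂ (rr E E' g y₁ x' ψ) (chartAt E x' x) :=
    (rr_analyticAt' hg hψ hx h₁).differentiableAt
  rw [h3.fderiv_eq, fderiv_comp _ h6 h7, h5]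

end Pool.Agent.NonTame
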