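import Pool.Agent.Lib_MP_884f32_an.Robust2
import Pool.Agent.Lib_MP_884f32_an.Auto

/-! Countably many certificates of nondegeneracy for automorphisms. -/

open Filter Metric Set Topology
open scoped Manifold ContDiff

set_option linter.unusedSectionVars false

namespace Pool.Agent.NonTame

theorem exists_cover2 {E : Type*} [NormedAddCommGroup E] [NormedSpace ℂ E]
    [FiniteDimensional ℂ E]
    (X : Type*) [TopologicalSpace X] [ChartedSpace E X] [T2Space X] [SecondCountableTopology X]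
    [Nonempty X] :
    ∃ (Q : ℕ → Set X) (q : ℕ → X), (∀ j, IsClosed (Q j)) ∧
      (∀ j, Q j ⊆ (chartAt E (q j)).source) ∧ ∀ x, ∃ j, Q j ∈ 𝓝 x := by
  have hlcp : LocallyCompactSpace X := by
    have : ProperSpace E := FiniteDimensional.proper ℂ E
    exact ChartedSpace.locallyCompactSpace E X
  have hK : ∀ x : X, ∃ K ∈ 𝓝 x, K ⊆ (chartAt E x).source ∧ IsCompact K := fun x =>
    local_compact_nhds ((chartAt E x).open_source.mem_nhds (mem_chart_source E x))
  choose K hKn hKs hKc using hK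
  obtain ⟨s, hs, hsu⟩ := TopologicalSpace.countable_cover_nhds (f := fun x => interior (K x))
    (fun x => interior_mem_nhds.2 (hKn x))
  have hne : s.Nonempty := by
    by_contra hem
    rw [not_nonempty_iff_eq_empty] at hem
    rw [hem] at hsu
    have : (Classical.arbitrary X) ∈ (univ : Set X) := mem_univ _
    rw [← hsu] at this
    simp at this
  obtain ⟨q, hq⟩ := hs.exists_eq_range hne
  refine ⟨fun j => K (q j), q, fun j => (hKc _).isClosed, fun j => hKs _, ?_⟩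
  intro x
  have : x ∈ (univ : Set X) := mem_univ _
  rw [← hsu, mem_iUnion₂] at this
  obtain ⟨y, hy, hxy⟩ := this
  rw [hq] at hy
  obtain ⟨j, hj⟩ := hy
  refine ⟨j, ?_⟩
  change K (q j) ∈ 𝓝 x
  rw [hj]
  exact mem_interior_iff_mem_nhds.1 hxy

variable {E : Type*} [NormedAddCommGroup E] [NormedSpace ℂ E] [FiniteDimensional ℂ E]
variable {X : Type*} [TopologicalSpace X] [ChartedSpace E X] [IsManifold 𝓘(ℂ, E) ω X]
variable {E' : Type*} [NormedAddCommGroup E'] [NormedSpace ℂ E'] [FiniteDimensional ℂ E']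
variable {Y : Type*} [MetricSpace Y] [ChartedSpace E' Y] [IsManifold 𝓘(ℂ, E') ω Y]

/-- data certifying nondegeneracy -/
structure Cert (E E' : Type*) [NormedAddCommGroup E] [NormedSpace ℂ E]
    [NormedAddCommGroup E'] [NormedSpace ℂ E']
    (X : Type*) [TopologicalSpace X] [ChartedSpace E X] (Y : Type*) [TopologicalSpace Y]
    [ChartedSpace E' Y] (s m : ℕ) where
  g : Fin s → X → Y
  xc : X
  x : X
  y : Fin s → Y
  Q : Fin s → Set Y
  L : (Fin s → E') →L[ℂ] (Fin m → ℂ)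
  i : (Fin m → ℂ) →L[ℂ] E
  e : ℝ
  hg : ∀ j, ContMDiff 𝓘(ℂ, E) 𝓘(ℂ, E') ω (g j)
  hx : x ∈ (chartAt E xc).source
  hQc : ∀ j, IsClosed (Q j)
  hQs : ∀ j, Q j ⊆ (chartAt E' (y j)).source
  he : 0 < e

/-- the automorphism `ψ` satisfies the certificate -/
def Cert.Sat {s m : ℕ} (t : Cert E E' X Y s m) (ψ : X → X) : Prop :=
  (∀ j, t.g j (ψ t.x) ∈ t.Q j) ∧
    t.e ≤ ‖(t.L ∘L fderiv ℂ (rr E E' t.g t.y t.xc ψ) (chartAt E t.xc t.x) ∘L t.i).det‖

theorem cert_nd {s m : ℕ} {t : Cert E E' X Y s m} {ι : Type*} {𝒰 : Ultrafilter ι}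
    {ψ : ι → X → X} (hψ : ∀ k, ContMDiff 𝓘(ℂ, E) 𝓘(ℂ, E) ω (ψ k)) {e : X → X}
    (hcc : ∀ j, Tendsto (fun q : ι × X => t.g j (ψ q.1 q.2)) ((𝒰 : Filter ι) ×ˢ 𝓝 t.x)
      (𝓝 (t.g j (e t.x))))
    (hs : ∀ᶠ k in (𝒰 : Filter ι), t.Sat (ψ k)) : NDq E E' 𝒰 ψ t.g m e t.x := by
  have hmem : ∀ j, t.g j (e t.x) ∈ t.Q j := by
    intro j
    refine (t.hQc j).mem_of_tendsto (cc_pointwise (F := fun k x => t.g j (ψ k x)) (hcc j)) ?_
    filter_upwards [hs] with k hk
    exact hk.1 j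
  have hy : ∀ j, t.g j (e t.x) ∈ (chartAt E' (t.y j)).source := fun j => t.hQs j (hmem j)
  obtain ⟨R, hR, M, hRt, -, hev⟩ := exists_good_ball2 hψ t.hg t.hx hy hcc univ_mem
  obtain ⟨D, hD⟩ := exists_lim_fderiv (𝒰 := 𝒰) (F := fun k => rr E E' t.g t.y t.xc (ψ k))
    (a := chartAt E t.xc t.x) (M := M) hR (hev.mono fun k hk => ⟨hk.1, hk.2.1⟩)
    (x := chartAt E t.xc t.x) (mem_ball_self (half_pos hR))
  refine ⟨t.xc, t.y, t.hx, hy, D, hD, t.L, ?_⟩
  have hcl : Continuous fun A : E →L[ℂ] (Fin s → E') => (t.L ∘L A ∘L t.i).det :=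
    ContinuousLinearMap.continuous_det.comp
      (continuous_const.clm_comp (continuous_id.clm_comp continuous_const))
  have h1 : Tendsto (fun k => ‖(t.L ∘L fderiv ℂ (rr E E' t.g t.y t.xc (ψ k))
      (chartAt E t.xc t.x) ∘L t.i).det‖) 𝒰 (𝓝 ‖(t.L ∘L D ∘L t.i).det‖) :=
    ((hcl.tendsto D).comp hD).norm
  have h2 : t.e ≤ ‖(t.L ∘L D ∘L t.i).det‖ := ge_of_tendsto h1 (hs.mono fun k hk => hk.2)
  have h3 : ((t.L ∘L D) ∘L t.i).det ≠ 0 := by
    intro h4
    have h5 : (t.L ∘L D ∘L t.i).det = 0 := h4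
    rw [h5, norm_zero] at h2
    linarith [t.he]
  exact surjective_of_det h3

theorem exists_certs [T2Space X] [SecondCountableTopology X] [SecondCountableTopology Y]
    {x₀ : X} {m : ℕ} {xs : X} (hxs : xs ∈ connectedComponent x₀) (hr : HasRank E E' Y m xs) :
    ∃ (s : ℕ) (T : ℕ → Cert E E' X Y s m), (∀ i, (T i).x ∈ connectedComponent x₀) ∧
      ∀ ψ : X ≃ₘ^ω⟮𝓘(ℂ, E), 𝓘(ℂ, E)⟯ X, ∃ i, (T i).Sat (ψ : X → X) := by
  classical
  have hlc : LocallyConnectedSpace X := ChartedSpace.locallyConnectedSpace E X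
  have hid : ContMDiff 𝓘(ℂ, E) 𝓘(ℂ, E) ω (id : X → X) := contMDiff_id
  have hcE' : CompleteSpace E' := FiniteDimensional.complete ℂ E'
  obtain ⟨s, g, y₀, hg, hy₀, hrk⟩ := hr
  set X₀ := connectedComponent x₀ with hX₀
  have hX₀o : IsOpen X₀ := isOpen_connectedComponent
  have hneX : Nonempty X := ⟨x₀⟩
  by_cases hneY : Nonempty Y
  swap
  · -- no points in Y: then s = 0 and everything is trivial
    have hs0 : s = 0 := by
      by_contra hs
      exact hneY ⟨g ⟨0, Nat.pos_of_ne_zero hs⟩ xs⟩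
    subst hs0
    have hm0 : m = 0 := by
      obtain ⟨Λ, hΛ⟩ := hrk
      by_contra hm
      obtain ⟨v, hv⟩ := hΛ (fun _ => 1)
      have h1 : (fderiv ℂ (rr E E' g y₀ xs (id : X → X)) (chartAt E xs xs)) v = 0 :=
        Subsingleton.elim _ _
      have h2 : Λ ((fderiv ℂ (rr E E' g y₀ xs (id : X → X)) (chartAt E xs xs)) v) =
        fun _ => 1 := hv
      rw [h1, map_zero] at h2
      have h3 := congrFun h2 ⟨0, Nat.pos_of_ne_zero hm⟩
      simp at h3
    subst hm0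
    refine ⟨0, fun _ => ⟨g, x₀, x₀, y₀, fun j => j.elim0, 0, 0, 1, hg, mem_chart_source E x₀,
      fun j => j.elim0, fun j => j.elim0, one_pos⟩, fun _ => mem_connectedComponent, ?_⟩
    intro ψ
    refine ⟨0, fun j => j.elim0, ?_⟩
    have : ∀ A : (Fin 0 → ℂ) →L[ℂ] (Fin 0 → ℂ), A.det = 1 := by
      intro A
      have h1 : A = ContinuousLinearMap.id ℂ (Fin 0 → ℂ) := by
        ext1 v
        exact Subsingleton.elim _ _
      rw [h1]
      exact det_id_clm
    rw [this]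
    simp
  obtain ⟨QX, qX, hQXc, hQXs, hQXn⟩ := exists_cover2 (E := E) X
  obtain ⟨QY, qY, hQYc, hQYs, hQYn⟩ := exists_cover2 (E := E') Y
  let d : ℕ → X := TopologicalSpace.denseSeq X
  have hdd : DenseRange d := TopologicalSpace.denseRange_denseSeq X
  -- automorphisms reaching the components of the orbit
  have hφ : ∀ l : ℕ, ∃ φ : X ≃ₘ^ω⟮𝓘(ℂ, E), 𝓘(ℂ, E)⟯ X,
      (∃ φ' : X ≃ₘ^ω⟮𝓘(ℂ, E), 𝓘(ℂ, E)⟯ X, d l ∈ φ' '' X₀) → d l ∈ φ '' X₀ := by
    intro l
    by_cases h : ∃ φ' : X ≃ₘ^ω⟮𝓘(ℂ, E), 𝓘(ℂ, E)⟯ X, d l ∈ φ' '' X₀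
    · obtain ⟨φ', hφ'⟩ := h
      exact ⟨φ', fun _ => hφ'⟩
    · exact ⟨Diffeomorph.refl _ _ _, fun h' => absurd h' h⟩
  choose φ hφ using hφ
  have hp1 : ProperSpace ((Fin s → E') →L[ℂ] (Fin m → ℂ)) := FiniteDimensional.proper ℂ _
  have hp2 : ProperSpace ((Fin m → ℂ) →L[ℂ] E) := FiniteDimensional.proper ℂ _
  let Z := ((Fin s → E') →L[ℂ] (Fin m → ℂ)) × ((Fin m → ℂ) →L[ℂ] E)
  let dz : ℕ → Z := TopologicalSpace.denseSeq Z
  have hdz : DenseRange dz := TopologicalSpace.denseRange_denseSeq Z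
  let J := {q : (ℕ × ℕ × ℕ × ℕ × ℕ) × (Fin s → ℕ) //
    d q.1.2.2.1 ∈ X₀ ∧ d q.1.2.2.1 ∈ (chartAt E (qX q.1.2.1)).source}
  let C : J → Cert E E' X Y s m := fun q =>
    { g := fun j => g j ∘ (φ q.1.1.1).symm
      xc := qX q.1.1.2.1
      x := d q.1.1.2.2.1
      y := fun j => qY (q.1.2 j)
      Q := fun j => QY (q.1.2 j)
      L := (dz q.1.1.2.2.2.1).1
      i := (dz q.1.1.2.2.2.1).2
      e := 1 / ((q.1.1.2.2.2.2 : ℝ) + 1)
      hg := fun j => (hg j).comp (φ q.1.1.1).symm.contMDiff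
      hx := q.2.2
      hQc := fun j => hQYc _
      hQs := fun j => hQYs _
      he := by positivity }
  have hCx : ∀ q, (C q).x ∈ X₀ := fun q => q.2.1
  have main : ∀ ψ : X ≃ₘ^ω⟮𝓘(ℂ, E), 𝓘(ℂ, E)⟯ X, ∃ q, (C q).Sat (ψ : X → X) := by
    intro ψ
    -- the right automorphism
    have hop : IsOpen (ψ '' X₀) := ψ.toHomeomorph.isOpenMap X₀ hX₀o
    obtain ⟨l, hl⟩ := hdd.exists_mem_open hop ⟨ψ x₀, x₀, mem_connectedComponent, rfl⟩
    have hl2 := hφ l ⟨ψ, hl⟩
    obtain ⟨a, ha, hal⟩ := hl2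
    obtain ⟨b, hb, hbl⟩ := hl
    let η : X ≃ₘ^ω⟮𝓘(ℂ, E), 𝓘(ℂ, E)⟯ X := ψ.trans (φ l).symm
    set p : X := ψ.symm (φ l xs) with hp
    have hηp : (φ l).symm (ψ p) = xs := by
      rw [hp, ψ.apply_symm_apply, (φ l).symm_apply_apply]
    have hpX₀ : p ∈ X₀ := by
      have h1 : φ l xs ∈ connectedComponent (φ l a) := by
        refine (φ l).continuous.mapsTo_connectedComponent a ?_
        rw [← connectedComponent_eq ha]
        exact hxs
      rw [hal, ← hbl] at h1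
      have h2 := ψ.symm.continuous.mapsTo_connectedComponent (ψ b) h1
      rw [ψ.symm_apply_apply, ← connectedComponent_eq hb] at h2
      exact h2
    -- charts
    have hjy : ∀ j, ∃ i, QY i ∈ 𝓝 (g j xs) := fun j => hQYn _
    choose jy hjy using hjy
    obtain ⟨jc, hjc⟩ := hQXn p
    have hpc : p ∈ (chartAt E (qX jc)).source := hQXs jc (mem_of_mem_nhds hjc)
    let y : Fin s → Y := fun j => qY (jy j)
    have hy : ∀ j, g j xs ∈ (chartAt E' (y j)).source := fun j =>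
      hQYs _ (mem_of_mem_nhds (hjy j))
    let g' : Fin s → X → Y := fun j => g j ∘ (φ l).symm
    have hg' : ∀ j, ContMDiff 𝓘(ℂ, E) 𝓘(ℂ, E') ω (g' j) := fun j =>
      (hg j).comp (φ l).symm.contMDiff
    have hxss : xs ∈ (chartAt E xs).source := mem_chart_source E xs
    -- rank at p in the new charts
    have hηm : ContMDiff 𝓘(ℂ, E) 𝓘(ℂ, E) ω (fun x => (φ l).symm (ψ x)) :=
      (φ l).symm.contMDiff.comp ψ.contMDiff
    have hη'm : ContMDiff 𝓘(ℂ, E) 𝓘(ℂ, E) ω (fun x => ψ.symm (φ l x)) :=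
      ψ.symm.contMDiff.comp (φ l).contMDiff
    have hrk2 : Rk m (fderiv ℂ (rr E E' g' y (qX jc) ψ) (chartAt E (qX jc) p)) := by
      have e0 := rr_target (E := E) hg hid (y₁ := y₀) (y₂ := y) hxss hy₀ hy
      have hr3 : Rk m (fderiv ℂ (rr E E' g y xs (id : X → X)) (chartAt E xs xs)) := by
        rw [e0]
        have := rk_comp (B := ContinuousLinearMap.id ℂ E) (TT_inverse (E' := E') hy₀ hy)
          Function.surjective_id hrk
        exact this
      have e1 := rr_comp (E := E) hg (y := y) hηm hid (x₁ := qX jc) (z₁ := xs) (x := p) hpc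
        (by rw [hηp]; exact hxss) (by intro j; rw [hηp]; exact hy j)
      have e2 : rr E E' g y (qX jc) ((id : X → X) ∘ fun x => (φ l).symm (ψ x)) =
          rr E E' g' y (qX jc) ψ := rfl
      rw [e2] at e1
      rw [e1]
      have e3 : chartAt E xs ((fun x => (φ l).symm (ψ x)) p) = chartAt E xs xs := by
        simp only [hηp]
      rw [e3]
      have e4 := rdd_surjective (E := E) hηm hη'm
        (fun x => by simp) (fun x => by simp) (x₁ := qX jc)
        (z₁ := xs) (x := p) hpc (by simp only [hηp]; exact hxss)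
      exact rk_comp (T := ContinuousLinearMap.id ℂ (Fin s → E'))
        (T' := ContinuousLinearMap.id ℂ (Fin s → E')) (by ext1; rfl) e4 hr3
    obtain ⟨Λ, hΛ⟩ := hrk2
    obtain ⟨ι', hι'⟩ := exists_slice hΛ
    set D := fderiv ℂ (rr E E' g' y (qX jc) ψ) (chartAt E (qX jc) p) with hD
    -- move Λ, ι' into the dense sequence
    have hopen1 : IsOpen {w : Z | (w.1 ∘L D ∘L w.2).det ≠ 0} := by
      have hc1 : Continuous fun w : Z => (w.1 ∘L D ∘L w.2).det :=
        ContinuousLinearMap.continuous_det.comp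
          (continuous_fst.clm_comp (continuous_const.clm_comp continuous_snd))
      exact isOpen_ne_fun hc1 continuous_const
    have hne1 : (Λ, ι') ∈ {w : Z | (w.1 ∘L D ∘L w.2).det ≠ 0} := by
      change (Λ ∘L D ∘L ι').det ≠ 0
      have : Λ ∘L D ∘L ι' = ContinuousLinearMap.id ℂ (Fin m → ℂ) := hι'
      rw [this, det_id_clm]
      exact one_ne_zero
    obtain ⟨jz, hjz⟩ := hdz.exists_mem_open hopen1 ⟨_, hne1⟩
    -- move the point into the dense sequence
    have han : AnalyticAt ℂ (rr E E' g' y (qX jc) ψ) (chartAt E (qX jc) p) := by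
      refine rr_analyticAt' hg' ψ.contMDiff hpc ?_
      intro j
      change g j ((φ l).symm (ψ p)) ∈ _
      rw [hηp]
      exact hy j
    have hcont : ContinuousAt (fun x => ((dz jz).1 ∘L
        fderiv ℂ (rr E E' g' y (qX jc) ψ) (chartAt E (qX jc) x) ∘L (dz jz).2).det) p := by
      have h1 : ContinuousAt (fun x => fderiv ℂ (rr E E' g' y (qX jc) ψ)
          (chartAt E (qX jc) x)) p :=
        ContinuousAt.comp (g := fderiv ℂ (rr E E' g' y (qX jc) ψ)) han.fderiv.continuousAt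
          ((chartAt E (qX jc)).continuousAt hpc)
      exact ContinuousLinearMap.continuous_det.continuousAt.comp
        (continuousAt_const.clm_comp (h1.clm_comp continuousAt_const))
    have hQn : ∀ᶠ x in 𝓝 p, ∀ j, g' j (ψ x) ∈ QY (jy j) := by
      rw [eventually_all]
      intro j
      have h1 : ContinuousAt (fun x => g' j (ψ x)) p :=
        ((hg' j).continuous.comp ψ.continuous).continuousAt
      refine h1.eventually_mem ?_
      change QY (jy j) ∈ 𝓝 (g j ((φ l).symm (ψ p)))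
      rw [hηp]
      exact hjy j
    have hall : ∀ᶠ x in 𝓝 p, (((dz jz).1 ∘L
        fderiv ℂ (rr E E' g' y (qX jc) ψ) (chartAt E (qX jc) x) ∘L (dz jz).2).det ≠ 0 ∧
        (∀ j, g' j (ψ x) ∈ QY (jy j))) ∧ x ∈ X₀ ∧ x ∈ (chartAt E (qX jc)).source := by
      filter_upwards [hcont.eventually_ne hjz, hQn, hX₀o.mem_nhds hpX₀,
        (chartAt E (qX jc)).open_source.mem_nhds hpc] with x h1 h2 h3 h4
      exact ⟨⟨h1, h2⟩, h3, h4⟩
    obtain ⟨V, hVsub, hVo, hpV⟩ := _root_.mem_nhds_iff.1 hall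
    obtain ⟨jx, hjx⟩ := hdd.exists_mem_open hVo ⟨p, hpV⟩
    obtain ⟨⟨hx1, hx2⟩, hx3, hx4⟩ := hVsub hjx
    obtain ⟨n, hn⟩ := exists_nat_one_div_lt (norm_pos_iff.2 hx1)
    refine ⟨⟨((l, jc, jx, jz, n), jy), hx3, hx4⟩, hx2, ?_⟩
    exact hn.le
  obtain ⟨q₀, -⟩ := main (Diffeomorph.refl _ _ _)
  have hneJ : Nonempty J := ⟨q₀⟩
  obtain ⟨f, hf⟩ := exists_surjective_nat J
  refine ⟨s, fun i => C (f i), fun i => hCx _, fun ψ => ?_⟩
  obtain ⟨q, hq⟩ := main ψ
  obtain ⟨i, rfl⟩ := hf q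
  exact ⟨i, hq⟩

end Pool.Agent.NonTame
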