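import Pool.Agent.Lib_MP_884f32_an.Local

/-! Holomorphic curves in a complex manifold and maps which send holomorphic curves to
holomorphic curves. -/

open Filter Metric Set Topology
open scoped Manifold ContDiff

set_option linter.unusedSectionVars false

namespace Pool.Agent.NonTame

variable {E : Type*} [NormedAddCommGroup E] [NormedSpace ℂ E] [FiniteDimensional ℂ E]
variable {X : Type*} [MetricSpace X] [ChartedSpace E X] [IsManifold 𝓘(ℂ, E) ω X]

theorem chart_mdiff (z : X) :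
    MDifferentiableOn 𝓘(ℂ, E) 𝓘(ℂ, E) (chartAt E z) (chartAt E z).source := by
  have h : IsManifold 𝓘(ℂ, E) 1 X := IsManifold.of_le (n := ω) le_top
  exact mdifferentiableOn_atlas (chart_mem_atlas E z)

theorem chart_symm_mdiff (z : X) :
    MDifferentiableOn 𝓘(ℂ, E) 𝓘(ℂ, E) (chartAt E z).symm (chartAt E z).target := by
  have h : IsManifold 𝓘(ℂ, E) 1 X := IsManifold.of_le (n := ω) le_top
  exact mdifferentiableOn_atlas_symm (chart_mem_atlas E z)

theorem curve_chart {U : Set ℂ} {f : ℂ → X} {z : X}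
    (hf : MDifferentiableOn 𝓘(ℂ, ℂ) 𝓘(ℂ, E) f U) (hm : MapsTo f U (chartAt E z).source) :
    DifferentiableOn ℂ (fun t => chartAt E z (f t)) U := by
  rw [← mdifferentiableOn_iff_differentiableOn]
  exact (chart_mdiff z).comp hf hm

theorem curve_of_chart {U : Set ℂ} {f : ℂ → X} {z : X}
    (hf : DifferentiableOn ℂ (fun t => chartAt E z (f t)) U)
    (hm : MapsTo f U (chartAt E z).source) :
    MDifferentiableOn 𝓘(ℂ, ℂ) 𝓘(ℂ, E) f U := by
  rw [← mdifferentiableOn_iff_differentiableOn] at hf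
  have h1 := (chart_symm_mdiff z).comp hf (fun t ht => (chartAt E z).map_source (hm ht))
  refine h1.congr ?_
  intro t ht
  exact ((chartAt E z).left_inv (hm ht)).symm

theorem curve_limit {ι : Type*} {l : Filter ι} [l.NeBot] {U : Set ℂ} (hU : IsOpen U)
    {f : ι → ℂ → X} {g : ℂ → X}
    (hf : ∀ t ∈ U, ∃ r > 0, ∀ᶠ k in l, MDifferentiableOn 𝓘(ℂ, ℂ) 𝓘(ℂ, E) (f k) (ball t r))
    (hcc : ∀ t ∈ U, Tendsto (fun p : ι × ℂ => f p.1 p.2) (l ×ˢ 𝓝 t) (𝓝 (g t))) :
    MDifferentiableOn 𝓘(ℂ, ℂ) 𝓘(ℂ, E) g U := by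
  intro t ht
  obtain ⟨r₀, hr₀, hf⟩ := hf t ht
  have hgc : ∀ t ∈ U, ContinuousAt g t := by
    intro t ht
    refine continuousAt_of_cc (F := f) (l := l) ?_ (hcc t ht)
    filter_upwards [hU.mem_nhds ht] with x' hx'
    exact cc_pointwise (hcc x' hx')
  set c := chartAt E (g t) with hc
  have hsrc : c.source ∈ 𝓝 (g t) := (chartAt E (g t)).open_source.mem_nhds (mem_chart_source E _)
  have h1 := (hcc t ht).eventually hsrc
  rw [eventually_prod_iff] at h1
  obtain ⟨P, hP, Q, hQ, hPQ⟩ := h1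
  have h2 : ∀ᶠ t' in 𝓝 t, Q t' ∧ g t' ∈ c.source ∧ t' ∈ U ∧ t' ∈ ball t r₀ := by
    filter_upwards [hQ, (hgc t ht).eventually_mem hsrc, hU.mem_nhds ht, ball_mem_nhds t hr₀]
      with t' h1 h2 h3 h4
    exact ⟨h1, h2, h3, h4⟩
  obtain ⟨r, hr, hrb⟩ := Metric.eventually_nhds_iff_ball.1 h2
  have hcc2 : ∀ t' ∈ ball t r, Tendsto (fun p : ι × ℂ => c (f p.1 p.2)) (l ×ˢ 𝓝 t')
      (𝓝 (c (g t'))) := by
    intro t' ht'
    have h3 : ContinuousAt c (g t') := c.continuousAt (hrb t' ht').2.1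
    exact h3.tendsto.comp (hcc t' (hrb t' ht').2.2.1)
  have htlu := tlu_of_cc (F := fun k t' => c (f k t')) (g := fun t' => c (g t'))
    isOpen_ball hcc2
  have hdiff : DifferentiableOn ℂ (fun t' => c (g t')) (ball t r) := by
    refine htlu.differentiableOn ?_ isOpen_ball
    filter_upwards [hf, hP] with k hk hk2
    refine curve_chart (hk.mono fun t' ht' => (hrb t' ht').2.2.2) ?_
    intro t' ht'
    exact hPQ hk2 (hrb t' ht').1
  have h4 : MDifferentiableOn 𝓘(ℂ, ℂ) 𝓘(ℂ, E) g (ball t r) :=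
    curve_of_chart hdiff (fun t' ht' => (hrb t' ht').2.1)
  exact (h4.mdifferentiableAt (ball_mem_nhds t hr)).mdifferentiableWithinAt

/-- maps which are continuous and send holomorphic curves to holomorphic curves -/
def DiscHol (E : Type*) [NormedAddCommGroup E] [NormedSpace ℂ E]
    {X : Type*} [TopologicalSpace X] [ChartedSpace E X] (W : Set X) (h : X → X) : Prop :=
  ContinuousOn h W ∧ ∀ (U : Set ℂ) (f : ℂ → X), IsOpen U →
    MDifferentiableOn 𝓘(ℂ, ℂ) 𝓘(ℂ, E) f U → MapsTo f U W →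
    MDifferentiableOn 𝓘(ℂ, ℂ) 𝓘(ℂ, E) (h ∘ f) U

theorem DiscHol.mono {W W' : Set X} {h : X → X} (hh : DiscHol E W h) (hW : W' ⊆ W) :
    DiscHol E W' h :=
  ⟨hh.1.mono hW, fun U f hU hf hm => hh.2 U f hU hf (hm.mono_right hW)⟩

theorem DiscHol.comp {W V : Set X} {h ψ : X → X} (hh : DiscHol E W h) (hψ : DiscHol E V ψ)
    (hm : MapsTo ψ V W) : DiscHol E V (h ∘ ψ) :=
  ⟨hh.1.comp hψ.1 hm, fun U f hU hf hf2 =>
    hh.2 U (ψ ∘ f) hU (hψ.2 U f hU hf hf2) (hm.comp hf2)⟩

theorem discHol_of_mdiff {ψ : X → X} (hψ : MDifferentiable 𝓘(ℂ, E) 𝓘(ℂ, E) ψ) (W : Set X) :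
    DiscHol E W ψ :=
  ⟨hψ.continuous.continuousOn, fun _ _ _ hf _ => hψ.comp_mdifferentiableOn hf⟩

theorem discHol_limit {ι : Type*} {l : Filter ι} [l.NeBot] {W : Set X} (hW : IsOpen W)
    {ψ : ι → X → X} {g : X → X}
    (hψ : ∀ x ∈ W, ∃ V ∈ 𝓝 x, ∀ᶠ k in l, DiscHol E V (ψ k))
    (hcc : ∀ x ∈ W, Tendsto (fun p : ι × X => ψ p.1 p.2) (l ×ˢ 𝓝 x) (𝓝 (g x))) :
    DiscHol E W g := by
  have hgc : ∀ x ∈ W, ContinuousAt g x := by
    intro x hx
    refine continuousAt_of_cc (F := ψ) (l := l) ?_ (hcc x hx)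
    filter_upwards [hW.mem_nhds hx] with x' hx'
    exact cc_pointwise (hcc x' hx')
  refine ⟨fun x hx => (hgc x hx).continuousWithinAt, ?_⟩
  intro U f hU hf hm
  have hfc : ∀ t ∈ U, ContinuousAt f t := fun t ht =>
    (hf.continuousOn).continuousAt (hU.mem_nhds ht)
  refine curve_limit (l := l) (f := fun k => ψ k ∘ f) hU ?_ ?_
  · intro t ht
    obtain ⟨V, hV, hV2⟩ := hψ (f t) (hm ht)
    have h1 : ∀ᶠ t' in 𝓝 t, f t' ∈ V ∧ t' ∈ U := by
      filter_upwards [(hfc t ht).eventually_mem hV, hU.mem_nhds ht] with t' h1 h2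
      exact ⟨h1, h2⟩
    obtain ⟨r, hr, hrb⟩ := Metric.eventually_nhds_iff_ball.1 h1
    refine ⟨r, hr, ?_⟩
    filter_upwards [hV2] with k hk
    exact hk.2 (ball t r) f isOpen_ball (hf.mono fun t' ht' => (hrb t' ht').2)
      (fun t' ht' => (hrb t' ht').1)
  · intro t ht
    have h1 : Tendsto (fun p : ι × ℂ => (p.1, f p.2)) (l ×ˢ 𝓝 t) (l ×ˢ 𝓝 (f t)) :=
      Tendsto.prodMk tendsto_fst ((hfc t ht).tendsto.comp tendsto_snd)
    exact (hcc (f t) (hm ht)).comp h1

/-- equicontinuity of holomorphic discs in `L` -/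
def HDisc (E : Type*) [NormedAddCommGroup E] [NormedSpace ℂ E]
    {X : Type*} [MetricSpace X] [ChartedSpace E X] (L : Set X) : Prop :=
  ∀ ε > 0, ∃ r > 0, ∀ f : ℂ → X, MDifferentiableOn 𝓘(ℂ, ℂ) 𝓘(ℂ, E) f (ball 0 1) →
    MapsTo f (ball 0 1) L → ∀ t ∈ ball (0 : ℂ) r, dist (f t) (f 0) < ε

theorem HDisc.mono {L L' : Set X} (h : HDisc E L) (hL : L' ⊆ L) : HDisc E L' := by
  intro ε hε
  obtain ⟨r, hr, hf⟩ := h ε hε
  exact ⟨r, hr, fun f hf1 hf2 => hf f hf1 (hf2.mono_right hL)⟩

/-- a chart ball -/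
theorem exists_chart_ball {W : Set X} (hW : IsOpen W) {x : X} (hx : x ∈ W) :
    ∃ R > 0, ball (chartAt E x x) R ⊆ (chartAt E x).target ∧
      MapsTo (chartAt E x).symm (ball (chartAt E x x) R) W := by
  set c := chartAt E x with hc
  have h1 : IsOpen (c.target ∩ c.symm ⁻¹' W) := c.isOpen_inter_preimage_symm hW
  have h2 : c x ∈ c.target ∩ c.symm ⁻¹' W :=
    ⟨mem_chart_target E x, by
      change c.symm (c x) ∈ W
      rw [c.left_inv (mem_chart_source E x)]; exact hx⟩
  obtain ⟨R, hR, hb⟩ := Metric.isOpen_iff.1 h1 _ h2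
  exact ⟨R, hR, fun y hy => (hb hy).1, fun y hy => (hb hy).2⟩

theorem line_curve {x : X} {a v : E} {U : Set ℂ}
    (hU : ∀ t ∈ U, a + t • v ∈ (chartAt E x).target) :
    MDifferentiableOn 𝓘(ℂ, ℂ) 𝓘(ℂ, E) (fun t : ℂ => (chartAt E x).symm (a + t • v)) U := by
  have h1 : MDifferentiableOn 𝓘(ℂ, ℂ) 𝓘(ℂ, E) (fun t : ℂ => a + t • v) U := by
    rw [mdifferentiableOn_iff_differentiableOn]
    exact Differentiable.differentiableOn (by fun_prop)
  exact (chart_symm_mdiff x).comp h1 hU

theorem equicontinuous_of_hdisc {L W : Set X} (hL : HDisc E L) (hW : IsOpen W) {x : X}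
    (hx : x ∈ W) {ε : ℝ} (hε : 0 < ε) :
    ∃ V ∈ 𝓝 x, ∀ ψ : X → X, DiscHol E W ψ → MapsTo ψ W L → ∀ y ∈ V, dist (ψ y) (ψ x) < ε := by
  obtain ⟨r, hr, hf⟩ := hL ε hε
  obtain ⟨R, hR, hRt, hRW⟩ := exists_chart_ball (E := E) hW hx
  set c := chartAt E x with hc
  have hxs : x ∈ c.source := mem_chart_source E x
  refine ⟨c.source ∩ c ⁻¹' ball (c x) (R * r), ?_, ?_⟩
  · refine (c.isOpen_inter_preimage isOpen_ball).mem_nhds ⟨hxs, ?_⟩
    exact mem_ball_self (mul_pos hR hr)
  · intro ψ hψ hψL y hy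
    obtain ⟨hys, hyb⟩ := hy
    change c y ∈ ball (c x) (R * r) at hyb
    rw [mem_ball, dist_eq_norm] at hyb
    by_cases h0 : c y - c x = 0
    · have : y = x := c.injOn hys hxs (sub_eq_zero.1 h0)
      rw [this, dist_self]
      exact hε
    have hn : 0 < ‖c y - c x‖ := norm_pos_iff.2 h0
    set n : ℝ := ‖c y - c x‖ with hndef
    set v : E := ((R / n : ℝ) : ℂ) • (c y - c x) with hv
    have hvn : ‖v‖ = R := by
      rw [hv, norm_smul, Complex.norm_real, Real.norm_eq_abs, abs_of_pos (by positivity),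
        ← hndef]
      field_simp
    have hline : ∀ t ∈ ball (0 : ℂ) 1, c x + t • v ∈ ball (c x) R := by
      intro t ht
      rw [mem_ball_zero_iff] at ht
      rw [mem_ball, dist_eq_norm, add_sub_cancel_left, norm_smul, hvn]
      nlinarith
    have h1 := line_curve (E := E) (x := x) (a := c x) (v := v) (U := ball 0 1)
      (fun t ht => hRt (hline t ht))
    have h2 := hψ.2 (ball 0 1) _ isOpen_ball h1 (fun t ht => hRW (hline t ht))
    have h3 := hf _ h2 (fun t ht => hψL (hRW (hline t ht))) ((n / R : ℝ) : ℂ) (by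
      rw [mem_ball_zero_iff, Complex.norm_real, Real.norm_eq_abs, abs_of_pos (by positivity)]
      rw [div_lt_iff₀ hR]
      linarith)
    simp only [Function.comp] at h3
    rw [← hc] at h3
    have h4 : c x + ((n / R : ℝ) : ℂ) • v = c y := by
      rw [hv, smul_smul]
      have : ((n / R : ℝ) : ℂ) * ((R / n : ℝ) : ℂ) = 1 := by
        rw [← Complex.ofReal_mul]
        have : n / R * (R / n) = 1 := by field_simp
        rw [this, Complex.ofReal_one]
      rw [this, one_smul, add_sub_cancel]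
    rw [h4, zero_smul, add_zero, c.left_inv hys, c.left_inv hxs] at h3
    exact h3

theorem cc_of_hdisc {ι : Type*} {𝒰 : Ultrafilter ι} {L W : Set X} (hLc : IsCompact L)
    (hL : HDisc E L) (hW : IsOpen W) {x : X} (hx : x ∈ W) {ψ : ι → X → X}
    (hψ : ∀ᶠ k in (𝒰 : Filter ι), DiscHol E W (ψ k) ∧ MapsTo (ψ k) W L) :
    ∃ y ∈ L, Tendsto (fun p : ι × X => ψ p.1 p.2) ((𝒰 : Filter ι) ×ˢ 𝓝 x) (𝓝 y) := by
  obtain ⟨y, hy, hy2⟩ := exists_ultra_lim 𝒰 (F := fun k => ψ k x) hLc (by
    filter_upwards [hψ] with k hk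
    exact hk.2 hx)
  refine ⟨y, hy, cc_of_equi hy2 ?_⟩
  intro ε hε
  obtain ⟨V, hV, hV2⟩ := equicontinuous_of_hdisc hL hW hx hε
  have h2 : ∀ᶠ p in ((𝒰 : Filter ι) ×ˢ 𝓝 x), p.2 ∈ V := Filter.Eventually.prod_inr hV _
  filter_upwards [hψ.prod_inl (𝓝 x), h2] with p hp1 hp2
  exact hV2 _ hp1.1 hp1.2 _ hp2

/-- identity theorem -/
theorem discHol_eq_id {W : Set X} (hW : IsOpen W) (hWc : IsPreconnected W) {h : X → X}
    (hh : DiscHol E W h) {O : Set X} (hO : IsOpen O) (hOW : (O ∩ W).Nonempty)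
    (hid : ∀ x ∈ O ∩ W, h x = x) : ∀ x ∈ W, h x = x := by
  have hcont : ∀ x ∈ W, ContinuousAt h x := fun x hx => hh.1.continuousAt (hW.mem_nhds hx)
  set S : Set X := {x | ∀ᶠ y in 𝓝 x, h y = y} with hS
  have hSo : IsOpen S := isOpen_setOfPred_eventually_nhds
  have key : W ⊆ S := by
    refine hWc.subset_of_closure_inter_subset hSo ?_ ?_
    · obtain ⟨x, hx⟩ := hOW
      refine ⟨x, hx.2, ?_⟩
      filter_upwards [(hO.inter hW).mem_nhds hx] with y hy
      exact hid y hy
    · rintro x ⟨hxS, hxW⟩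
      have hhx : h x = x := by
        by_contra hne
        have h1 : ∀ᶠ y in 𝓝 x, h y ≠ y :=
          ((hcont x hxW).ne_iff_eventually_ne continuousAt_id).1 hne
        obtain ⟨y, hy1, hy2⟩ := mem_closure_iff_nhds.1 hxS _ h1
        exact hy1 hy2.self_of_nhds
      set c := chartAt E x with hc
      have hxs : x ∈ c.source := mem_chart_source E x
      have h2 : ContinuousAt h x := hcont x hxW
      have h3 : h ⁻¹' c.source ∈ 𝓝 x := by
        refine h2.preimage_mem_nhds ?_
        rw [hhx]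
        exact c.open_source.mem_nhds hxs
      obtain ⟨V, hVsub, hVo, hxV⟩ := _root_.mem_nhds_iff.1 (inter_mem h3 (hW.mem_nhds hxW))
      obtain ⟨R, hR, hRt, hRV⟩ := exists_chart_ball (E := E) hVo hxV
      set B : Set X := c.source ∩ c ⁻¹' ball (c x) R with hB
      have hBo : IsOpen B := c.isOpen_inter_preimage isOpen_ball
      have hxB : x ∈ B := ⟨hxs, mem_ball_self hR⟩
      obtain ⟨s, hsB, hsS⟩ := mem_closure_iff_nhds.1 hxS _ (hBo.mem_nhds hxB)
      have goal : ∀ y ∈ B, h y = y := by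
        intro y hy
        set v : E := c y - c s with hv
        let T : Set ℂ := {t : ℂ | c s + t • v ∈ ball (c x) R}
        have hlc : Continuous fun t : ℂ => c s + t • v := by fun_prop
        have hT : IsOpen T := isOpen_ball.preimage hlc
        have hTconv : Convex ℝ T := by
          intro t₁ ht₁ t₂ ht₂ α β hα hβ hαβ
          have h1 := (convex_ball (c x) R) ht₁ ht₂ hα hβ hαβ
          have h2 : α • (c s + t₁ • v) + β • (c s + t₂ • v) =
              c s + (α • t₁ + β • t₂) • v := by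
            rw [smul_add, smul_add, add_smul, smul_assoc, smul_assoc]
            have : α • c s + β • c s = c s := by rw [← add_smul, hαβ, one_smul]
            calc α • c s + α • t₁ • v + (β • c s + β • t₂ • v)
                = (α • c s + β • c s) + (α • t₁ • v + β • t₂ • v) := by abel
              _ = _ := by rw [this]
          rw [h2] at h1
          exact h1
        have h4 := line_curve (E := E) (x := x) (a := c s) (v := v) (U := T)
          (fun t ht => hRt ht)
        have h5 := hh.2 T _ hT h4 (fun t ht => (hVsub (hRV ht)).2)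
        have h6 : DifferentiableOn ℂ
            (fun t => c (h (c.symm (c s + t • v))) - (c s + t • v)) T := by
          refine DifferentiableOn.sub ?_ (Differentiable.differentiableOn (by fun_prop))
          exact curve_chart (z := x) h5 (fun t ht => (hVsub (hRV ht)).1)
        have h7 : AnalyticOnNhd ℂ (fun t => c (h (c.symm (c s + t • v))) - (c s + t • v)) T :=
          h6.analyticOnNhd hT
        have hs' : c.symm (c s + (0 : ℂ) • v) = s := by
          rw [zero_smul, add_zero]; exact c.left_inv hsB.1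
        have h0T : (0 : ℂ) ∈ T := by
          change c s + (0 : ℂ) • v ∈ ball (c x) R
          rw [zero_smul, add_zero]; exact hsB.2
        have h1T : (1 : ℂ) ∈ T := by
          change c s + (1 : ℂ) • v ∈ ball (c x) R
          rw [one_smul, hv, add_sub_cancel]; exact hy.2
        have h8 : (fun t => c (h (c.symm (c s + t • v))) - (c s + t • v)) =ᶠ[𝓝 (0 : ℂ)] 0 := by
          have h9 : ContinuousAt (fun t : ℂ => c.symm (c s + t • v)) 0 := by
            refine ContinuousAt.comp (g := c.symm) ?_ hlc.continuousAt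
            exact c.continuousAt_symm (hRt h0T)
          have h10 : ∀ᶠ t in 𝓝 (0 : ℂ), h (c.symm (c s + t • v)) = c.symm (c s + t • v) := by
            have := h9.tendsto
            rw [hs'] at this
            exact this.eventually hsS
          filter_upwards [h10, hT.mem_nhds h0T] with t ht htT
          rw [ht, c.right_inv (hRt htT), sub_self]
          rfl
        have h11 := h7.eqOn_zero_of_preconnected_of_eventuallyEq_zero hTconv.isPreconnected
          h0T h8 h1T
        simp only [one_smul, Pi.zero_apply] at h11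
        rw [hv, add_sub_cancel, sub_eq_zero, c.left_inv hy.1] at h11
        have h12 : h y ∈ c.source := by
          have := (hVsub (hRV h1T)).1
          rw [one_smul, hv, add_sub_cancel] at this
          change h (c.symm (c y)) ∈ c.source at this
          rwa [c.left_inv hy.1] at this
        exact c.injOn h12 hy.1 h11
      filter_upwards [hBo.mem_nhds hxB] with y hy
      exact goal y hy
  intro x hx
  exact (key hx).self_of_nhds

end Pool.Agent.NonTame
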