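import Pool.Agent.Lib_MP_884f32_an.Brody

/-! Maps between two complex manifolds which send holomorphic curves to holomorphic curves. -/

open Filter Metric Set Topology
open scoped Manifold ContDiff

set_option linter.unusedSectionVars false

namespace Pool.Agent.NonTame

section Charts

variable {E : Type*} [NormedAddCommGroup E] [NormedSpace ℂ E] [FiniteDimensional ℂ E]
variable {X : Type*} [TopologicalSpace X] [ChartedSpace E X] [IsManifold 𝓘(ℂ, E) ω X]

theorem tchart_mdiff (z : X) :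
    MDifferentiableOn 𝓘(ℂ, E) 𝓘(ℂ, E) (chartAt E z) (chartAt E z).source := by
  have h : IsManifold 𝓘(ℂ, E) 1 X := IsManifold.of_le (n := ω) le_top
  exact mdifferentiableOn_atlas (chart_mem_atlas E z)

theorem tchart_symm_mdiff (z : X) :
    MDifferentiableOn 𝓘(ℂ, E) 𝓘(ℂ, E) (chartAt E z).symm (chartAt E z).target := by
  have h : IsManifold 𝓘(ℂ, E) 1 X := IsManifold.of_le (n := ω) le_top
  exact mdifferentiableOn_atlas_symm (chart_mem_atlas E z)

theorem texists_chart_ball {W : Set X} (hW : IsOpen W) {x : X} (hx : x ∈ W) :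
    ∃ R > 0, ball (chartAt E x x) R ⊆ (chartAt E x).target ∧
      MapsTo (chartAt E x).symm (ball (chartAt E x x) R) W := by
  set c := chartAt E x with hc
  have h1 : IsOpen (c.target ∩ c.symm ⁻¹' W) := c.isOpen_inter_preimage_symm hW
  have h2 : c x ∈ c.target ∩ c.symm ⁻¹' W :=
    ⟨mem_chart_target E x, by
      change c.symm (c x) ∈ W
      rw [c.left_inv (mem_chart_source E x)]; exact hx⟩
  obtain ⟨R, hR, hb⟩ := Metric.isOpen_iff.1 h1 _ h2
  exact ⟨R, hR, fun y hy => (hb hy).1, fun y hy => (hb hy).2⟩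

theorem tline_curve {x : X} {a v : E} {U : Set ℂ}
    (hU : ∀ t ∈ U, a + t • v ∈ (chartAt E x).target) :
    MDifferentiableOn 𝓘(ℂ, ℂ) 𝓘(ℂ, E) (fun t : ℂ => (chartAt E x).symm (a + t • v)) U := by
  have h1 : MDifferentiableOn 𝓘(ℂ, ℂ) 𝓘(ℂ, E) (fun t : ℂ => a + t • v) U := by
    rw [mdifferentiableOn_iff_differentiableOn]
    exact Differentiable.differentiableOn (by fun_prop)
  exact (tchart_symm_mdiff x).comp h1 hU

end Charts

variable {E : Type*} [NormedAddCommGroup E] [NormedSpace ℂ E] [FiniteDimensional ℂ E]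
variable {X : Type*} [TopologicalSpace X] [ChartedSpace E X] [IsManifold 𝓘(ℂ, E) ω X]
variable {E' : Type*} [NormedAddCommGroup E'] [NormedSpace ℂ E'] [FiniteDimensional ℂ E']
variable {Y : Type*} [MetricSpace Y] [ChartedSpace E' Y] [IsManifold 𝓘(ℂ, E') ω Y]

/-- maps which are continuous and send holomorphic curves to holomorphic curves -/
def DHol (E E' : Type*) [NormedAddCommGroup E] [NormedSpace ℂ E]
    [NormedAddCommGroup E'] [NormedSpace ℂ E']
    {X : Type*} [TopologicalSpace X] [ChartedSpace E X]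
    {Y : Type*} [TopologicalSpace Y] [ChartedSpace E' Y] (W : Set X) (h : X → Y) : Prop :=
  ContinuousOn h W ∧ ∀ (U : Set ℂ) (f : ℂ → X), IsOpen U →
    MDifferentiableOn 𝓘(ℂ, ℂ) 𝓘(ℂ, E) f U → MapsTo f U W →
    MDifferentiableOn 𝓘(ℂ, ℂ) 𝓘(ℂ, E') (h ∘ f) U

theorem DHol.mono {W W' : Set X} {h : X → Y} (hh : DHol E E' W h) (hW : W' ⊆ W) :
    DHol E E' W' h :=
  ⟨hh.1.mono hW, fun U f hU hf hm => hh.2 U f hU hf (hm.mono_right hW)⟩

theorem DHol.comp {W V : Set X} {h : X → Y} {ψ : X → X} (hh : DHol E E' W h)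
    (hψ : DHol E E V ψ) (hm : MapsTo ψ V W) : DHol E E' V (h ∘ ψ) :=
  ⟨hh.1.comp hψ.1 hm, fun U f hU hf hf2 =>
    hh.2 U (ψ ∘ f) hU (hψ.2 U f hU hf hf2) (hm.comp hf2)⟩

theorem dHol_of_mdiffOn {ψ : X → Y} {W : Set X}
    (hψ : MDifferentiableOn 𝓘(ℂ, E) 𝓘(ℂ, E') ψ W) : DHol E E' W ψ :=
  ⟨hψ.continuousOn, fun _ _ _ hf hm => hψ.comp hf hm⟩

theorem dHol_self_of_mdiff {ψ : X → X}
    (hψ : MDifferentiable 𝓘(ℂ, E) 𝓘(ℂ, E) ψ) (W : Set X) : DHol E E W ψ :=
  ⟨hψ.continuous.continuousOn, fun _ _ _ hf _ => hψ.comp_mdifferentiableOn hf⟩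

theorem dHol_limit {ι : Type*} {l : Filter ι} [l.NeBot] {W : Set X} (hW : IsOpen W)
    {ψ : ι → X → Y} {g : X → Y}
    (hψ : ∀ x ∈ W, ∃ V ∈ 𝓝 x, ∀ᶠ k in l, DHol E E' V (ψ k))
    (hcc : ∀ x ∈ W, Tendsto (fun p : ι × X => ψ p.1 p.2) (l ×ˢ 𝓝 x) (𝓝 (g x))) :
    DHol E E' W g := by
  have hgc : ∀ x ∈ W, ContinuousAt g x := by
    intro x hx
    refine continuousAt_of_cc (F := ψ) (l := l) ?_ (hcc x hx)
    filter_upwards [hW.mem_nhds hx] with x' hx'
    exact cc_pointwise (hcc x' hx')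
  refine ⟨fun x hx => (hgc x hx).continuousWithinAt, ?_⟩
  intro U f hU hf hm
  have hfc : ∀ t ∈ U, ContinuousAt f t := fun t ht =>
    (hf.continuousOn).continuousAt (hU.mem_nhds ht)
  refine curve_limit (l := l) (f := fun k => ψ k ∘ f) hU ?_ ?_
  · intro t ht
    obtain ⟨V, hV, hV2⟩ := hψ (f t) (hm ht)
    have h1 : ∀ᶠ t' in 𝓝 t, f t' ∈ V ∧ t' ∈ U := by
      filter_upwards [(hfc t ht).eventually_mem hV, hU.mem_nhds ht] with t' h1 h2
      exact ⟨h1, h2⟩
    obtain ⟨r, hr, hrb⟩ := Metric.eventually_nhds_iff_ball.1 h1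
    refine ⟨r, hr, ?_⟩
    filter_upwards [hV2] with k hk
    exact hk.2 (ball t r) f isOpen_ball (hf.mono fun t' ht' => (hrb t' ht').2)
      (fun t' ht' => (hrb t' ht').1)
  · intro t ht
    have h1 : Tendsto (fun p : ι × ℂ => (p.1, f p.2)) (l ×ˢ 𝓝 t) (l ×ˢ 𝓝 (f t)) :=
      Tendsto.prodMk tendsto_fst ((hfc t ht).tendsto.comp tendsto_snd)
    exact (hcc (f t) (hm ht)).comp h1

theorem dequicontinuous_of_hdisc {L : Set Y} {W : Set X} (hL : HDisc E' L) (hW : IsOpen W)
    {x : X} (hx : x ∈ W) {ε : ℝ} (hε : 0 < ε) :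
    ∃ V ∈ 𝓝 x, ∀ ψ : X → Y, DHol E E' W ψ → MapsTo ψ W L → ∀ y ∈ V, dist (ψ y) (ψ x) < ε := by
  obtain ⟨r, hr, hf⟩ := hL ε hε
  obtain ⟨R, hR, hRt, hRW⟩ := texists_chart_ball (E := E) hW hx
  set c := chartAt E x with hc
  have hxs : x ∈ c.source := mem_chart_source E x
  refine ⟨c.source ∩ c ⁻¹' ball (c x) (R * r), ?_, ?_⟩
  · refine (c.isOpen_inter_preimage isOpen_ball).mem_nhds ⟨hxs, ?_⟩
    exact mem_ball_self (mul_pos hR hr)
  · intro ψ hψ hψL y hy
    obtain ⟨hys, hyb⟩ := hy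
    change c y ∈ ball (c x) (R * r) at hyb
    rw [mem_ball, dist_eq_norm] at hyb
    by_cases h0 : c y - c x = 0
    · have : y = x := c.injOn hys hxs (sub_eq_zero.1 h0)
      rw [this, dist_self]
      exact hε
    have hn : 0 < ‖c y - c x‖ := norm_pos_iff.2 h0
    set n : ℝ := ‖c y - c x‖ with hndef
    set v : E := ((R / n : ℝ) : ℂ) • (c y - c x) with hv
    have hvn : ‖v‖ = R := by
      rw [hv, norm_smul, Complex.norm_real, Real.norm_eq_abs, abs_of_pos (by positivity),
        ← hndef]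
      field_simp
    have hline : ∀ t ∈ ball (0 : ℂ) 1, c x + t • v ∈ ball (c x) R := by
      intro t ht
      rw [mem_ball_zero_iff] at ht
      rw [mem_ball, dist_eq_norm, add_sub_cancel_left, norm_smul, hvn]
      nlinarith
    have h1 := tline_curve (E := E) (x := x) (a := c x) (v := v) (U := ball 0 1)
      (fun t ht => hRt (hline t ht))
    have h2 := hψ.2 (ball 0 1) _ isOpen_ball h1 (fun t ht => hRW (hline t ht))
    have h3 := hf _ h2 (fun t ht => hψL (hRW (hline t ht))) ((n / R : ℝ) : ℂ) (by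
      rw [mem_ball_zero_iff, Complex.norm_real, Real.norm_eq_abs, abs_of_pos (by positivity)]
      rw [div_lt_iff₀ hR]
      linarith)
    simp only [Function.comp] at h3
    rw [← hc] at h3
    have h4 : c x + ((n / R : ℝ) : ℂ) • v = c y := by
      rw [hv, smul_smul]
      have : ((n / R : ℝ) : ℂ) * ((R / n : ℝ) : ℂ) = 1 := by
        rw [← Complex.ofReal_mul]
        have : n / R * (R / n) = 1 := by field_simp
        rw [this, Complex.ofReal_one]
      rw [this, one_smul, add_sub_cancel]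
    rw [h4, zero_smul, add_zero, c.left_inv hys, c.left_inv hxs] at h3
    exact h3

theorem dcc_of_hdisc {ι : Type*} {𝒰 : Ultrafilter ι} {L : Set Y} {W : Set X}
    (hLc : IsCompact L) (hL : HDisc E' L) (hW : IsOpen W) {x : X} (hx : x ∈ W) {ψ : ι → X → Y}
    (hψ : ∀ᶠ k in (𝒰 : Filter ι), DHol E E' W (ψ k) ∧ MapsTo (ψ k) W L) :
    ∃ y ∈ L, Tendsto (fun p : ι × X => ψ p.1 p.2) ((𝒰 : Filter ι) ×ˢ 𝓝 x) (𝓝 y) := by
  obtain ⟨y, hy, hy2⟩ := exists_ultra_lim 𝒰 (F := fun k => ψ k x) hLc (by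
    filter_upwards [hψ] with k hk
    exact hk.2 hx)
  refine ⟨y, hy, cc_of_equi hy2 ?_⟩
  intro ε hε
  obtain ⟨V, hV, hV2⟩ := dequicontinuous_of_hdisc (E := E) hL hW hx hε
  have h2 : ∀ᶠ p in ((𝒰 : Filter ι) ×ˢ 𝓝 x), p.2 ∈ V := Filter.Eventually.prod_inr hV _
  filter_upwards [hψ.prod_inl (𝓝 x), h2] with p hp1 hp2
  exact hV2 _ hp1.1 hp1.2 _ hp2

/-- identity theorem -/
theorem dHol_eq {W : Set X} (hW : IsOpen W) (hWc : IsPreconnected W) {h g : X → Y}
    (hh : DHol E E' W h) (hg : DHol E E' W g) {x₀ : X} (hx₀ : x₀ ∈ W)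
    (hid : ∀ᶠ x in 𝓝 x₀, h x = g x) : ∀ x ∈ W, h x = g x := by
  have hcont : ∀ x ∈ W, ContinuousAt h x := fun x hx => hh.1.continuousAt (hW.mem_nhds hx)
  have gcont : ∀ x ∈ W, ContinuousAt g x := fun x hx => hg.1.continuousAt (hW.mem_nhds hx)
  set S : Set X := {x | ∀ᶠ y in 𝓝 x, h y = g y} with hS
  have hSo : IsOpen S := isOpen_setOfPred_eventually_nhds
  have key : W ⊆ S := by
    refine hWc.subset_of_closure_inter_subset hSo ⟨x₀, hx₀, hid⟩ ?_
    rintro x ⟨hxS, hxW⟩
    have hhx : h x = g x := by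
      by_contra hne
      have h1 : ∀ᶠ y in 𝓝 x, h y ≠ g y :=
        ((hcont x hxW).ne_iff_eventually_ne (gcont x hxW)).1 hne
      obtain ⟨y, hy1, hy2⟩ := mem_closure_iff_nhds.1 hxS _ h1
      exact hy1 hy2.self_of_nhds
    set c := chartAt E x with hc
    set c' := chartAt E' (h x) with hc'
    have hxs : x ∈ c.source := mem_chart_source E x
    have hhs : h x ∈ c'.source := mem_chart_source E' (h x)
    have h3 : h ⁻¹' c'.source ∈ 𝓝 x :=
      (hcont x hxW).preimage_mem_nhds (c'.open_source.mem_nhds hhs)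
    have h4 : g ⁻¹' c'.source ∈ 𝓝 x := by
      refine (gcont x hxW).preimage_mem_nhds (c'.open_source.mem_nhds ?_)
      rw [← hhx]
      exact hhs
    obtain ⟨V, hVsub, hVo, hxV⟩ := _root_.mem_nhds_iff.1
      (inter_mem (inter_mem h3 h4) (hW.mem_nhds hxW))
    obtain ⟨R, hR, hRt, hRV⟩ := texists_chart_ball (E := E) hVo hxV
    set B : Set X := c.source ∩ c ⁻¹' ball (c x) R with hB
    have hBo : IsOpen B := c.isOpen_inter_preimage isOpen_ball
    have hxB : x ∈ B := ⟨hxs, mem_ball_self hR⟩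
    obtain ⟨s, hsB, hsS⟩ := mem_closure_iff_nhds.1 hxS _ (hBo.mem_nhds hxB)
    have goal : ∀ y ∈ B, h y = g y := by
      intro y hy
      set v : E := c y - c s with hv
      let T : Set ℂ := {t : ℂ | c s + t • v ∈ ball (c x) R}
      have hlc : Continuous fun t : ℂ => c s + t • v := by fun_prop
      have hT : IsOpen T := isOpen_ball.preimage hlc
      have hTconv : Convex ℝ T := by
        intro t₁ ht₁ t₂ ht₂ α β hα hβ hαβ
        have h1 := (convex_ball (c x) R) ht₁ ht₂ hα hβ hαβ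
        have h2 : α • (c s + t₁ • v) + β • (c s + t₂ • v) =
            c s + (α • t₁ + β • t₂) • v := by
          rw [smul_add, smul_add, add_smul, smul_assoc, smul_assoc]
          have : α • c s + β • c s = c s := by rw [← add_smul, hαβ, one_smul]
          calc α • c s + α • t₁ • v + (β • c s + β • t₂ • v)
              = (α • c s + β • c s) + (α • t₁ • v + β • t₂ • v) := by abel
            _ = _ := by rw [this]
        rw [h2] at h1
        exact h1
      have h4 := tline_curve (E := E) (x := x) (a := c s) (v := v) (U := T)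
        (fun t ht => hRt ht)
      have h5 := hh.2 T _ hT h4 (fun t ht => (hVsub (hRV ht)).2)
      have h5' := hg.2 T _ hT h4 (fun t ht => (hVsub (hRV ht)).2)
      have h6 : DifferentiableOn ℂ
          (fun t => c' (h (c.symm (c s + t • v))) - c' (g (c.symm (c s + t • v)))) T := by
        refine DifferentiableOn.sub ?_ ?_
        · exact curve_chart (z := h x) h5 (fun t ht => (hVsub (hRV ht)).1.1)
        · exact curve_chart (z := h x) h5' (fun t ht => (hVsub (hRV ht)).1.2)
      have h7 : AnalyticOnNhd ℂ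
          (fun t => c' (h (c.symm (c s + t • v))) - c' (g (c.symm (c s + t • v)))) T :=
        h6.analyticOnNhd hT
      have hs' : c.symm (c s + (0 : ℂ) • v) = s := by
        rw [zero_smul, add_zero]; exact c.left_inv hsB.1
      have h0T : (0 : ℂ) ∈ T := by
        change c s + (0 : ℂ) • v ∈ ball (c x) R
        rw [zero_smul, add_zero]; exact hsB.2
      have h1T : (1 : ℂ) ∈ T := by
        change c s + (1 : ℂ) • v ∈ ball (c x) R
        rw [one_smul, hv, add_sub_cancel]; exact hy.2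
      have h8 : (fun t => c' (h (c.symm (c s + t • v))) - c' (g (c.symm (c s + t • v))))
          =ᶠ[𝓝 (0 : ℂ)] 0 := by
        have h9 : ContinuousAt (fun t : ℂ => c.symm (c s + t • v)) 0 := by
          refine ContinuousAt.comp (g := c.symm) ?_ hlc.continuousAt
          exact c.continuousAt_symm (hRt h0T)
        have h10 : ∀ᶠ t in 𝓝 (0 : ℂ), h (c.symm (c s + t • v)) = g (c.symm (c s + t • v)) := by
          have := h9.tendsto
          rw [hs'] at this
          exact this.eventually hsS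
        filter_upwards [h10] with t ht
        rw [ht, sub_self]
        rfl
      have h11 := h7.eqOn_zero_of_preconnected_of_eventuallyEq_zero hTconv.isPreconnected
        h0T h8 h1T
      simp only [one_smul, Pi.zero_apply] at h11
      rw [hv, add_sub_cancel, sub_eq_zero, c.left_inv hy.1] at h11
      have h12 : h y ∈ c'.source ∧ g y ∈ c'.source := by
        have := (hVsub (hRV h1T)).1
        rw [one_smul, hv, add_sub_cancel] at this
        have h13 : c.symm (c y) = y := c.left_inv hy.1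
        rw [← hc, h13] at this
        exact this
      exact c'.injOn h12.1 h12.2 h11
    filter_upwards [hBo.mem_nhds hxB] with y hy
    exact goal y hy
  intro x hx
  exact (key hx).self_of_nhds

end Pool.Agent.NonTame
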