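import Pool.Agent.Lib_MP_884f32_an.Brody

/-! Jacobian determinants in charts and nondegenerate points of a family along an ultrafilter. -/

open Filter Metric Set Topology
open scoped Manifold ContDiff

set_option linter.unusedSectionVars false

namespace Pool.Agent.NonTame

variable {E : Type*} [NormedAddCommGroup E] [NormedSpace ℂ E] [FiniteDimensional ℂ E]
variable {X : Type*} [MetricSpace X] [ChartedSpace E X] [IsManifold 𝓘(ℂ, E) ω X]

/-- the map `ψ` read in the charts at `x'` and `z'` -/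
noncomputable def rd (E : Type*) [NormedAddCommGroup E] [NormedSpace ℂ E]
    {X : Type*} [TopologicalSpace X] [ChartedSpace E X] (x' z' : X) (ψ : X → X) : E → E :=
  fun v => chartAt E z' (ψ ((chartAt E x').symm v))

/-- its Jacobian determinant at the point `x` -/
noncomputable def jac (E : Type*) [NormedAddCommGroup E] [NormedSpace ℂ E]
    {X : Type*} [TopologicalSpace X] [ChartedSpace E X] (x' z' : X) (ψ : X → X) (x : X) : ℂ :=
  (fderiv ℂ (rd E x' z' ψ) (chartAt E x' x)).det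

theorem rd_analyticAt {ψ : X → X} (hψ : ContMDiff 𝓘(ℂ, E) 𝓘(ℂ, E) ω ψ) {x' z' : X} {v : E}
    (hv : v ∈ (chartAt E x').target)
    (hz : ψ ((chartAt E x').symm v) ∈ (chartAt E z').source) :
    AnalyticAt ℂ (rd E x' z' ψ) v := by
  have : CompleteSpace E := FiniteDimensional.complete ℂ E
  rw [← analyticWithinAt_univ, ← contDiffWithinAt_omega_iff_analyticWithinAt,
    contDiffWithinAt_univ, ← contMDiffAt_iff_contDiffAt]
  have h1 : ContMDiffAt 𝓘(ℂ, E) 𝓘(ℂ, E) ω (chartAt E x').symm v :=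
    (contMDiffOn_chart_symm (I := 𝓘(ℂ, E)) (n := ω) (x := x')).contMDiffAt
      ((chartAt E x').open_target.mem_nhds hv)
  have h2 : ContMDiffAt 𝓘(ℂ, E) 𝓘(ℂ, E) ω (chartAt E z') (ψ ((chartAt E x').symm v)) :=
    (contMDiffOn_chart (I := 𝓘(ℂ, E)) (n := ω) (x := z')).contMDiffAt
      ((chartAt E z').open_source.mem_nhds hz)
  exact h2.comp v ((hψ _).comp v h1)

theorem rd_analyticAt' {ψ : X → X} (hψ : ContMDiff 𝓘(ℂ, E) 𝓘(ℂ, E) ω ψ) {x' z' x : X}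
    (hx : x ∈ (chartAt E x').source) (hz : ψ x ∈ (chartAt E z').source) :
    AnalyticAt ℂ (rd E x' z' ψ) (chartAt E x' x) :=
  rd_analyticAt hψ ((chartAt E x').map_source hx) (by rwa [(chartAt E x').left_inv hx])

theorem jac_comp {ψ θ : X → X} (hψ : ContMDiff 𝓘(ℂ, E) 𝓘(ℂ, E) ω ψ)
    (hθ : ContMDiff 𝓘(ℂ, E) 𝓘(ℂ, E) ω θ) {x₁ y₁ z₁ x : X}
    (hx : x ∈ (chartAt E x₁).source) (hy : ψ x ∈ (chartAt E y₁).source)
    (hz : θ (ψ x) ∈ (chartAt E z₁).source) :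
    jac E x₁ z₁ (θ ∘ ψ) x = jac E y₁ z₁ θ (ψ x) * jac E x₁ y₁ ψ x := by
  have h1 : rd E x₁ z₁ (θ ∘ ψ) =ᶠ[𝓝 (chartAt E x₁ x)] rd E y₁ z₁ θ ∘ rd E x₁ y₁ ψ := by
    have hc : ContinuousAt (fun v => ψ ((chartAt E x₁).symm v)) (chartAt E x₁ x) := by
      refine ContinuousAt.comp (g := ψ) hψ.continuous.continuousAt ?_
      exact (chartAt E x₁).continuousAt_symm ((chartAt E x₁).map_source hx)
    have h2 : ∀ᶠ v in 𝓝 (chartAt E x₁ x), ψ ((chartAt E x₁).symm v) ∈ (chartAt E y₁).source := by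
      refine hc.eventually_mem ((chartAt E y₁).open_source.mem_nhds ?_)
      rwa [(chartAt E x₁).left_inv hx]
    filter_upwards [h2] with v hv
    simp only [rd, Function.comp]
    rw [(chartAt E y₁).left_inv hv]
  have h3 : rd E x₁ y₁ ψ (chartAt E x₁ x) = chartAt E y₁ (ψ x) := by
    simp only [rd]
    rw [(chartAt E x₁).left_inv hx]
  have h4 : DifferentiableAt ℂ (rd E y₁ z₁ θ) (rd E x₁ y₁ ψ (chartAt E x₁ x)) := by
    rw [h3]
    exact (rd_analyticAt' hθ hy hz).differentiableAt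
  have h5 : DifferentiableAt ℂ (rd E x₁ y₁ ψ) (chartAt E x₁ x) :=
    (rd_analyticAt' hψ hx hy).differentiableAt
  simp only [jac]
  rw [h1.fderiv_eq, fderiv_comp _ h4 h5, h3]
  change LinearMap.det _ = LinearMap.det _ * LinearMap.det _
  rw [← LinearMap.det_comp]
  rfl

theorem jac_id_self {x₁ x : X} (hx : x ∈ (chartAt E x₁).source) :
    jac E x₁ x₁ (id : X → X) x = 1 := by
  have h1 : rd E x₁ x₁ (id : X → X) =ᶠ[𝓝 (chartAt E x₁ x)] id := by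
    filter_upwards [(chartAt E x₁).open_target.mem_nhds ((chartAt E x₁).map_source hx)] with v hv
    simp only [rd, id]
    exact (chartAt E x₁).right_inv hv
  simp only [jac]
  rw [h1.fderiv_eq, fderiv_id]
  change LinearMap.det _ = 1
  exact LinearMap.det_id

theorem jac_ne_zero {ψ θ : X → X} (hψ : ContMDiff 𝓘(ℂ, E) 𝓘(ℂ, E) ω ψ)
    (hθ : ContMDiff 𝓘(ℂ, E) 𝓘(ℂ, E) ω θ) (hinv : ∀ x, θ (ψ x) = x) {x₁ z₁ x : X}
    (hx : x ∈ (chartAt E x₁).source) (hz : ψ x ∈ (chartAt E z₁).source) :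
    jac E x₁ z₁ ψ x ≠ 0 := by
  have h1 := jac_comp (E := E) hψ hθ (x₁ := x₁) (y₁ := z₁) (z₁ := x₁) (x := x) hx hz
    (by rw [hinv]; exact hx)
  have h2 : θ ∘ ψ = id := by
    funext x
    exact hinv x
  rw [h2, jac_id_self hx] at h1
  intro h3
  rw [h3, mul_zero] at h1
  exact one_ne_zero h1

theorem jac_continuousAt {ψ : X → X} (hψ : ContMDiff 𝓘(ℂ, E) 𝓘(ℂ, E) ω ψ) {x₁ z₁ x : X}
    (hx : x ∈ (chartAt E x₁).source) (hz : ψ x ∈ (chartAt E z₁).source) :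
    ContinuousAt (fun y => jac E x₁ z₁ ψ y) x := by
  have : CompleteSpace E := FiniteDimensional.complete ℂ E
  have h1 : ContinuousAt (fderiv ℂ (rd E x₁ z₁ ψ)) (chartAt E x₁ x) :=
    (rd_analyticAt' hψ hx hz).fderiv.continuousAt
  have h2 : ContinuousAt (fun y => fderiv ℂ (rd E x₁ z₁ ψ) (chartAt E x₁ y)) x :=
    ContinuousAt.comp (f := fun y => chartAt E x₁ y) h1 ((chartAt E x₁).continuousAt hx)
  exact (ContinuousLinearMap.continuous_det.continuousAt).comp h2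

section Family

variable {ι : Type*} {𝒰 : Ultrafilter ι} {ψ : ι → X → X}

/-- the Jacobians, read in the charts at `x'`, `z'`, stay away from zero along the ultrafilter -/
def NDc (E : Type*) [NormedAddCommGroup E] [NormedSpace ℂ E]
    {X : Type*} [TopologicalSpace X] [ChartedSpace E X] {ι : Type*} (𝒰 : Ultrafilter ι)
    (ψ : ι → X → X) (x' z' : X) (x : X) : Prop :=
  ∃ ε > 0, ∀ᶠ k in (𝒰 : Filter ι), ε ≤ ‖jac E x' z' (ψ k) x‖

theorem NDc_change (hψ : ∀ k, ContMDiff 𝓘(ℂ, E) 𝓘(ℂ, E) ω (ψ k)) {x₁ z₁ x₂ z₂ x y : X}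
    (hx₁ : x ∈ (chartAt E x₁).source) (hx₂ : x ∈ (chartAt E x₂).source)
    (hy₁ : y ∈ (chartAt E z₁).source) (hy₂ : y ∈ (chartAt E z₂).source)
    (hlim : Tendsto (fun k => ψ k x) 𝒰 (𝓝 y)) (h : NDc E 𝒰 ψ x₁ z₁ x) :
    NDc E 𝒰 ψ x₂ z₂ x := by
  obtain ⟨ε, hε, hev⟩ := h
  have hid : ContMDiff 𝓘(ℂ, E) 𝓘(ℂ, E) ω (id : X → X) := contMDiff_id
  have ha : jac E x₂ x₁ (id : X → X) x ≠ 0 :=
    jac_ne_zero hid hid (fun _ => rfl) hx₂ hx₁
  have hb : jac E z₁ z₂ (id : X → X) y ≠ 0 :=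
    jac_ne_zero hid hid (fun _ => rfl) hy₁ hy₂
  have hbc : Tendsto (fun k => ‖jac E z₁ z₂ (id : X → X) (ψ k x)‖) 𝒰
      (𝓝 ‖jac E z₁ z₂ (id : X → X) y‖) :=
    ((jac_continuousAt hid hy₁ hy₂).tendsto.comp hlim).norm
  have hbpos : 0 < ‖jac E z₁ z₂ (id : X → X) y‖ := norm_pos_iff.2 hb
  have hapos : 0 < ‖jac E x₂ x₁ (id : X → X) x‖ := norm_pos_iff.2 ha
  have hev2 : ∀ᶠ k in (𝒰 : Filter ι), ‖jac E z₁ z₂ (id : X → X) y‖ / 2 <
      ‖jac E z₁ z₂ (id : X → X) (ψ k x)‖ :=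
    hbc.eventually_const_lt (by linarith)
  have hs1 : ∀ᶠ k in (𝒰 : Filter ι), ψ k x ∈ (chartAt E z₁).source :=
    hlim.eventually_mem ((chartAt E z₁).open_source.mem_nhds hy₁)
  have hs2 : ∀ᶠ k in (𝒰 : Filter ι), ψ k x ∈ (chartAt E z₂).source :=
    hlim.eventually_mem ((chartAt E z₂).open_source.mem_nhds hy₂)
  refine ⟨‖jac E z₁ z₂ (id : X → X) y‖ / 2 * (ε * ‖jac E x₂ x₁ (id : X → X) x‖), by positivity, ?_⟩
  filter_upwards [hev, hev2, hs1, hs2] with k hk1 hk2 hk3 hk4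
  have e1 : jac E x₂ z₂ (ψ k) x = jac E x₁ z₂ (ψ k) x * jac E x₂ x₁ (id : X → X) x :=
    jac_comp (E := E) (ψ := id) (θ := ψ k) hid (hψ k) hx₂ hx₁ hk4
  have e2 : jac E x₁ z₂ (ψ k) x = jac E z₁ z₂ (id : X → X) (ψ k x) * jac E x₁ z₁ (ψ k) x :=
    jac_comp (E := E) (ψ := ψ k) (θ := id) (hψ k) hid hx₁ hk3 hk4
  rw [e1, e2, norm_mul, norm_mul, mul_assoc]
  gcongr

/-- a good ball in a chart -/
theorem exists_good_ball (hψ : ∀ k, ContMDiff 𝓘(ℂ, E) 𝓘(ℂ, E) ω (ψ k)) {x' z' x y : X}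
    (hx : x ∈ (chartAt E x').source) (hy : y ∈ (chartAt E z').source)
    (hcc : Tendsto (fun p : ι × X => ψ p.1 p.2) ((𝒰 : Filter ι) ×ˢ 𝓝 x) (𝓝 y))
    {V : Set X} (hV : V ∈ 𝓝 x) :
    ∃ R > 0, ∃ M : ℝ, ball (chartAt E x' x) R ⊆ (chartAt E x').target ∧
      MapsTo (chartAt E x').symm (ball (chartAt E x' x) R) V ∧
      ∀ᶠ k in (𝒰 : Filter ι), AnalyticOnNhd ℂ (rd E x' z' (ψ k)) (ball (chartAt E x' x) R) ∧
        MapsTo (rd E x' z' (ψ k)) (ball (chartAt E x' x) R) (closedBall 0 M) ∧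
        ∀ v ∈ ball (chartAt E x' x) R, ψ k ((chartAt E x').symm v) ∈ (chartAt E z').source := by
  set c := chartAt E x' with hc
  set c' := chartAt E z' with hc'
  set M : ℝ := ‖c' y‖ + 1 with hM
  have h1 : ∀ᶠ q in 𝓝 y, q ∈ c'.source ∧ ‖c' q‖ < M := by
    have h2 : ContinuousAt (fun q => ‖c' q‖) y := (c'.continuousAt hy).norm
    filter_upwards [c'.open_source.mem_nhds hy,
      h2.eventually_lt_const (show ‖c' y‖ < M by linarith)] with q hq1 hq2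
    exact ⟨hq1, hq2⟩
  have h2 := hcc.eventually h1
  rw [eventually_prod_iff] at h2
  obtain ⟨P, hP, Q, hQ, hPQ⟩ := h2
  have h3 : ContinuousAt c.symm (c x) := c.continuousAt_symm (c.map_source hx)
  have h4 : ∀ᶠ v in 𝓝 (c x), (Q (c.symm v) ∧ c.symm v ∈ V) ∧ v ∈ c.target := by
    have h5 : ∀ᶠ q in 𝓝 (c.symm (c x)), Q q ∧ q ∈ V := by
      rw [c.left_inv hx]
      filter_upwards [hQ, hV] with q hq1 hq2
      exact ⟨hq1, hq2⟩
    filter_upwards [h3.eventually h5, c.open_target.mem_nhds (c.map_source hx)] with v hv1 hv2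
    exact ⟨hv1, hv2⟩
  obtain ⟨R, hR, hRb⟩ := Metric.eventually_nhds_iff_ball.1 h4
  refine ⟨R, hR, M, fun v hv => (hRb v hv).2, fun v hv => (hRb v hv).1.2, ?_⟩
  filter_upwards [hP] with k hk
  have h6 : ∀ v ∈ ball (c x) R, ψ k (c.symm v) ∈ c'.source ∧ ‖c' (ψ k (c.symm v))‖ < M :=
    fun v hv => hPQ hk (hRb v hv).1.1
  refine ⟨?_, ?_, fun v hv => (h6 v hv).1⟩
  · intro v hv
    exact rd_analyticAt (hψ k) (hRb v hv).2 (h6 v hv).1
  · intro v hv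
    rw [mem_closedBall_zero_iff]
    exact (h6 v hv).2.le

theorem robust_open_mfd (hψ : ∀ k, ContMDiff 𝓘(ℂ, E) 𝓘(ℂ, E) ω (ψ k)) {x' z' x y : X}
    (hx : x ∈ (chartAt E x').source) (hy : y ∈ (chartAt E z').source)
    (hcc : Tendsto (fun p : ι × X => ψ p.1 p.2) ((𝒰 : Filter ι) ×ˢ 𝓝 x) (𝓝 y))
    (hnd : NDc E 𝒰 ψ x' z' x) {V : Set X} (hV : V ∈ 𝓝 x) :
    ∃ O ∈ 𝓝 y, ∀ᶠ k in (𝒰 : Filter ι), O ⊆ ψ k '' V := by
  obtain ⟨R, hR, M, hRt, hRV, hev⟩ := exists_good_ball hψ hx hy hcc hV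
  obtain ⟨ε, hε, hdet⟩ := hnd
  set c := chartAt E x' with hc
  set c' := chartAt E z' with hc'
  have hlim : Tendsto (fun k => rd E x' z' (ψ k) (c x)) 𝒰 (𝓝 (c' y)) := by
    have h1 : ∀ k, rd E x' z' (ψ k) (c x) = c' (ψ k x) := by
      intro k
      simp only [rd]
      rw [← hc, c.left_inv hx]
    simp_rw [h1]
    exact (c'.continuousAt hy).tendsto.comp (cc_pointwise hcc)
  obtain ⟨ρ, hρ, hρ2⟩ := robust_open (𝒰 := 𝒰) (F := fun k => rd E x' z' (ψ k)) (a := c x)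
    (b := c' y) (M := M) hR (hev.mono fun k hk => ⟨hk.1, hk.2.1⟩) hε hdet hlim hR
  refine ⟨c'.source ∩ c' ⁻¹' ball (c' y) ρ,
    (c'.isOpen_inter_preimage isOpen_ball).mem_nhds ⟨hy, mem_ball_self hρ⟩, ?_⟩
  filter_upwards [hev, hρ2] with k hk1 hk2
  rintro q ⟨hq1, hq2⟩
  obtain ⟨v, hv, hv2⟩ := hk2 hq2
  refine ⟨c.symm v, hRV hv, ?_⟩
  exact c'.injOn (hk1.2.2 v hv) hq1 hv2

/-- nondegenerate point -/
def NDp (E : Type*) [NormedAddCommGroup E] [NormedSpace ℂ E]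
    {X : Type*} [TopologicalSpace X] [ChartedSpace E X] {ι : Type*} (𝒰 : Ultrafilter ι)
    (ψ : ι → X → X) (g : X → X) (x : X) : Prop :=
  ∃ x' z', x ∈ (chartAt E x').source ∧ g x ∈ (chartAt E z').source ∧ NDc E 𝒰 ψ x' z' x

theorem nd_dense_mfd (hψ : ∀ k, ContMDiff 𝓘(ℂ, E) 𝓘(ℂ, E) ω (ψ k)) {W : Set X}
    (hW : IsOpen W) (hWc : IsPreconnected W) {g : X → X}
    (hcc : ∀ x ∈ W, Tendsto (fun p : ι × X => ψ p.1 p.2) ((𝒰 : Filter ι) ×ˢ 𝓝 x) (𝓝 (g x)))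
    {x₀ : X} (hx₀ : x₀ ∈ W) (hnd : NDp E 𝒰 ψ g x₀) :
    W ⊆ closure {x | x ∈ W ∧ NDp E 𝒰 ψ g x} := by
  have hgc : ∀ x ∈ W, ContinuousAt g x := by
    intro x hx
    refine continuousAt_of_cc (F := ψ) (l := (𝒰 : Filter ι)) ?_ (hcc x hx)
    filter_upwards [hW.mem_nhds hx] with x' hx'
    exact cc_pointwise (hcc x' hx')
  set D : Set X := {x | x ∈ W ∧ NDp E 𝒰 ψ g x} with hD
  have hloc : ∀ q ∈ W, q ∈ closure D → q ∈ interior (closure D) := by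
    intro q hqW hqD
    have hqs : q ∈ (chartAt E q).source := mem_chart_source E q
    have hgs : g q ∈ (chartAt E (g q)).source := mem_chart_source E (g q)
    have hV : {x | x ∈ W ∧ g x ∈ (chartAt E (g q)).source} ∈ 𝓝 q := by
      filter_upwards [hW.mem_nhds hqW,
        (hgc q hqW).eventually_mem ((chartAt E (g q)).open_source.mem_nhds hgs)] with x h1 h2
      exact ⟨h1, h2⟩
    obtain ⟨R, hR, M, hRt, hRV, hev⟩ := exists_good_ball hψ hqs hgs (hcc q hqW) hV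
    set c := chartAt E q with hc
    set B : Set X := c.source ∩ c ⁻¹' ball (c q) (R / 2) with hB
    have hBo : IsOpen B := c.isOpen_inter_preimage isOpen_ball
    have hqB : q ∈ B := ⟨hqs, mem_ball_self (half_pos hR)⟩
    have hBV : ∀ y ∈ B, y ∈ W ∧ g y ∈ (chartAt E (g q)).source := by
      intro y hy
      have h1 := hRV (ball_subset_ball (by linarith : R / 2 ≤ R) hy.2)
      rw [c.left_inv hy.1] at h1
      exact h1
    obtain ⟨s, hsB, hsD⟩ := mem_closure_iff_nhds.1 hqD _ (hBo.mem_nhds hqB)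
    obtain ⟨x₁, z₁, hx₁, hz₁, hs⟩ := hsD.2
    have hs2 : NDc E 𝒰 ψ q (g q) s :=
      NDc_change hψ hx₁ hsB.1 hz₁ (hBV s hsB).2 (cc_pointwise (hcc s (hBV s hsB).1)) hs
    obtain ⟨ε, hε, hdet⟩ := hs2
    rw [mem_interior_iff_mem_nhds]
    refine mem_of_superset (hBo.mem_nhds hqB) ?_
    intro y hy
    rw [mem_closure_iff_nhds]
    intro T hT
    obtain ⟨T', hT'T, hT'o, hyT'⟩ := _root_.mem_nhds_iff.1 (inter_mem hT (hBo.mem_nhds hy))
    have hVo : IsOpen (c.target ∩ c.symm ⁻¹' T') := c.isOpen_inter_preimage_symm hT'o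
    have hVa : c.target ∩ c.symm ⁻¹' T' ⊆ ball (c q) (R / 2) := by
      rintro v ⟨hv1, hv2⟩
      have h1 := (hT'T hv2).2.2
      change c (c.symm v) ∈ ball (c q) (R / 2) at h1
      rwa [c.right_inv hv1] at h1
    have hyV : c y ∈ c.target ∩ c.symm ⁻¹' T' := by
      refine ⟨c.map_source hy.1, ?_⟩
      change c.symm (c y) ∈ T'
      rwa [c.left_inv hy.1]
    obtain ⟨v, hv, ε', hε', hdet'⟩ := nd_dense (𝒰 := 𝒰) (F := fun k => rd E q (g q) (ψ k))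
      (a := c q) (M := M) hR (hev.mono fun k hk => ⟨hk.1, hk.2.1⟩) (x := c s) hsB.2 hε hdet
      hVo hVa hyV
    have hvB : c.symm v ∈ B := (hT'T hv.2).2
    refine ⟨c.symm v, (hT'T hv.2).1, (hBV _ hvB).1, q, g q, hvB.1, (hBV _ hvB).2, ε', hε', ?_⟩
    filter_upwards [hdet'] with k hk
    simp only [jac]
    rw [← hc, c.right_inv hv.1]
    exact hk
  have hsub : W ⊆ interior (closure D) := by
    refine hWc.subset_of_closure_inter_subset isOpen_interior ?_ ?_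
    · exact ⟨x₀, hx₀, hloc x₀ hx₀ (subset_closure ⟨hx₀, hnd⟩)⟩
    · rintro q ⟨hq1, hq2⟩
      refine hloc q hq2 ?_
      exact closure_minimal interior_subset isClosed_closure hq1
  exact hsub.trans interior_subset

end Family

end Pool.Agent.NonTame
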