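import Pool.Agent.Lib_MP_884f32_an.Cert

/-! Points of maximal rank: all holomorphic maps are locally functions of finitely many. -/

open Filter Metric Set Topology
open scoped Manifold ContDiff

set_option linter.unusedSectionVars false

namespace Pool.Agent.NonTame

variable {E : Type*} [NormedAddCommGroup E] [NormedSpace ℂ E] [FiniteDimensional ℂ E]
variable {X : Type*} [TopologicalSpace X] [ChartedSpace E X] [IsManifold 𝓘(ℂ, E) ω X]
variable {E' : Type*} [NormedAddCommGroup E'] [NormedSpace ℂ E'] [FiniteDimensional ℂ E']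
variable {Y : Type*} [MetricSpace Y] [ChartedSpace E' Y] [IsManifold 𝓘(ℂ, E') ω Y]

/-- all holomorphic maps -/
def HolF (E E' X Y : Type*) [NormedAddCommGroup E] [NormedSpace ℂ E]
    [NormedAddCommGroup E'] [NormedSpace ℂ E']
    [TopologicalSpace X] [ChartedSpace E X] [TopologicalSpace Y] [ChartedSpace E' Y] :
    Set (X → Y) := {f | ContMDiff 𝓘(ℂ, E) 𝓘(ℂ, E') ω f}

/-- the holomorphic maps to `Y` have rank at least `m` at the point `x` -/
def HasRank (E E' : Type*) [NormedAddCommGroup E] [NormedSpace ℂ E]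
    [NormedAddCommGroup E'] [NormedSpace ℂ E']
    {X : Type*} [TopologicalSpace X] [ChartedSpace E X] (Y : Type*) [TopologicalSpace Y]
    [ChartedSpace E' Y] (m : ℕ) (x : X) : Prop :=
  ∃ (s : ℕ) (g : Fin s → X → Y) (y : Fin s → Y),
    (∀ j, ContMDiff 𝓘(ℂ, E) 𝓘(ℂ, E') ω (g j)) ∧ (∀ j, g j x ∈ (chartAt E' (y j)).source) ∧
    Rk m (fderiv ℂ (rr E E' g y x (id : X → X)) (chartAt E x x))

theorem hasRank_of_chart {m s : ℕ} {g : Fin s → X → Y} {y : Fin s → Y}
    (hg : ∀ j, ContMDiff 𝓘(ℂ, E) 𝓘(ℂ, E') ω (g j)) {ψ : X → X}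
    (hψ : ContMDiff 𝓘(ℂ, E) 𝓘(ℂ, E) ω ψ)
    {x' x : X} (hx : x ∈ (chartAt E x').source)
    (hy : ∀ j, g j (ψ x) ∈ (chartAt E' (y j)).source)
    (hr : Rk m (fderiv ℂ (rr E E' g y x' ψ) (chartAt E x' x))) :
    HasRank E E' Y m x := by
  have hid : ContMDiff 𝓘(ℂ, E) 𝓘(ℂ, E) ω (id : X → X) := contMDiff_id
  refine ⟨s, fun j => g j ∘ ψ, y, fun j => (hg j).comp hψ, hy, ?_⟩
  have hxs : x ∈ (chartAt E x).source := mem_chart_source E x
  have h1 := rr_comp (E := E) hg hid hψ (x₁ := x) (z₁ := x') (x := x) hxs hx hy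
  have h2 : rr E E' g y x (ψ ∘ (id : X → X)) = rr E E' (fun j => g j ∘ ψ) y x id := rfl
  rw [h2] at h1
  rw [h1]
  have h3 := rdd_surjective (E := E) hid hid (fun _ => rfl) (fun _ => rfl) hxs hx
  have h4 := rk_comp (T := ContinuousLinearMap.id ℂ (Fin s → E'))
    (T' := ContinuousLinearMap.id ℂ (Fin s → E')) (by ext1; rfl) h3 hr
  exact h4

/-- rank of the maps at a point is invariant under automorphisms -/
theorem hasRank_comp {m : ℕ} {ψ θ : X → X}
    (hψ : ContMDiff 𝓘(ℂ, E) 𝓘(ℂ, E) ω ψ) (hθ : ContMDiff 𝓘(ℂ, E) 𝓘(ℂ, E) ω θ)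
    (hinv : ∀ x, θ (ψ x) = x) (hinv' : ∀ x, ψ (θ x) = x) {x : X}
    (h : HasRank E E' Y m (ψ x)) : HasRank E E' Y m x := by
  obtain ⟨s, g, y, hg, hy, hr⟩ := h
  have hid : ContMDiff 𝓘(ℂ, E) 𝓘(ℂ, E) ω (id : X → X) := contMDiff_id
  have hxs : x ∈ (chartAt E x).source := mem_chart_source E x
  have hzs : ψ x ∈ (chartAt E (ψ x)).source := mem_chart_source E (ψ x)
  refine hasRank_of_chart hg hψ hxs hy ?_
  have h1 := rr_comp (E := E) hg hψ hid (x₁ := x) (z₁ := ψ x) (x := x) hxs hzs hy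
  have h2 : rr E E' g y x ((id : X → X) ∘ ψ) = rr E E' g y x ψ := rfl
  rw [h2] at h1
  rw [h1]
  have h3 := rdd_surjective (E := E) hψ hθ hinv hinv' hxs hzs
  have h4 := rk_comp (T := ContinuousLinearMap.id ℂ (Fin s → E'))
    (T' := ContinuousLinearMap.id ℂ (Fin s → E')) (by ext1; rfl) h3 hr
  exact h4

theorem hasRank_zero (x : X) : HasRank E E' Y 0 x :=
  ⟨0, Fin.elim0, Fin.elim0, fun j => j.elim0, fun j => j.elim0, rk_zero _⟩

theorem hasRank_le {m : ℕ} {x : X} (h : HasRank E E' Y m x) : m ≤ Module.finrank ℂ E := by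
  obtain ⟨s, g, y, hg, hy, hr⟩ := h
  exact rk_le hr

/-- at a point of maximal rank, every further map is infinitesimally dependent -/
theorem kernel_of_max {m s : ℕ} {g : Fin s → X → Y} {y : Fin s → Y}
    (hg : ∀ j, ContMDiff 𝓘(ℂ, E) 𝓘(ℂ, E') ω (g j)) {x' z : X}
    (hz : z ∈ (chartAt E x').source) (hy : ∀ j, g j z ∈ (chartAt E' (y j)).source)
    {Λ : (Fin s → E') →L[ℂ] (Fin m → ℂ)}
    (hs : Function.Surjective (Λ ∘L fderiv ℂ (rr E E' g y x' (id : X → X)) (chartAt E x' z)))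
    (hmax : ¬ HasRank E E' Y (m + 1) z) {f : X → Y} (hf : ContMDiff 𝓘(ℂ, E) 𝓘(ℂ, E') ω f)
    {y₀ : Y} (hy₀ : f z ∈ (chartAt E' y₀).source) {v : E}
    (hv : Λ (fderiv ℂ (rr E E' g y x' (id : X → X)) (chartAt E x' z) v) = 0) :
    fderiv ℂ (rdd E E' x' y₀ f) (chartAt E x' z) v = 0 := by
  by_contra hne
  have hid : ContMDiff 𝓘(ℂ, E) 𝓘(ℂ, E) ω (id : X → X) := contMDiff_id
  let g' : Fin (s + 1) → X → Y := Fin.cons f g
  let y' : Fin (s + 1) → Y := Fin.cons y₀ y
  have hg' : ∀ j, ContMDiff 𝓘(ℂ, E) 𝓘(ℂ, E') ω (g' j) := by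
    intro j
    refine Fin.cases ?_ (fun i => ?_) j
    · exact hf
    · exact hg i
  have hy' : ∀ j, g' j z ∈ (chartAt E' (y' j)).source := by
    intro j
    refine Fin.cases ?_ (fun i => ?_) j
    · exact hy₀
    · exact hy i
  have han : AnalyticAt ℂ (rr E E' g' y' x' (id : X → X)) (chartAt E x' z) :=
    rr_analyticAt' hg' hid hz hy'
  set D' := fderiv ℂ (rr E E' g' y' x' (id : X → X)) (chartAt E x' z) with hD'
  have hD : HasFDerivAt (rr E E' g' y' x' (id : X → X)) D' (chartAt E x' z) :=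
    han.differentiableAt.hasFDerivAt
  let P : (Fin (s + 1) → E') →L[ℂ] (Fin s → E') :=
    ContinuousLinearMap.pi fun j => ContinuousLinearMap.proj j.succ
  let p₀ : (Fin (s + 1) → E') →L[ℂ] E' := ContinuousLinearMap.proj 0
  have h1 : P ∘L D' = fderiv ℂ (rr E E' g y x' (id : X → X)) (chartAt E x' z) := by
    have h2 : HasFDerivAt (fun v => P (rr E E' g' y' x' (id : X → X) v)) (P ∘L D')
        (chartAt E x' z) := P.hasFDerivAt.comp _ hD
    exact h2.fderiv.symm
  have h3 : p₀ ∘L D' = fderiv ℂ (rdd E E' x' y₀ f) (chartAt E x' z) := by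
    have h2 : HasFDerivAt (fun v => p₀ (rr E E' g' y' x' (id : X → X) v)) (p₀ ∘L D')
        (chartAt E x' z) := p₀.hasFDerivAt.comp _ hD
    exact h2.fderiv.symm
  have h4 : p₀ (D' v) ≠ 0 := by
    have : p₀ (D' v) = fderiv ℂ (rdd E E' x' y₀ f) (chartAt E x' z) v := by rw [← h3]; rfl
    rw [this]
    exact hne
  obtain ⟨μ, hμ⟩ := SeparatingDual.exists_ne_zero (R := ℂ) h4
  have h5 : Rk (m + 1) D' := by
    refine rk_succ (P := P) (Λ := Λ) (μ := μ ∘L p₀) (v := v) ?_ ?_ hμ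
    · rw [h1]; exact hs
    · have : P (D' v) = fderiv ℂ (rr E E' g y x' (id : X → X)) (chartAt E x' z) v := by
        rw [← h1]; rfl
      rw [this]
      exact hv
  exact hmax (hasRank_of_chart hg' hid hz hy' h5)

/-- near a point of maximal rank all maps are functions of the given ones -/
theorem local_function {m s : ℕ} {g : Fin s → X → Y} {y : Fin s → Y}
    (hg : ∀ j, ContMDiff 𝓘(ℂ, E) 𝓘(ℂ, E') ω (g j)) {x' z : X}
    (hz : z ∈ (chartAt E x').source) (hy : ∀ j, g j z ∈ (chartAt E' (y j)).source)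
    {Λ : (Fin s → E') →L[ℂ] (Fin m → ℂ)}
    (hs : Function.Surjective (Λ ∘L fderiv ℂ (rr E E' g y x' (id : X → X)) (chartAt E x' z)))
    (hmax : ∀ᶠ w in 𝓝 z, ¬ HasRank E E' Y (m + 1) w) {f : X → Y}
    (hf : ContMDiff 𝓘(ℂ, E) 𝓘(ℂ, E') ω f) :
    ∃ U ∈ 𝓝 z, ∀ w ∈ U, ∀ w' ∈ U, Λ (RR E' g y w) = Λ (RR E' g y w') → f w = f w' := by
  have hid : ContMDiff 𝓘(ℂ, E) 𝓘(ℂ, E) ω (id : X → X) := contMDiff_id
  have hcE' : CompleteSpace E' := FiniteDimensional.complete ℂ E'
  set c := chartAt E x' with hc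
  set c' := chartAt E' (f z) with hc'
  have hfz : f z ∈ c'.source := mem_chart_source E' (f z)
  set h : E → (Fin m → ℂ) := fun v => Λ (rr E E' g y x' (id : X → X) v) with hh
  have hran : AnalyticAt ℂ (rr E E' g y x' (id : X → X)) (c z) := rr_analyticAt' hg hid hz hy
  have hhan : AnalyticAt ℂ h (c z) := (Λ.analyticAt _).comp hran
  have hφan : AnalyticAt ℂ (rdd E E' x' (f z) f) (c z) := rdd_analyticAt' hf hz hfz
  have hder : ∀ v, DifferentiableAt ℂ (rr E E' g y x' (id : X → X)) v →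
      fderiv ℂ h v = Λ ∘L fderiv ℂ (rr E E' g y x' (id : X → X)) v := by
    intro v hv
    have : HasFDerivAt h (Λ ∘L fderiv ℂ (rr E E' g y x' (id : X → X)) v) v :=
      Λ.hasFDerivAt.comp v hv.hasFDerivAt
    exact this.fderiv
  have hs' : Function.Surjective (fderiv ℂ h (c z)) := by
    rw [hder _ hran.differentiableAt]
    exact hs
  have hcs : Tendsto c.symm (𝓝 (c z)) (𝓝 z) := by
    have := (c.continuousAt_symm (c.map_source hz)).tendsto
    rwa [c.left_inv hz] at this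
  -- surjectivity persists
  obtain ⟨ι, hι⟩ := exists_slice hs'
  have hsurj : ∀ᶠ v in 𝓝 (c z), Function.Surjective (fderiv ℂ h v) := by
    have hcont : ContinuousAt (fun v => (fderiv ℂ h v ∘L ι).det) (c z) := by
      have h1 : ContinuousAt (fderiv ℂ h) (c z) := hhan.fderiv.continuousAt
      exact ContinuousLinearMap.continuous_det.continuousAt.comp
        (h1.clm_comp continuousAt_const)
    have h0 : (fderiv ℂ h (c z) ∘L ι).det ≠ 0 := by
      rw [hι, det_id_clm]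
      exact one_ne_zero
    filter_upwards [hcont.eventually_ne h0] with v hv
    exact surjective_of_det hv
  have hgy : ∀ᶠ w in 𝓝 z, ∀ j, g j w ∈ (chartAt E' (y j)).source := by
    rw [eventually_all]
    intro j
    exact (hg j).continuous.continuousAt.eventually_mem ((chartAt E' (y j)).open_source.mem_nhds
      (hy j))
  have hfs : ∀ᶠ w in 𝓝 z, f w ∈ c'.source :=
    hf.continuous.continuousAt.eventually_mem (c'.open_source.mem_nhds hfz)
  have hk : ∀ᶠ v in 𝓝 (c z), ∀ u, fderiv ℂ h v u = 0 →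
      fderiv ℂ (rdd E E' x' (f z) f) v u = 0 := by
    filter_upwards [hsurj, hcs.eventually hgy, hcs.eventually hfs, hcs.eventually hmax,
      c.open_target.mem_nhds (c.map_source hz), hran.eventually_analyticAt]
      with v h1 h2 h3 h4 h5 h6 u hu
    have hws : c.symm v ∈ c.source := c.map_target h5
    have e1 : c (c.symm v) = v := c.right_inv h5
    rw [hder v h6.differentiableAt] at h1 hu
    have h7 := kernel_of_max (E := E) (m := m) hg hws h2 (Λ := Λ) (f := f) (v := u)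
      (y₀ := f z) (by rw [← hc, e1]; exact h1) h4 hf h3 (by rw [← hc, e1]; exact hu)
    rw [← hc, e1] at h7
    exact h7
  obtain ⟨U, hU, hUf⟩ := local_fibre hhan hφan hs' hk
  refine ⟨{w | w ∈ c.source ∧ c w ∈ U ∧ f w ∈ c'.source}, ?_, ?_⟩
  · filter_upwards [c.open_source.mem_nhds hz, (c.continuousAt hz).preimage_mem_nhds hU, hfs]
      with w h1 h2 h3
    exact ⟨h1, h2, h3⟩
  · rintro w ⟨hw1, hw2, hw3⟩ w' ⟨hw1', hw2', hw3'⟩ hww
    have e1 : ∀ w ∈ c.source, h (c w) = Λ (RR E' g y w) := by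
      intro w hw
      simp only [hh, rr, id]
      rw [← hc, c.left_inv hw]
    have e2 : ∀ w ∈ c.source, rdd E E' x' (f z) f (c w) = c' (f w) := by
      intro w hw
      simp only [rdd]
      rw [← hc, c.left_inv hw]
    have h1 := hUf _ hw2 _ hw2' (by rw [e1 w hw1, e1 w' hw1']; exact hww)
    rw [e2 w hw1, e2 w' hw1'] at h1
    exact c'.injOn hw3 hw3' h1

end Pool.Agent.NonTame
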