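import Mathlib

/-! Local analysis in a finite dimensional complex vector space: limits along ultrafilters of
bounded families of holomorphic maps. -/

open Filter Metric Set Topology
open scoped NNReal

set_option linter.unusedSectionVars false

namespace Pool.Agent.NonTame

section General

/-- equicontinuity at a point and pointwise convergence give continuous convergence -/
theorem cc_of_equi {ι α β : Type*} [TopologicalSpace α] [PseudoMetricSpace β]
    {F : ι → α → β} {l : Filter ι} {x : α} {y : β}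
    (hlim : Tendsto (fun k => F k x) l (𝓝 y))
    (heq : ∀ ε > 0, ∀ᶠ p in l ×ˢ 𝓝 x, dist (F p.1 p.2) (F p.1 x) < ε) :
    Tendsto (fun p : ι × α => F p.1 p.2) (l ×ˢ 𝓝 x) (𝓝 y) := by
  rw [Metric.tendsto_nhds]
  intro ε hε
  have h1 : ∀ᶠ p in l ×ˢ 𝓝 x, dist (F p.1 x) y < ε / 2 := by
    have := (Metric.tendsto_nhds.1 hlim (ε / 2) (half_pos hε))
    exact this.prod_inl (𝓝 x)
  filter_upwards [h1, heq (ε / 2) (half_pos hε)] with p hp1 hp2
  calc dist (F p.1 p.2) y ≤ dist (F p.1 p.2) (F p.1 x) + dist (F p.1 x) y := dist_triangle _ _ _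
    _ < ε := by linarith

theorem cc_pointwise {ι α β : Type*} [TopologicalSpace α] [TopologicalSpace β]
    {F : ι → α → β} {l : Filter ι} {x : α} {y : β}
    (h : Tendsto (fun p : ι × α => F p.1 p.2) (l ×ˢ 𝓝 x) (𝓝 y)) :
    Tendsto (fun k => F k x) l (𝓝 y) := by
  have h2 : Tendsto (fun k : ι => (k, x)) l (l ×ˢ 𝓝 x) :=
    tendsto_id.prodMk (tendsto_const_nhds)
  exact h.comp h2

theorem continuousAt_of_cc {ι α β : Type*} [TopologicalSpace α] [PseudoMetricSpace β]
    {F : ι → α → β} {l : Filter ι} [l.NeBot] {g : α → β} {x : α}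
    (hpt : ∀ᶠ x' in 𝓝 x, Tendsto (fun k => F k x') l (𝓝 (g x')))
    (h : Tendsto (fun p : ι × α => F p.1 p.2) (l ×ˢ 𝓝 x) (𝓝 (g x))) :
    ContinuousAt g x := by
  rw [ContinuousAt, Metric.tendsto_nhds]
  intro ε hε
  have h1 := Metric.tendsto_nhds.1 h (ε / 2) (half_pos hε)
  rw [eventually_prod_iff] at h1
  obtain ⟨P, hP, Q, hQ, hPQ⟩ := h1
  filter_upwards [hQ, hpt] with x' hx' hx2
  have h3 : dist (g x') (g x) ≤ ε / 2 := by
    refine le_of_tendsto (hx2.dist tendsto_const_nhds) ?_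
    filter_upwards [hP] with k hk
    exact (hPQ hk hx').le
  linarith

/-- continuous convergence composes with convergence of the arguments -/
theorem cc_comp {ι α β : Type*} [TopologicalSpace α] [TopologicalSpace β]
    {F : ι → α → β} {l : Filter ι} {x : α} {y : β} {xs : ι → α}
    (h : Tendsto (fun p : ι × α => F p.1 p.2) (l ×ˢ 𝓝 x) (𝓝 y))
    (hx : Tendsto xs l (𝓝 x)) :
    Tendsto (fun k => F k (xs k)) l (𝓝 y) := by
  have h2 : Tendsto (fun k : ι => (k, xs k)) l (l ×ˢ 𝓝 x) := tendsto_id.prodMk hx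
  exact h.comp h2

theorem exists_ultra_lim {ι β : Type*} [TopologicalSpace β] (𝒰 : Ultrafilter ι) {F : ι → β}
    {K : Set β} (hK : IsCompact K) (h : ∀ᶠ k in (𝒰 : Filter ι), F k ∈ K) :
    ∃ y ∈ K, Tendsto F 𝒰 (𝓝 y) := by
  have h1 : ((𝒰.map F : Ultrafilter β) : Filter β) ≤ 𝓟 K := by
    rw [le_principal_iff]; exact h
  obtain ⟨y, hy, hy2⟩ := hK.ultrafilter_le_nhds _ h1
  exact ⟨y, hy, hy2⟩

end General

section OneVar

/-- locally uniform convergence from continuous convergence -/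
theorem tlu_of_cc {ι α β : Type*} [TopologicalSpace α] [PseudoMetricSpace β]
    {F : ι → α → β} {l : Filter ι} [l.NeBot] {g : α → β} {U : Set α} (hU : IsOpen U)
    (h : ∀ x ∈ U, Tendsto (fun p : ι × α => F p.1 p.2) (l ×ˢ 𝓝 x) (𝓝 (g x))) :
    TendstoLocallyUniformlyOn F g l U := by
  rw [tendstoLocallyUniformlyOn_iff_forall_tendsto]
  intro x hx
  have hc : ContinuousAt g x := by
    refine continuousAt_of_cc (F := F) (l := l) ?_ (h x hx)
    filter_upwards [hU.mem_nhds hx] with x' hx'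
    exact cc_pointwise (h x' hx')
  have h1 : Tendsto (fun y : ι × α => (g y.2, F y.1 y.2)) (l ×ˢ 𝓝[U] x) (𝓝 (g x, g x)) := by
    rw [nhds_prod_eq]
    refine Tendsto.prodMk ?_ ?_
    · have : Tendsto (fun y : ι × α => y.2) (l ×ˢ 𝓝[U] x) (𝓝 x) :=
        tendsto_snd.mono_right nhdsWithin_le_nhds
      exact hc.tendsto.comp this
    · exact (h x hx).mono_left (Filter.prod_mono le_rfl nhdsWithin_le_nhds)
  exact h1.mono_right (nhds_le_uniformity (g x))

theorem vitali_zero {ι : Type*} {𝒰 : Ultrafilter ι} {T : Set ℂ} (hT : IsOpen T)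
    (hTc : IsPreconnected T) {h : ι → ℂ → ℂ} {C : ℝ}
    (hd : ∀ᶠ k in (𝒰 : Filter ι), DifferentiableOn ℂ (h k) T ∧ ∀ t ∈ T, ‖h k t‖ ≤ C)
    {t₀ t₁ : ℂ} (ht₀ : t₀ ∈ T) (ht₁ : t₁ ∈ T)
    (h0 : ∀ᶠ t in 𝓝 t₀, Tendsto (fun k => h k t) 𝒰 (𝓝 0)) :
    Tendsto (fun k => h k t₁) 𝒰 (𝓝 0) := by
  have hlim : ∀ t ∈ T, ∃ y, Tendsto (fun k => h k t) 𝒰 (𝓝 y) := by
    intro t ht
    obtain ⟨y, -, hy⟩ := exists_ultra_lim 𝒰 (F := fun k => h k t)
      (isCompact_closedBall (0 : ℂ) C) (by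
        filter_upwards [hd] with k hk
        rw [mem_closedBall_zero_iff]
        exact hk.2 t ht)
    exact ⟨y, hy⟩
  choose! H hH using hlim
  have hcc : ∀ t ∈ T, Tendsto (fun p : ι × ℂ => h p.1 p.2) ((𝒰 : Filter ι) ×ˢ 𝓝 t) (𝓝 (H t)) := by
    intro t ht
    refine cc_of_equi (hH t ht) ?_
    intro ε hε
    obtain ⟨R, hR, hRT⟩ := Metric.isOpen_iff.1 hT t ht
    have hC : 0 ≤ C := by
      obtain ⟨k, hk⟩ := hd.exists
      exact (norm_nonneg _).trans (hk.2 t ht)
    have hδ : 0 < min R (ε / (2 * C / R + 1)) := by positivity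
    have h2 : ∀ᶠ p in ((𝒰 : Filter ι) ×ˢ 𝓝 t), p.2 ∈ ball t (min R (ε / (2 * C / R + 1))) :=
      Filter.Eventually.prod_inr (ball_mem_nhds t hδ) _
    filter_upwards [hd.prod_inl (𝓝 t), h2] with p hp1 hp2
    have hm : MapsTo (h p.1) (ball t R) (closedBall (h p.1 t) (2 * C)) := by
      intro s hs
      rw [mem_closedBall, dist_eq_norm]
      calc ‖h p.1 s - h p.1 t‖ ≤ ‖h p.1 s‖ + ‖h p.1 t‖ := norm_sub_le _ _
        _ ≤ 2 * C := by linarith [hp1.2 s (hRT hs), hp1.2 t ht]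
    have hp3 : p.2 ∈ ball t R := ball_subset_ball (min_le_left _ _) hp2
    have h4 := Complex.dist_le_div_mul_dist_of_mapsTo_ball (hp1.1.mono hRT) hm hp3
    have h5 : dist p.2 t < ε / (2 * C / R + 1) := lt_of_lt_of_le hp2 (min_le_right _ _)
    rw [lt_div_iff₀ (by positivity)] at h5
    have h6 : 0 ≤ dist p.2 t := dist_nonneg
    nlinarith
  have htlu := tlu_of_cc hT hcc
  have hdiff : DifferentiableOn ℂ H T :=
    htlu.differentiableOn (hd.mono fun k hk => hk.1) hT
  have han : AnalyticOnNhd ℂ H T := hdiff.analyticOnNhd hT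
  have hz : H =ᶠ[𝓝 t₀] 0 := by
    filter_upwards [h0, hT.mem_nhds ht₀] with t ht htT
    exact tendsto_nhds_unique (hH t htT) ht
  have := han.eqOn_zero_of_preconnected_of_eventuallyEq_zero hTc ht₀ hz ht₁
  have h7 := hH t₁ ht₁
  rw [this] at h7
  exact h7

end OneVar

section Det

variable {E : Type*} [NormedAddCommGroup E] [NormedSpace ℂ E] [FiniteDimensional ℂ E]

theorem differentiableOn_det {U : Set ℂ} {A : ℂ → E →L[ℂ] E} (hA : DifferentiableOn ℂ A U) :
    DifferentiableOn ℂ (fun t => (A t).det) U := by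
  classical
  let b := Module.finBasis ℂ E
  have h1 : ∀ t, (A t).det = ((LinearMap.toMatrix b b) (A t : E →ₗ[ℂ] E)).det := by
    intro t
    rw [LinearMap.det_toMatrix]
  simp_rw [h1, Matrix.det_apply]
  apply DifferentiableOn.fun_sum
  intro σ _
  apply DifferentiableOn.const_smul
  apply DifferentiableOn.fun_finsetProd
  intro i _
  have h2 : (fun t => (LinearMap.toMatrix b b) (A t : E →ₗ[ℂ] E) (σ i) i) =
      fun t => (LinearMap.toContinuousLinearMap (b.coord (σ i))) ((A t) (b i)) := by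
    funext t
    rw [LinearMap.toMatrix_apply]
    rfl
  rw [h2]
  exact (ContinuousLinearMap.differentiable _).comp_differentiableOn
    (hA.clm_apply (differentiableOn_const _))

end Det

section Several

variable {E : Type*} [NormedAddCommGroup E] [NormedSpace ℂ E]
variable {E' : Type*} [NormedAddCommGroup E'] [NormedSpace ℂ E']

theorem maps_sub {F : E → E'} {a : E} {R M : ℝ}
    (hm : MapsTo F (ball a R) (closedBall 0 M)) {x : E} (hx : x ∈ ball a (R / 2)) :
    MapsTo F (ball x (R / 2)) (closedBall (F x) (2 * M)) := by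
  intro y hy
  have h1 : y ∈ ball a R := by
    rw [mem_ball] at *
    linarith [dist_triangle y x a]
  have h2 : x ∈ ball a R := by
    rw [mem_ball] at *
    have : 0 ≤ dist x a := dist_nonneg
    linarith
  have h3 := hm h1
  have h4 := hm h2
  rw [mem_closedBall_zero_iff] at h3 h4
  rw [mem_closedBall, dist_eq_norm]
  calc ‖F y - F x‖ ≤ ‖F y‖ + ‖F x‖ := norm_sub_le _ _
    _ ≤ 2 * M := by linarith

theorem ball_sub {a x : E} {R : ℝ} (hx : x ∈ ball a (R / 2)) : ball x (R / 2) ⊆ ball a R := by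
  intro y hy
  rw [mem_ball] at *
  linarith [dist_triangle y x a]

theorem norm_fderiv_le {F : E → E'} {a : E} {R M : ℝ} (hR : 0 < R)
    (hd : DifferentiableOn ℂ F (ball a R))
    (hm : MapsTo F (ball a R) (closedBall 0 M)) {x : E} (hx : x ∈ ball a (R / 2)) :
    ‖fderiv ℂ F x‖ ≤ 2 * M / (R / 2) :=
  Complex.norm_fderiv_le_div_of_mapsTo_ball (hd.mono (ball_sub hx)) (maps_sub hm hx) (half_pos hR)

theorem dist_le_of_bounded {F : E → E'} {a : E} {R M : ℝ}
    (hd : DifferentiableOn ℂ F (ball a R))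
    (hm : MapsTo F (ball a R) (closedBall 0 M)) {x y : E} (hx : x ∈ ball a (R / 2))
    (hy : y ∈ ball x (R / 2)) :
    dist (F y) (F x) ≤ 2 * M / (R / 2) * dist y x :=
  Complex.dist_le_div_mul_dist_of_mapsTo_ball (hd.mono (ball_sub hx)) (maps_sub hm hx) hy

variable [FiniteDimensional ℂ E]

theorem robust_open {ι : Type*} {𝒰 : Ultrafilter ι} {F : ι → E → E} {a b : E} {R M ε : ℝ}
    (hR : 0 < R)
    (hF : ∀ᶠ k in (𝒰 : Filter ι), AnalyticOnNhd ℂ (F k) (ball a R) ∧
      MapsTo (F k) (ball a R) (closedBall 0 M))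
    (hε : 0 < ε) (hdet : ∀ᶠ k in (𝒰 : Filter ι), ε ≤ ‖(fderiv ℂ (F k) a).det‖)
    (hlim : Tendsto (fun k => F k a) 𝒰 (𝓝 b)) {r : ℝ} (hr : 0 < r) :
    ∃ ρ > 0, ∀ᶠ k in (𝒰 : Filter ι), ball b ρ ⊆ F k '' (ball a r) := by
  have : CompleteSpace E := FiniteDimensional.complete ℂ E
  rcases subsingleton_or_nontrivial E with hsub | hnt
  · refine ⟨1, one_pos, Eventually.of_forall fun k y _ => ?_⟩
    exact ⟨a, mem_ball_self hr, Subsingleton.elim _ _⟩
  have : ProperSpace (E →L[ℂ] E) := FiniteDimensional.proper ℂ _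
  set C₁ : ℝ := 2 * M / (R / 2) with hC₁
  have hM : 0 ≤ M := by
    obtain ⟨k, hk⟩ := hF.exists
    have := hk.2 (mem_ball_self hR)
    rw [mem_closedBall_zero_iff] at this
    exact (norm_nonneg _).trans this
  have hC₁0 : 0 ≤ C₁ := by positivity
  obtain ⟨A, -, hA⟩ := exists_ultra_lim 𝒰 (F := fun k => fderiv ℂ (F k) a)
    (isCompact_closedBall (0 : E →L[ℂ] E) C₁) (by
      filter_upwards [hF] with k hk
      rw [mem_closedBall_zero_iff]
      exact norm_fderiv_le hR hk.1.differentiableOn hk.2 (mem_ball_self (half_pos hR)))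
  have hAdet : A.det ≠ 0 := by
    have h1 : Tendsto (fun k => ‖(fderiv ℂ (F k) a).det‖) 𝒰 (𝓝 ‖A.det‖) :=
      ((ContinuousLinearMap.continuous_det.tendsto A).comp hA).norm
    have h2 : ε ≤ ‖A.det‖ := ge_of_tendsto h1 hdet
    intro h3
    rw [h3, norm_zero] at h2
    linarith
  set A' : E ≃L[ℂ] E := A.toContinuousLinearEquivOfDetNeZero hAdet with hA'
  have hAA : (A' : E →L[ℂ] E) = A := rfl
  set N : ℝ≥0 := A'.toNonlinearRightInverse.nnnorm with hN
  have hNpos : 0 < N := by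
    rw [hN]
    have : A'.toNonlinearRightInverse.nnnorm = ‖(A'.symm : E →L[ℂ] E)‖₊ := rfl
    rw [this]
    exact A'.nnnorm_symm_pos
  set c : ℝ≥0 := N⁻¹ / 2 with hc
  have hcpos : 0 < c := by positivity
  set C₂ : ℝ := 2 * C₁ / (R / 4) with hC₂
  have hC₂0 : 0 ≤ C₂ := by positivity
  set δ : ℝ := min (min (r / 2) (R / 8)) ((c : ℝ) / 2 / (C₂ + 1)) with hδ
  have hδpos : 0 < δ := by positivity
  have hδr : δ ≤ r / 2 := (min_le_left _ _).trans (min_le_left _ _)
  have hδR : δ ≤ R / 8 := (min_le_left _ _).trans (min_le_right _ _)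
  have hδc : δ * (C₂ + 1) ≤ c / 2 := by
    have : δ ≤ (c : ℝ) / 2 / (C₂ + 1) := min_le_right _ _
    rwa [le_div_iff₀ (by positivity)] at this
  have hev1 : ∀ᶠ k in (𝒰 : Filter ι), dist (fderiv ℂ (F k) a) A < c / 2 :=
    Metric.tendsto_nhds.1 hA _ (by positivity)
  have hρ : 0 < ((N : ℝ)⁻¹ - c) * δ / 2 := by
    have : (N : ℝ)⁻¹ - c = c := by
      have h1 : (c : ℝ) = (N : ℝ)⁻¹ / 2 := by rw [hc]; push_cast; ring
      linarith
    rw [this]
    positivity
  have hev2 : ∀ᶠ k in (𝒰 : Filter ι), dist (F k a) b < ((N : ℝ)⁻¹ - c) * δ / 2 :=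
    Metric.tendsto_nhds.1 hlim _ hρ
  refine ⟨((N : ℝ)⁻¹ - c) * δ / 2, hρ, ?_⟩
  filter_upwards [hF, hev1, hev2] with k hk hk1 hk2
  have hsubb : closedBall a δ ⊆ ball a (R / 2 / 2) := by
    intro x hx
    rw [mem_closedBall] at hx
    rw [mem_ball]
    linarith
  -- derivative is Lipschitz at a
  have hdf : DifferentiableOn ℂ (fderiv ℂ (F k)) (ball a (R / 2)) :=
    (hk.1.fderiv.differentiableOn).mono (ball_subset_ball (by linarith))
  have hdm : MapsTo (fderiv ℂ (F k)) (ball a (R / 2)) (closedBall 0 C₁) := by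
    intro x hx
    rw [mem_closedBall_zero_iff]
    exact norm_fderiv_le hR hk.1.differentiableOn hk.2 hx
  have happ : ApproximatesLinearOn (F k) (A' : E →L[ℂ] E) (closedBall a δ) c := by
    rw [hAA]
    intro x hx y hy
    have hconv : Convex ℝ (closedBall a δ) := convex_closedBall a δ
    have hderiv : ∀ z ∈ closedBall a δ, HasFDerivWithinAt (F k) (fderiv ℂ (F k) z)
        (closedBall a δ) z := by
      intro z hz
      have hz' : z ∈ ball a R := ball_subset_ball (by linarith) (hsubb hz)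
      exact ((hk.1 z hz').differentiableAt.hasFDerivAt).hasFDerivWithinAt
    have hbd : ∀ z ∈ closedBall a δ, ‖fderiv ℂ (F k) z - A‖ ≤ (c : ℝ) := by
      intro z hz
      have h1 : dist (fderiv ℂ (F k) z) (fderiv ℂ (F k) a) ≤
          2 * C₁ / (R / 2 / 2) * dist z a :=
        dist_le_of_bounded hdf hdm (mem_ball_self (by linarith)) (hsubb hz)
      have h2 : dist z a ≤ δ := hz
      have h3 : 2 * C₁ / (R / 2 / 2) = C₂ := by rw [hC₂]; ring
      rw [h3] at h1
      have h4 : C₂ * dist z a ≤ C₂ * δ := mul_le_mul_of_nonneg_left h2 hC₂0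
      rw [← dist_eq_norm]
      have h5 := dist_triangle (fderiv ℂ (F k) z) (fderiv ℂ (F k) a) A
      nlinarith
    exact hconv.norm_image_sub_le_of_norm_hasFDerivWithin_le' hderiv hbd hy hx
  have hsurj := happ.surjOn_closedBall_of_nonlinearRightInverse A'.toNonlinearRightInverse
    hδpos.le (Subset.rfl)
  intro y hy
  have hy2 : y ∈ closedBall (F k a) (((N : ℝ)⁻¹ - c) * δ) := by
    rw [mem_closedBall]
    rw [mem_ball] at hy
    have := dist_triangle y b (F k a)
    rw [dist_comm b] at this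
    linarith
  obtain ⟨x, hx, hxy⟩ := hsurj hy2
  refine ⟨x, ?_, hxy⟩
  rw [mem_ball]
  rw [mem_closedBall] at hx
  linarith

theorem nd_dense {ι : Type*} {𝒰 : Ultrafilter ι} {F : ι → E → E} {a : E} {R M ε : ℝ}
    (hR : 0 < R)
    (hF : ∀ᶠ k in (𝒰 : Filter ι), AnalyticOnNhd ℂ (F k) (ball a R) ∧
      MapsTo (F k) (ball a R) (closedBall 0 M))
    {x : E} (hx : x ∈ ball a (R / 2))
    (hε : 0 < ε) (hdet : ∀ᶠ k in (𝒰 : Filter ι), ε ≤ ‖(fderiv ℂ (F k) x).det‖)
    {V : Set E} (hV : IsOpen V) (hVa : V ⊆ ball a (R / 2)) {s : E} (hs : s ∈ V) :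
    ∃ x' ∈ V, ∃ ε' > 0, ∀ᶠ k in (𝒰 : Filter ι), ε' ≤ ‖(fderiv ℂ (F k) x').det‖ := by
  by_contra hcon
  push Not at hcon
  have hz : ∀ x' ∈ V, Tendsto (fun k => (fderiv ℂ (F k) x').det) 𝒰 (𝓝 0) := by
    intro x' hx'
    rw [Metric.tendsto_nhds]
    intro ε' hε'
    filter_upwards [hcon x' hx' ε' hε'] with k hk
    rw [dist_zero_right]
    exact hk
  have : ProperSpace (E →L[ℂ] E) := FiniteDimensional.proper ℂ _
  set C₁ : ℝ := 2 * M / (R / 2) with hC₁
  obtain ⟨C, hC⟩ := (isCompact_closedBall (0 : E →L[ℂ] E) C₁).exists_bound_of_continuousOn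
    (f := fun A : E →L[ℂ] E => A.det) ContinuousLinearMap.continuous_det.continuousOn
  let T : Set ℂ := {t : ℂ | s + t • (x - s) ∈ ball a (R / 2)}
  have hcont : Continuous fun t : ℂ => s + t • (x - s) := by fun_prop
  have hT : IsOpen T := isOpen_ball.preimage hcont
  have hTconv : Convex ℝ T := by
    intro t₁ ht₁ t₂ ht₂ α β hα hβ hαβ
    have h1 := (convex_ball a (R / 2)) ht₁ ht₂ hα hβ hαβ
    have h2 : α • (s + t₁ • (x - s)) + β • (s + t₂ • (x - s)) =
        s + (α • t₁ + β • t₂) • (x - s) := by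
      have : s = (α + β) • s := by rw [hαβ, one_smul]
      rw [smul_add, smul_add, add_smul, smul_assoc, smul_assoc]
      nth_rewrite 5 [this]
      rw [add_smul]
      abel
    rw [h2] at h1
    exact h1
  have hfin := vitali_zero (𝒰 := 𝒰) (T := T) hT hTconv.isPreconnected
    (h := fun k t => (fderiv ℂ (F k) (s + t • (x - s))).det) (C := C) (t₀ := 0) (t₁ := 1) ?_ ?_ ?_ ?_
  · simp only [one_smul, add_sub_cancel] at hfin
    have h1 := Metric.tendsto_nhds.1 hfin ε hε
    obtain ⟨k, hk1, hk2⟩ := (hdet.and h1).exists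
    rw [dist_zero_right] at hk2
    linarith
  · filter_upwards [hF] with k hk
    constructor
    · apply differentiableOn_det
      have hdf : DifferentiableOn ℂ (fderiv ℂ (F k)) (ball a (R / 2)) :=
        (hk.1.fderiv.differentiableOn).mono (ball_subset_ball (by linarith))
      refine hdf.comp ?_ ?_
      · exact (Differentiable.differentiableOn (by fun_prop))
      · intro t ht
        exact ht
    · intro t ht
      apply hC
      rw [mem_closedBall_zero_iff]
      exact norm_fderiv_le hR hk.1.differentiableOn hk.2 ht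
  · change s + (0 : ℂ) • (x - s) ∈ ball a (R / 2)
    rw [zero_smul, add_zero]
    exact hVa hs
  · change s + (1 : ℂ) • (x - s) ∈ ball a (R / 2)
    rw [one_smul, add_sub_cancel]
    exact hx
  · have h1 : ∀ᶠ t in 𝓝 (0 : ℂ), s + t • (x - s) ∈ V := by
      refine hcont.continuousAt.eventually_mem (hV.mem_nhds ?_)
      rw [zero_smul, add_zero]
      exact hs
    filter_upwards [h1] with t ht
    exact hz _ ht

end Several

end Pool.Agent.NonTame
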