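import Pool.Agent.Lib_MP_884f32_an.Auto

/-! Construction of the non-tame set. -/

open Filter Metric Set Topology
open scoped Manifold ContDiff

set_option linter.unusedSectionVars false

namespace Pool.Agent.NonTame

section Top

variable {X : Type*} [TopologicalSpace X]

theorem exists_exhaustion (X : Type*) [TopologicalSpace X] [T2Space X] [LocallyCompactSpace X]
    [SecondCountableTopology X] :
    ∃ u : X → ℝ, Continuous u ∧ (∀ x, 0 ≤ u x) ∧ ∀ r, IsCompact {x | u x ≤ r} := by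
  let K : CompactExhaustion X := CompactExhaustion.choice X
  obtain ⟨g, hg⟩ := exists_continuous_forall_mem_convex_of_local_const
    (t := fun x : X => Ici ((K.find x : ℕ) : ℝ)) (fun x => convex_Ici _) (by
      intro x
      obtain ⟨n, hn⟩ := K.exists_mem_nhds x
      refine ⟨(n : ℝ), ?_⟩
      filter_upwards [hn] with y hy
      rw [mem_Ici]
      exact_mod_cast K.mem_iff_find_le.1 hy)
  refine ⟨g, g.continuous, fun x => (Nat.cast_nonneg _).trans (hg x), ?_⟩
  intro r
  refine (K.isCompact ⌊r⌋₊).of_isClosed_subset (isClosed_le g.continuous continuous_const) ?_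
  intro x hx
  rw [K.mem_iff_find_le]
  have h1 : ((K.find x : ℕ) : ℝ) ≤ r := le_trans (hg x) hx
  exact Nat.le_floor h1

/-- a locally finite set is closed and discrete -/
theorem closed_discrete {D : Set X} [T1Space X]
    (h : ∀ x, ∃ V ∈ 𝓝 x, (D ∩ V).Finite) : ∀ x, Disjoint (𝓝[≠] x) (𝓟 D) := by
  intro x
  obtain ⟨V, hV, hf⟩ := h x
  rw [disjoint_principal_right, mem_nhdsWithin_iff_eventually]
  have h1 : ((D ∩ V) \ {x})ᶜ ∈ 𝓝 x := by
    refine (hf.subset sdiff_subset).isClosed.isOpen_compl.mem_nhds ?_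
    intro h2
    exact h2.2 rfl
  filter_upwards [h1, hV] with y hy1 hyV hyx hyD
  exact hy1 ⟨⟨hyD, hyV⟩, hyx⟩

end Top

variable {E : Type*} [NormedAddCommGroup E] [NormedSpace ℂ E] [FiniteDimensional ℂ E]
variable {X : Type*} [MetricSpace X] [ChartedSpace E X] [IsManifold 𝓘(ℂ, E) ω X]

theorem exists_cover [SecondCountableTopology X] (x₀ : X) :
    ∃ (Q : ℕ → Set X) (q : ℕ → X), (∀ j, IsClosed (Q j)) ∧
      (∀ j, Q j ⊆ (chartAt E (q j)).source) ∧ ∀ x, ∃ j, x ∈ Q j := by
  have hlcp : LocallyCompactSpace X := by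
    have : ProperSpace E := FiniteDimensional.proper ℂ E
    exact ChartedSpace.locallyCompactSpace E X
  have hK : ∀ x : X, ∃ K ∈ 𝓝 x, K ⊆ (chartAt E x).source ∧ IsCompact K := fun x =>
    local_compact_nhds ((chartAt E x).open_source.mem_nhds (mem_chart_source E x))
  choose K hKn hKs hKc using hK
  obtain ⟨s, hs, hsu⟩ := TopologicalSpace.countable_cover_nhds hKn
  have hne : s.Nonempty := by
    by_contra hem
    rw [not_nonempty_iff_eq_empty] at hem
    rw [hem] at hsu
    have : x₀ ∈ (univ : Set X) := mem_univ _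
    rw [← hsu] at this
    simp at this
  obtain ⟨q, hq⟩ := hs.exists_eq_range hne
  refine ⟨fun j => K (q j), q, fun j => (hKc _).isClosed, fun j => hKs _, ?_⟩
  intro x
  have : x ∈ (univ : Set X) := mem_univ _
  rw [← hsu, mem_iUnion₂] at this
  obtain ⟨y, hy, hxy⟩ := this
  rw [hq] at hy
  obtain ⟨j, hj⟩ := hy
  exact ⟨j, by simp only [hj]; exact hxy⟩

theorem main_noncompact (hH : ∀ L : Set X, IsCompact L → HDisc E L) [SecondCountableTopology X]
    {u : X → ℝ} (hu : Continuous u) (hu0 : ∀ x, 0 ≤ u x)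
    (huc : ∀ r, IsCompact {x | u x ≤ r}) {x₀ : X} (hnc : ¬ IsCompact (connectedComponent x₀)) :
    ∃ D : Set X, D.Infinite ∧ (∀ x, ∃ V ∈ 𝓝 x, (D ∩ V).Finite) ∧
      ∃ ζ : X → ℝ, (∀ x, 0 ≤ ζ x) ∧
        ∀ φ : X ≃ₘ^ω⟮𝓘(ℂ, E), 𝓘(ℂ, E)⟯ X, ∃ x ∈ D, u (φ x) < ζ x := by
  have hlc : LocallyConnectedSpace X := ChartedSpace.locallyConnectedSpace E X
  obtain ⟨Q, q, hQc, hQs, hQu⟩ := exists_cover (E := E) x₀
  choose N₁ hN₁ using lemma_one (E := E) hH hu huc hnc hQc hQs
  let N : ℕ → ℕ := fun i => 1 + ∑ j ∈ Finset.range (i + 1), N₁ j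
  have hNmono : Monotone N := by
    intro i j hij
    refine Nat.add_le_add_left ?_ 1
    exact Finset.sum_le_sum_of_subset (Finset.range_subset_range.2 (by omega))
  have hN₁N : ∀ i, N₁ i + 1 ≤ N i := by
    intro i
    have : N₁ i ≤ ∑ j ∈ Finset.range (i + 1), N₁ j :=
      Finset.single_le_sum (fun j _ => Nat.zero_le _) (Finset.mem_range.2 (by omega))
    change N₁ i + 1 ≤ 1 + _
    omega
  have h2 : ∀ i j : ℕ, ∃ D : Set X, D.Finite ∧ (∀ x ∈ D, (i : ℝ) < u x ∧ u x < i + 1) ∧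
      ∀ ψ ∈ Cls E u x₀ Q q i,
        MapsTo ψ (Wset u x₀ ((N j : ℝ) - 1 / ((i : ℝ) + 2))) {x | u x < i + 2} →
        (∀ x ∈ D, x ∉ ψ '' Wset u x₀ ((N j : ℝ) - 1 / ((i : ℝ) + 2))) →
        MapsTo ψ (Wset u x₀ ((N j : ℝ) - 1 / ((i : ℝ) + 1))) {x | u x < i + 1} := by
    intro i j
    refine lemma_two (E := E) hH hu huc hQc hQs i ?_
    have h3 : (0 : ℝ) ≤ i := Nat.cast_nonneg i
    have h4 : 1 / ((i : ℝ) + 2) < 1 / ((i : ℝ) + 1) :=
      one_div_lt_one_div_of_lt (by linarith) (by linarith)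
    linarith
  choose D hDf hDs hDψ using h2
  have hd : ∀ n : ℕ, ∃ x : X, (n : ℝ) < u x := by
    intro n
    by_contra hcon
    push Not at hcon
    have : {x : X | u x ≤ n} = univ := eq_univ_of_forall hcon
    have h3 := huc n
    rw [this] at h3
    exact hnc (h3.of_isClosed_subset isClosed_connectedComponent (subset_univ _))
  choose d hd using hd
  set DD : Set X := (⋃ i : ℕ, ⋃ j ∈ Iic i, D i j) ∪ range d with hDD
  have hlf : ∀ r : ℝ, (DD ∩ {x | u x < r}).Finite := by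
    intro r
    have h3 : DD ∩ {x | u x < r} ⊆ (⋃ i ∈ Iic ⌊r⌋₊, ⋃ j ∈ Iic i, D i j) ∪ d '' Iic ⌊r⌋₊ := by
      rintro x ⟨hx | hx, hxr⟩
      · left
        obtain ⟨i, hi⟩ := mem_iUnion.1 hx
        obtain ⟨j, hj, hx2⟩ := mem_iUnion₂.1 hi
        refine mem_iUnion₂.2 ⟨i, ?_, mem_iUnion₂.2 ⟨j, hj, hx2⟩⟩
        have h4 := (hDs i j x hx2).1
        have h5 : u x < r := hxr
        exact Nat.le_floor (by linarith)
      · right
        obtain ⟨n, rfl⟩ := hx
        refine ⟨n, ?_, rfl⟩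
        have h5 : u (d n) < r := hxr
        exact Nat.le_floor (by linarith [hd n])
    refine Finite.subset ?_ h3
    refine Finite.union ?_ ((finite_Iic _).image d)
    refine (finite_Iic _).biUnion fun i _ => ?_
    exact (finite_Iic i).biUnion fun j _ => hDf i j
  refine ⟨DD, ?_, ?_, fun x => N ⌊u x⌋₊, fun x => Nat.cast_nonneg _, ?_⟩
  · intro hfin
    obtain ⟨M, hM⟩ := (hfin.image u).bddAbove
    obtain ⟨n, hn⟩ := exists_nat_gt M
    have h3 := hM (mem_image_of_mem u (Or.inr ⟨n, rfl⟩ : d n ∈ DD))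
    linarith [hd n]
  · intro x
    exact ⟨{y | u y < u x + 1}, (isOpen_lt hu continuous_const).mem_nhds
      (show u x < u x + 1 by linarith), hlf _⟩
  · intro φ
    by_contra hcon
    push Not at hcon
    set ψ := φ.symm with hψ
    obtain ⟨i₀, hi₀⟩ := cls_exhaust (E := E) (u := u) (x₀ := x₀) hQs hQu ψ
    set n : ℝ := (N i₀ : ℝ) with hn
    have hvoid : ∀ i, i₀ ≤ i → ∀ x ∈ D i i₀, ∀ b < n, x ∉ ψ '' Wset u x₀ b := by
      rintro i hi x hx b hb ⟨w, hw, hwx⟩
      have h3 : x ∈ DD := Or.inl (mem_iUnion.2 ⟨i, mem_iUnion₂.2 ⟨i₀, hi, hx⟩⟩)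
      have h4 := hcon x h3
      have h5 : φ x = w := by
        rw [← hwx, hψ]
        exact φ.apply_symm_apply w
      rw [h5] at h4
      have h6 : ⌊u x⌋₊ = i := by
        obtain ⟨h7, h8⟩ := hDs i i₀ x hx
        rw [Nat.floor_eq_iff (hu0 x)]
        exact ⟨h7.le, h8⟩
      rw [h6] at h4
      have h7 : (N i₀ : ℝ) ≤ N i := by exact_mod_cast hNmono hi
      have h8 : u w < b := wset_lt hw
      linarith
    have hstep : ∀ i, i₀ ≤ i →
        MapsTo ψ (Wset u x₀ (n - 1 / ((i : ℝ) + 2))) {x | u x < i + 2} →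
        MapsTo ψ (Wset u x₀ (n - 1 / ((i : ℝ) + 1))) {x | u x < i + 1} := by
      intro i hi hm
      refine hDψ i i₀ ψ (cls_mono hi hi₀) hm ?_
      intro x hx
      have h3 : (0 : ℝ) < 1 / ((i : ℝ) + 2) := by positivity
      exact hvoid i hi x hx _ (by linarith)
    obtain ⟨M, hM⟩ := ((huc n).image (hu.comp ψ.continuous)).bddAbove
    obtain ⟨m, hm⟩ := exists_nat_gt M
    have hI : MapsTo ψ (Wset u x₀ (n - 1 / (((max m i₀ : ℕ) : ℝ) + 2)))
        {x | u x < ((max m i₀ : ℕ) : ℝ) + 2} := by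
      intro x hx
      have h3 : (0 : ℝ) < 1 / (((max m i₀ : ℕ) : ℝ) + 2) := by positivity
      have h4 : u x ≤ n := by linarith [wset_lt hx]
      have h5 := hM (mem_image_of_mem (u ∘ ψ) h4)
      have h6 : (m : ℝ) ≤ ((max m i₀ : ℕ) : ℝ) := by exact_mod_cast le_max_left _ _
      change u (ψ x) < _
      simp only [Function.comp] at h5
      linarith
    have hdesc : MapsTo ψ (Wset u x₀ (n - 1 / ((i₀ : ℝ) + 2))) {x | u x < i₀ + 2} := by
      refine Nat.decreasingInduction' (n := max m i₀)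
        (P := fun i => MapsTo ψ (Wset u x₀ (n - 1 / ((i : ℝ) + 2))) {x | u x < i + 2}) ?_
        (le_max_right _ _) hI
      intro k _ hk hP
      have h3 := hstep (k + 1) (by omega) hP
      have e1 : ((k + 1 : ℕ) : ℝ) + 1 = (k : ℝ) + 2 := by push_cast; ring
      rw [e1] at h3
      exact h3
    have hfin := hstep i₀ le_rfl hdesc
    refine hN₁ i₀ ψ hi₀ ?_
    intro x hx
    have h3 : (N₁ i₀ : ℝ) ≤ n - 1 / ((i₀ : ℝ) + 1) := by
      have h4 : (N₁ i₀ : ℝ) + 1 ≤ N i₀ := by exact_mod_cast hN₁N i₀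
      have h5 : 1 / ((i₀ : ℝ) + 1) ≤ 1 := by
        rw [div_le_one (by positivity)]
        have : (0 : ℝ) ≤ i₀ := Nat.cast_nonneg i₀
        linarith
      linarith
    have h6 : u (ψ x) < i₀ + 1 := hfin (wset_mono u x₀ h3 hx)
    exact h6.le

theorem main_compact [NoncompactSpace X]
    {u : X → ℝ} (hu : Continuous u) (hu0 : ∀ x, 0 ≤ u x)
    (hc : ∀ x : X, IsCompact (connectedComponent x)) :
    ∃ D : Set X, D.Infinite ∧ (∀ x, ∃ V ∈ 𝓝 x, (D ∩ V).Finite) ∧
      ∃ ζ : X → ℝ, (∀ x, 0 ≤ ζ x) ∧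
        ∀ φ : X ≃ₘ^ω⟮𝓘(ℂ, E), 𝓘(ℂ, E)⟯ X, ∃ x ∈ D, u (φ x) < ζ x := by
  have hlc : LocallyConnectedSpace X := ChartedSpace.locallyConnectedSpace E X
  have hne : Nonempty X := by
    by_contra hem
    rw [not_nonempty_iff] at hem
    exact NoncompactSpace.noncompact_univ (X := X) (by
      rw [univ_eq_empty_iff.2 hem]; exact isCompact_empty)
  obtain ⟨y₀⟩ := hne
  let s : X → X := fun x => Quotient.out (x : ConnectedComponents X)
  have hs : ∀ x, connectedComponent (s x) = connectedComponent x := by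
    intro x
    have : ((s x : X) : ConnectedComponents X) = x := Quotient.out_eq _
    exact ConnectedComponents.coe_eq_coe.1 this
  have hs2 : ∀ x y, connectedComponent x = connectedComponent y → s x = s y := by
    intro x y h
    have : (x : ConnectedComponents X) = y := ConnectedComponents.coe_eq_coe.2 h
    simp only [s, this]
  obtain ⟨M, hM⟩ := ((hc y₀).image hu).bddAbove
  have hM0 : 0 ≤ M := (hu0 y₀).trans (hM (mem_image_of_mem u mem_connectedComponent))
  refine ⟨range s, ?_, ?_, fun _ => M + 1, fun _ => by linarith, ?_⟩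
  · intro hfin
    have h1 : IsCompact (⋃ y ∈ range s, connectedComponent y) :=
      hfin.isCompact_biUnion fun y _ => hc y
    have h2 : (⋃ y ∈ range s, connectedComponent y) = univ := by
      refine eq_univ_of_forall fun x => ?_
      refine mem_iUnion₂.2 ⟨s x, ⟨x, rfl⟩, ?_⟩
      rw [hs]
      exact mem_connectedComponent
    rw [h2] at h1
    exact NoncompactSpace.noncompact_univ h1
  · intro x
    refine ⟨connectedComponent x, isOpen_connectedComponent.mem_nhds mem_connectedComponent, ?_⟩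
    refine (Set.finite_singleton (s x)).subset ?_
    rintro y ⟨⟨z, rfl⟩, hz⟩
    have h1 : connectedComponent x = connectedComponent (s z) := connectedComponent_eq hz
    rw [hs] at h1
    exact hs2 z x h1.symm
  · intro φ
    refine ⟨s (φ.symm y₀), ⟨_, rfl⟩, ?_⟩
    have h1 : s (φ.symm y₀) ∈ connectedComponent (φ.symm y₀) := by
      rw [← hs]
      exact mem_connectedComponent
    have h2 := φ.continuous.mapsTo_connectedComponent _ h1
    rw [φ.apply_symm_apply] at h2
    have h3 := hM (mem_image_of_mem u h2)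
    linarith

end Pool.Agent.NonTame
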