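import Pool.Agent.Lib_MP_884f32_an.Auto2
import Pool.Agent.Lib_MP_884f32_an.Main

/-! Construction of the non-tame set for manifolds with compact hulls. -/

open Filter Metric Set Topology
open scoped Manifold ContDiff

set_option linter.unusedSectionVars false

namespace Pool.Agent.NonTame

variable {E : Type*} [NormedAddCommGroup E] [NormedSpace ℂ E] [FiniteDimensional ℂ E]
variable {X : Type*} [TopologicalSpace X] [ChartedSpace E X] [IsManifold 𝓘(ℂ, E) ω X]
variable {E' : Type*} [NormedAddCommGroup E'] [NormedSpace ℂ E'] [FiniteDimensional ℂ E']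
variable {Y : Type*} [MetricSpace Y] [ChartedSpace E' Y] [IsManifold 𝓘(ℂ, E') ω Y]

theorem cls2_mono {s m : ℕ} {u : X → ℝ} {x₀ : X} {T : ℕ → Cert E E' X Y s m} {i j : ℕ}
    (hij : i ≤ j) : Cls2 u x₀ T i ⊆ Cls2 u x₀ T j := by
  rintro ψ ⟨h1, l, hl, h2⟩
  have h3 : (i : ℝ) ≤ j := by exact_mod_cast hij
  exact ⟨h1.trans h3, l, hl.trans hij, h2⟩

/-- a point of maximal rank -/
theorem exists_max_rank (E E' : Type*) [NormedAddCommGroup E] [NormedSpace ℂ E]
    [FiniteDimensional ℂ E] [NormedAddCommGroup E'] [NormedSpace ℂ E'] [FiniteDimensional ℂ E']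
    {X : Type*} [TopologicalSpace X] [ChartedSpace E X] [IsManifold 𝓘(ℂ, E) ω X]
    (Y : Type*) [MetricSpace Y] [ChartedSpace E' Y] [IsManifold 𝓘(ℂ, E') ω Y] (x₀ : X) :
    ∃ m : ℕ, (∃ x ∈ connectedComponent x₀, HasRank E E' Y m x) ∧
      ∀ x ∈ connectedComponent x₀, ¬ HasRank E E' Y (m + 1) x := by
  classical
  have hb : ∀ m, (∃ x ∈ connectedComponent x₀, HasRank E E' Y m x) →
      m ≤ Module.finrank ℂ E := by
    rintro m ⟨x, -, hx⟩
    exact hasRank_le hx
  set P : ℕ → Prop := fun m => ∃ x ∈ connectedComponent x₀, HasRank E E' Y m x with hP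
  have h0 : P 0 := ⟨x₀, mem_connectedComponent, hasRank_zero x₀⟩
  refine ⟨Nat.findGreatest P (Module.finrank ℂ E), ?_, ?_⟩
  · exact Nat.findGreatest_spec (P := P) (Nat.zero_le _) h0
  · intro x hx hr
    have h1 : P (Nat.findGreatest P (Module.finrank ℂ E) + 1) := ⟨x, hx, hr⟩
    have h2 := Nat.le_findGreatest (P := P) (hb _ h1) h1
    omega

theorem main_noncompact2 [T2Space X] [SecondCountableTopology X] [SecondCountableTopology Y]
    (hH : ∀ L : Set Y, IsCompact L → HDisc E' L)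
    (hHull : ∀ K : Set X, IsCompact K → IsCompact (FHull (HolF E E' X Y) K))
    {u : X → ℝ} (hu : Continuous u) (hu0 : ∀ x, 0 ≤ u x)
    (huc : ∀ r, IsCompact {x | u x ≤ r})
    (hus : ∀ x x', FRel (HolF E E' X Y) x x' → u x = u x')
    {x₀ : X} (hnc : ¬ IsCompact (connectedComponent x₀)) :
    ∃ D : Set X, D.Infinite ∧ (∀ x, ∃ V ∈ 𝓝 x, (D ∩ V).Finite) ∧
      ∃ ζ : X → ℝ, (∀ x, 0 ≤ ζ x) ∧
        ∀ φ : X ≃ₘ^ω⟮𝓘(ℂ, E), 𝓘(ℂ, E)⟯ X, ∃ x ∈ D, u (φ x) < ζ x := by
  have hlc : LocallyConnectedSpace X := ChartedSpace.locallyConnectedSpace E X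
  have hlcp : LocallyCompactSpace X := by
    have : ProperSpace E := FiniteDimensional.proper ℂ E
    exact ChartedSpace.locallyCompactSpace E X
  obtain ⟨mr, ⟨xs, hxs, hxr⟩, hmax⟩ := exists_max_rank E E' Y x₀
  obtain ⟨s, T, hTx, hTex⟩ := exists_certs (E := E) (E' := E') (Y := Y) hxs hxr
  choose N₀ hN₀ using lemma_one2 (E := E) (E' := E') hH hHull hu huc hnc hTx hmax
  have hA : ∀ l, ∃ n : ℕ, (T l).x ∈ Wset u x₀ n := fun l => wset_exhaust hu x₀ (hTx l)
  choose A hA using hA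
  let N₁ : ℕ → ℕ := fun i => N₀ i + A i
  have hN₁ : ∀ i, ∀ ψ ∈ Cls2 u x₀ T i, ¬ MapsTo ψ (Wset u x₀ (N₁ i)) {x | u x ≤ i + 1} := by
    intro i ψ hψ hm
    refine hN₀ i ψ hψ (hm.mono_left (wset_mono u x₀ ?_))
    have : N₀ i ≤ N₁ i := Nat.le_add_right _ _
    exact_mod_cast this
  let N : ℕ → ℕ := fun i => 1 + ∑ j ∈ Finset.range (i + 1), N₁ j
  have hNmono : Monotone N := by
    intro i j hij
    refine Nat.add_le_add_left ?_ 1
    exact Finset.sum_le_sum_of_subset (Finset.range_subset_range.2 (by omega))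
  have hN₁N : ∀ i, N₁ i + 1 ≤ N i := by
    intro i
    have : N₁ i ≤ ∑ j ∈ Finset.range (i + 1), N₁ j :=
      Finset.single_le_sum (fun j _ => Nat.zero_le _) (Finset.mem_range.2 (by omega))
    change N₁ i + 1 ≤ 1 + _
    omega
  have hAN : ∀ l j, l ≤ j → A l + 1 ≤ N j := by
    intro l j hlj
    have h1 := hN₁N l
    have h2 := hNmono hlj
    have h3 : A l ≤ N₁ l := Nat.le_add_left _ _
    omega
  have h2 : ∀ i j : ℕ, ∃ D : Set X, D.Finite ∧ (∀ x ∈ D, (i : ℝ) < u x ∧ u x < i + 1) ∧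
      (j ≤ i → ∀ ψ ∈ Cls2 u x₀ T j,
        MapsTo ψ (Wset u x₀ ((N j : ℝ) - 1 / ((i : ℝ) + 2))) {x | u x < i + 2} →
        (∀ x ∈ D, x ∉ ψ '' {x | u x < (N j : ℝ) - 1 / ((i : ℝ) + 2)}) →
        MapsTo ψ (Wset u x₀ ((N j : ℝ) - 1 / ((i : ℝ) + 1))) {x | u x < i + 1}) := by
    intro i j
    by_cases hji : j ≤ i
    swap
    · exact ⟨∅, finite_empty, by simp, fun h => absurd h hji⟩
    have h3 : (0 : ℝ) ≤ i := Nat.cast_nonneg i
    have h4 : 1 / ((i : ℝ) + 2) < 1 / ((i : ℝ) + 1) :=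
      one_div_lt_one_div_of_lt (by linarith) (by linarith)
    obtain ⟨D, hD1, hD2, hD3⟩ := lemma_two2 (E := E) (E' := E') hH hu huc hus (T := T) hmax hji
      (a := (N j : ℝ) - 1 / ((i : ℝ) + 1)) (b := (N j : ℝ) - 1 / ((i : ℝ) + 2))
      (by linarith) (by
        intro l hl
        refine wset_mono u x₀ ?_ (hA l)
        have h5 : ((A l : ℕ) : ℝ) + 1 ≤ N j := by exact_mod_cast hAN l j hl
        have h6 : 1 / ((i : ℝ) + 2) ≤ 1 := by
          rw [div_le_one (by positivity)]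
          linarith
        linarith)
    exact ⟨D, hD1, hD2, fun _ => hD3⟩
  choose D hDf hDs hDψ using h2
  have hd : ∀ n : ℕ, ∃ x : X, (n : ℝ) < u x := by
    intro n
    by_contra hcon
    push Not at hcon
    have : {x : X | u x ≤ n} = univ := eq_univ_of_forall hcon
    have h3 := huc n
    rw [this] at h3
    exact hnc (h3.of_isClosed_subset isClosed_connectedComponent (subset_univ _))
  choose d hd using hd
  set DD : Set X := (⋃ i : ℕ, ⋃ j ∈ Iic i, D i j) ∪ range d with hDD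
  have hlf : ∀ r : ℝ, (DD ∩ {x | u x < r}).Finite := by
    intro r
    have h3 : DD ∩ {x | u x < r} ⊆ (⋃ i ∈ Iic ⌊r⌋₊, ⋃ j ∈ Iic i, D i j) ∪ d '' Iic ⌊r⌋₊ := by
      rintro x ⟨hx | hx, hxr⟩
      · left
        obtain ⟨i, hi⟩ := mem_iUnion.1 hx
        obtain ⟨j, hj, hx2⟩ := mem_iUnion₂.1 hi
        refine mem_iUnion₂.2 ⟨i, ?_, mem_iUnion₂.2 ⟨j, hj, hx2⟩⟩
        have h4 := (hDs i j x hx2).1
        have h5 : u x < r := hxr
        exact Nat.le_floor (by linarith)
      · right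
        obtain ⟨n, rfl⟩ := hx
        refine ⟨n, ?_, rfl⟩
        have h5 : u (d n) < r := hxr
        exact Nat.le_floor (by linarith [hd n])
    refine Finite.subset ?_ h3
    refine Finite.union ?_ ((finite_Iic _).image d)
    refine (finite_Iic _).biUnion fun i _ => ?_
    exact (finite_Iic i).biUnion fun j _ => hDf i j
  refine ⟨DD, ?_, ?_, fun x => N ⌊u x⌋₊, fun x => Nat.cast_nonneg _, ?_⟩
  · intro hfin
    obtain ⟨M, hM⟩ := (hfin.image u).bddAbove
    obtain ⟨n, hn⟩ := exists_nat_gt M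
    have h3 := hM (mem_image_of_mem u (Or.inr ⟨n, rfl⟩ : d n ∈ DD))
    linarith [hd n]
  · intro x
    exact ⟨{y | u y < u x + 1}, (isOpen_lt hu continuous_const).mem_nhds
      (show u x < u x + 1 by linarith), hlf _⟩
  · intro φ
    by_contra hcon
    push Not at hcon
    set ψ := φ.symm with hψ
    obtain ⟨i₀, hi₀⟩ := cls2_exhaust (E := E) (E' := E') (u := u) (x₀ := x₀) hTex ψ
    set n : ℝ := (N i₀ : ℝ) with hn
    have hvoid : ∀ i, i₀ ≤ i → ∀ x ∈ D i i₀, ∀ b < n, x ∉ ψ '' {x | u x < b} := by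
      rintro i hi x hx b hb ⟨w, hw, hwx⟩
      have h3 : x ∈ DD := Or.inl (mem_iUnion.2 ⟨i, mem_iUnion₂.2 ⟨i₀, hi, hx⟩⟩)
      have h4 := hcon x h3
      have h5 : φ x = w := by
        rw [← hwx, hψ]
        exact φ.apply_symm_apply w
      rw [h5] at h4
      have h6 : ⌊u x⌋₊ = i := by
        obtain ⟨h7, h8⟩ := hDs i i₀ x hx
        rw [Nat.floor_eq_iff (hu0 x)]
        exact ⟨h7.le, h8⟩
      rw [h6] at h4
      have h7 : (N i₀ : ℝ) ≤ N i := by exact_mod_cast hNmono hi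
      have h8 : u w < b := hw
      linarith
    have hstep : ∀ i, i₀ ≤ i →
        MapsTo ψ (Wset u x₀ (n - 1 / ((i : ℝ) + 2))) {x | u x < i + 2} →
        MapsTo ψ (Wset u x₀ (n - 1 / ((i : ℝ) + 1))) {x | u x < i + 1} := by
      intro i hi hm
      refine hDψ i i₀ hi ψ hi₀ hm ?_
      intro x hx
      have h3 : (0 : ℝ) < 1 / ((i : ℝ) + 2) := by positivity
      exact hvoid i hi x hx _ (by linarith)
    obtain ⟨M, hM⟩ := ((huc n).image (hu.comp ψ.continuous)).bddAbove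
    obtain ⟨m, hm⟩ := exists_nat_gt M
    have hI : MapsTo ψ (Wset u x₀ (n - 1 / (((max m i₀ : ℕ) : ℝ) + 2)))
        {x | u x < ((max m i₀ : ℕ) : ℝ) + 2} := by
      intro x hx
      have h3 : (0 : ℝ) < 1 / (((max m i₀ : ℕ) : ℝ) + 2) := by positivity
      have h4 : u x ≤ n := by linarith [wset_lt hx]
      have h5 := hM (mem_image_of_mem (u ∘ ψ) h4)
      have h6 : (m : ℝ) ≤ ((max m i₀ : ℕ) : ℝ) := by exact_mod_cast le_max_left _ _
      change u (ψ x) < _
      simp only [Function.comp] at h5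
      linarith
    have hdesc : MapsTo ψ (Wset u x₀ (n - 1 / ((i₀ : ℝ) + 2))) {x | u x < i₀ + 2} := by
      refine Nat.decreasingInduction' (n := max m i₀)
        (P := fun i => MapsTo ψ (Wset u x₀ (n - 1 / ((i : ℝ) + 2))) {x | u x < i + 2}) ?_
        (le_max_right _ _) hI
      intro k _ hk hP
      have h3 := hstep (k + 1) (by omega) hP
      have e1 : ((k + 1 : ℕ) : ℝ) + 1 = (k : ℝ) + 2 := by push_cast; ring
      rw [e1] at h3
      exact h3
    have hfin := hstep i₀ le_rfl hdesc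
    refine hN₁ i₀ ψ hi₀ ?_
    intro x hx
    have h3 : (N₁ i₀ : ℝ) ≤ n - 1 / ((i₀ : ℝ) + 1) := by
      have h4 : (N₁ i₀ : ℝ) + 1 ≤ N i₀ := by exact_mod_cast hN₁N i₀
      have h5 : 1 / ((i₀ : ℝ) + 1) ≤ 1 := by
        rw [div_le_one (by positivity)]
        have : (0 : ℝ) ≤ i₀ := Nat.cast_nonneg i₀
        linarith
      linarith
    have h6 : u (ψ x) < i₀ + 1 := hfin (wset_mono u x₀ h3 hx)
    exact h6.le

theorem main_compact2 [NoncompactSpace X]
    {u : X → ℝ} (hu : Continuous u) (hu0 : ∀ x, 0 ≤ u x)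
    (hc : ∀ x : X, IsCompact (connectedComponent x)) :
    ∃ D : Set X, D.Infinite ∧ (∀ x, ∃ V ∈ 𝓝 x, (D ∩ V).Finite) ∧
      ∃ ζ : X → ℝ, (∀ x, 0 ≤ ζ x) ∧
        ∀ φ : X ≃ₘ^ω⟮𝓘(ℂ, E), 𝓘(ℂ, E)⟯ X, ∃ x ∈ D, u (φ x) < ζ x := by
  have hlc : LocallyConnectedSpace X := ChartedSpace.locallyConnectedSpace E X
  have hne : Nonempty X := by
    by_contra hem
    rw [not_nonempty_iff] at hem
    exact NoncompactSpace.noncompact_univ (X := X) (by
      rw [univ_eq_empty_iff.2 hem]; exact isCompact_empty)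
  obtain ⟨y₀⟩ := hne
  let s : X → X := fun x => Quotient.out (x : ConnectedComponents X)
  have hs : ∀ x, connectedComponent (s x) = connectedComponent x := by
    intro x
    have : ((s x : X) : ConnectedComponents X) = x := Quotient.out_eq _
    exact ConnectedComponents.coe_eq_coe.1 this
  have hs2 : ∀ x y, connectedComponent x = connectedComponent y → s x = s y := by
    intro x y h
    have : (x : ConnectedComponents X) = y := ConnectedComponents.coe_eq_coe.2 h
    simp only [s, this]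
  obtain ⟨M, hM⟩ := ((hc y₀).image hu).bddAbove
  have hM0 : 0 ≤ M := (hu0 y₀).trans (hM (mem_image_of_mem u mem_connectedComponent))
  refine ⟨range s, ?_, ?_, fun _ => M + 1, fun _ => by linarith, ?_⟩
  · intro hfin
    have h1 : IsCompact (⋃ y ∈ range s, connectedComponent y) :=
      hfin.isCompact_biUnion fun y _ => hc y
    have h2 : (⋃ y ∈ range s, connectedComponent y) = univ := by
      refine eq_univ_of_forall fun x => ?_
      refine mem_iUnion₂.2 ⟨s x, ⟨x, rfl⟩, ?_⟩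
      rw [hs]
      exact mem_connectedComponent
    rw [h2] at h1
    exact NoncompactSpace.noncompact_univ h1
  · intro x
    refine ⟨connectedComponent x, isOpen_connectedComponent.mem_nhds mem_connectedComponent, ?_⟩
    refine (Set.finite_singleton (s x)).subset ?_
    rintro y ⟨⟨z, rfl⟩, hz⟩
    have h1 : connectedComponent x = connectedComponent (s z) := connectedComponent_eq hz
    rw [hs] at h1
    exact hs2 z x h1.symm
  · intro φ
    refine ⟨s (φ.symm y₀), ⟨_, rfl⟩, ?_⟩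
    have h1 : s (φ.symm y₀) ∈ connectedComponent (φ.symm y₀) := by
      rw [← hs]
      exact mem_connectedComponent
    have h2 := φ.continuous.mapsTo_connectedComponent _ h1
    rw [φ.apply_symm_apply] at h2
    have h3 := hM (mem_image_of_mem u h2)
    linarith

end Pool.Agent.NonTame
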