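import Pool.Agent.Lib_MP_884f32_an.Loc

/-! Robust openness modulo the relation defined by all holomorphic maps. -/

open Filter Metric Set Topology
open scoped Manifold ContDiff

set_option linter.unusedSectionVars false

namespace Pool.Agent.NonTame

variable {E : Type*} [NormedAddCommGroup E] [NormedSpace ℂ E] [FiniteDimensional ℂ E]
variable {X : Type*} [TopologicalSpace X] [ChartedSpace E X] [IsManifold 𝓘(ℂ, E) ω X]
variable {E' : Type*} [NormedAddCommGroup E'] [NormedSpace ℂ E'] [FiniteDimensional ℂ E']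
variable {Y : Type*} [MetricSpace Y] [ChartedSpace E' Y] [IsManifold 𝓘(ℂ, E') ω Y]

section Family

variable {ι : Type*} {𝒰 : Ultrafilter ι} {ψ : ι → X → X} {s : ℕ} {g : Fin s → X → Y}

/-- a good ball in a chart -/
theorem exists_good_ball2 (hψ : ∀ k, ContMDiff 𝓘(ℂ, E) 𝓘(ℂ, E) ω (ψ k))
    (hg : ∀ j, ContMDiff 𝓘(ℂ, E) 𝓘(ℂ, E') ω (g j)) {x' x : X} {y : Fin s → Y} {z : Fin s → Y}
    (hx : x ∈ (chartAt E x').source) (hy : ∀ j, z j ∈ (chartAt E' (y j)).source)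
    (hcc : ∀ j, Tendsto (fun p : ι × X => g j (ψ p.1 p.2)) ((𝒰 : Filter ι) ×ˢ 𝓝 x) (𝓝 (z j)))
    {V : Set X} (hV : V ∈ 𝓝 x) :
    ∃ R > 0, ∃ M : ℝ, ball (chartAt E x' x) R ⊆ (chartAt E x').target ∧
      MapsTo (chartAt E x').symm (ball (chartAt E x' x) R) V ∧
      ∀ᶠ k in (𝒰 : Filter ι), AnalyticOnNhd ℂ (rr E E' g y x' (ψ k)) (ball (chartAt E x' x) R) ∧
        MapsTo (rr E E' g y x' (ψ k)) (ball (chartAt E x' x) R) (closedBall 0 M) ∧
        ∀ v ∈ ball (chartAt E x' x) R, ∀ j,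
          g j (ψ k ((chartAt E x').symm v)) ∈ (chartAt E' (y j)).source := by
  set c := chartAt E x' with hc
  set M : ℝ := ∑ j, (‖chartAt E' (y j) (z j)‖ + 1) with hM
  have hM1 : ∀ j, ‖chartAt E' (y j) (z j)‖ + 1 ≤ M := by
    intro j
    exact Finset.single_le_sum (f := fun j => ‖chartAt E' (y j) (z j)‖ + 1)
      (fun i _ => by positivity) (Finset.mem_univ j)
  have hM0 : 0 ≤ M := Finset.sum_nonneg fun i _ => by positivity
  have h2 : ∀ᶠ p in ((𝒰 : Filter ι) ×ˢ 𝓝 x), ∀ j, g j (ψ p.1 p.2) ∈ (chartAt E' (y j)).source ∧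
      ‖chartAt E' (y j) (g j (ψ p.1 p.2))‖ < ‖chartAt E' (y j) (z j)‖ + 1 := by
    rw [eventually_all]
    intro j
    have h1 : ∀ᶠ q in 𝓝 (z j), q ∈ (chartAt E' (y j)).source ∧
        ‖chartAt E' (y j) q‖ < ‖chartAt E' (y j) (z j)‖ + 1 := by
      have h2 : ContinuousAt (fun q => ‖chartAt E' (y j) q‖) (z j) :=
        ((chartAt E' (y j)).continuousAt (hy j)).norm
      filter_upwards [(chartAt E' (y j)).open_source.mem_nhds (hy j),
        h2.eventually_lt_const (show ‖chartAt E' (y j) (z j)‖ < ‖chartAt E' (y j) (z j)‖ + 1 by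
          linarith)] with q hq1 hq2
      exact ⟨hq1, hq2⟩
    exact (hcc j).eventually h1
  rw [eventually_prod_iff] at h2
  obtain ⟨P, hP, Q, hQ, hPQ⟩ := h2
  have h3 : ContinuousAt c.symm (c x) := c.continuousAt_symm (c.map_source hx)
  have h4 : ∀ᶠ v in 𝓝 (c x), (Q (c.symm v) ∧ c.symm v ∈ V) ∧ v ∈ c.target := by
    have h5 : ∀ᶠ q in 𝓝 (c.symm (c x)), Q q ∧ q ∈ V := by
      rw [c.left_inv hx]
      filter_upwards [hQ, hV] with q hq1 hq2
      exact ⟨hq1, hq2⟩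
    filter_upwards [h3.eventually h5, c.open_target.mem_nhds (c.map_source hx)] with v hv1 hv2
    exact ⟨hv1, hv2⟩
  obtain ⟨R, hR, hRb⟩ := Metric.eventually_nhds_iff_ball.1 h4
  refine ⟨R, hR, M, fun v hv => (hRb v hv).2, fun v hv => (hRb v hv).1.2, ?_⟩
  filter_upwards [hP] with k hk
  have h6 : ∀ v ∈ ball (c x) R, ∀ j, g j (ψ k (c.symm v)) ∈ (chartAt E' (y j)).source ∧
      ‖chartAt E' (y j) (g j (ψ k (c.symm v)))‖ < ‖chartAt E' (y j) (z j)‖ + 1 :=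
    fun v hv => hPQ hk (hRb v hv).1.1
  refine ⟨?_, ?_, fun v hv j => (h6 v hv j).1⟩
  · intro v hv
    exact rr_analyticAt hg (hψ k) (hRb v hv).2 (fun j => (h6 v hv j).1)
  · intro v hv
    rw [mem_closedBall_zero_iff, pi_norm_le_iff_of_nonneg hM0]
    intro j
    exact (h6 v hv j).2.le.trans (hM1 j)

/-- the limit of the derivatives has rank at least `m` -/
def NDD (E E' : Type*) [NormedAddCommGroup E] [NormedSpace ℂ E]
    [NormedAddCommGroup E'] [NormedSpace ℂ E']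
    {X : Type*} [TopologicalSpace X] [ChartedSpace E X] {Y : Type*} [TopologicalSpace Y]
    [ChartedSpace E' Y] {ι : Type*} (𝒰 : Ultrafilter ι) (ψ : ι → X → X) {s : ℕ}
    (g : Fin s → X → Y) (m : ℕ) (x' : X) (y : Fin s → Y) (x : X) : Prop :=
  ∃ D : E →L[ℂ] (Fin s → E'),
    Tendsto (fun k => fderiv ℂ (rr E E' g y x' (ψ k)) (chartAt E x' x)) 𝒰 (𝓝 D) ∧ Rk m D

theorem NDD_change (hψ : ∀ k, ContMDiff 𝓘(ℂ, E) 𝓘(ℂ, E) ω (ψ k))
    (hg : ∀ j, ContMDiff 𝓘(ℂ, E) 𝓘(ℂ, E') ω (g j)) {m : ℕ} {x₁ x₂ x : X}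
    {y₁ y₂ : Fin s → Y} {z : Fin s → Y}
    (hx₁ : x ∈ (chartAt E x₁).source) (hx₂ : x ∈ (chartAt E x₂).source)
    (hy₁ : ∀ j, z j ∈ (chartAt E' (y₁ j)).source) (hy₂ : ∀ j, z j ∈ (chartAt E' (y₂ j)).source)
    (hlim : ∀ j, Tendsto (fun k => g j (ψ k x)) 𝒰 (𝓝 (z j)))
    (h : NDD E E' 𝒰 ψ g m x₁ y₁ x) : NDD E E' 𝒰 ψ g m x₂ y₂ x := by
  obtain ⟨D, hD, hDr⟩ := h
  have hid : ContMDiff 𝓘(ℂ, E) 𝓘(ℂ, E) ω (id : X → X) := contMDiff_id
  have hcE' : CompleteSpace E' := FiniteDimensional.complete ℂ E'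
  set B := fderiv ℂ (rdd E E x₂ x₁ (id : X → X)) (chartAt E x₂ x) with hB
  set T := fderiv ℂ (TT E' y₁ y₂) (fun j => chartAt E' (y₁ j) (z j)) with hT
  have hs1 : ∀ᶠ k in (𝒰 : Filter ι), ∀ j, g j (ψ k x) ∈ (chartAt E' (y₁ j)).source :=
    eventually_all.2 fun j => (hlim j).eventually_mem
      ((chartAt E' (y₁ j)).open_source.mem_nhds (hy₁ j))
  have hs2 : ∀ᶠ k in (𝒰 : Filter ι), ∀ j, g j (ψ k x) ∈ (chartAt E' (y₂ j)).source :=
    eventually_all.2 fun j => (hlim j).eventually_mem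
      ((chartAt E' (y₂ j)).open_source.mem_nhds (hy₂ j))
  have hTk : Tendsto (fun k => fderiv ℂ (TT E' y₁ y₂)
      (fun j => chartAt E' (y₁ j) (g j (ψ k x)))) 𝒰 (𝓝 T) := by
    have h1 : ContinuousAt (fderiv ℂ (TT E' y₁ y₂)) (fun j => chartAt E' (y₁ j) (z j)) :=
      (TT_analyticAt hy₁ hy₂).fderiv.continuousAt
    have h2 : Tendsto (fun k => fun j => chartAt E' (y₁ j) (g j (ψ k x))) 𝒰
        (𝓝 (fun j => chartAt E' (y₁ j) (z j))) := by
      rw [tendsto_pi_nhds]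
      intro j
      exact ((chartAt E' (y₁ j)).continuousAt (hy₁ j)).tendsto.comp (hlim j)
    exact h1.tendsto.comp h2
  refine ⟨T ∘L D ∘L B, ?_, ?_⟩
  · have h1 : Tendsto (fun k => (fderiv ℂ (TT E' y₁ y₂)
        (fun j => chartAt E' (y₁ j) (g j (ψ k x)))) ∘L
        (fderiv ℂ (rr E E' g y₁ x₁ (ψ k)) (chartAt E x₁ x)) ∘L B) 𝒰 (𝓝 (T ∘L D ∘L B)) := by
      have c1 : Continuous fun q : ((Fin s → E') →L[ℂ] (Fin s → E')) × (E →L[ℂ] (Fin s → E')) =>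
          q.1 ∘L q.2 ∘L B :=
        continuous_fst.clm_comp (continuous_snd.clm_comp continuous_const)
      exact (c1.tendsto (T, D)).comp (hTk.prodMk_nhds hD)
    refine h1.congr' ?_
    filter_upwards [hs1, hs2] with k hk1 hk2
    have e1 := rr_target (E := E) hg (hψ k) hx₂ hk1 hk2
    have e2 := rr_comp (E := E) hg hid (hψ k) (x₁ := x₂) (z₁ := x₁) (x := x) hx₂ hx₁ hk1
    have e3 : rr E E' g y₁ x₂ (ψ k ∘ (id : X → X)) = rr E E' g y₁ x₂ (ψ k) := rfl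
    rw [e3] at e2
    rw [e1, e2]
    rfl
  · exact rk_comp (TT_inverse hy₁ hy₂)
      (rdd_surjective (E := E) hid hid (fun _ => rfl) (fun _ => rfl) hx₂ hx₁) hDr

/-- nondegenerate point -/
def NDq (E E' : Type*) [NormedAddCommGroup E] [NormedSpace ℂ E]
    [NormedAddCommGroup E'] [NormedSpace ℂ E']
    {X : Type*} [TopologicalSpace X] [ChartedSpace E X] {Y : Type*} [TopologicalSpace Y]
    [ChartedSpace E' Y] {ι : Type*} (𝒰 : Ultrafilter ι) (ψ : ι → X → X) {s : ℕ}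
    (g : Fin s → X → Y) (m : ℕ) (e : X → X) (x : X) : Prop :=
  ∃ (x' : X) (y : Fin s → Y), x ∈ (chartAt E x').source ∧
    (∀ j, g j (e x) ∈ (chartAt E' (y j)).source) ∧ NDD E E' 𝒰 ψ g m x' y x

theorem ndq_dense (hψ : ∀ k, ContMDiff 𝓘(ℂ, E) 𝓘(ℂ, E) ω (ψ k))
    (hg : ∀ j, ContMDiff 𝓘(ℂ, E) 𝓘(ℂ, E') ω (g j)) {m : ℕ} {W : Set X}
    (hW : IsOpen W) (hWc : IsPreconnected W) {e : X → X}
    (hcc : ∀ x ∈ W, ∀ j, Tendsto (fun p : ι × X => g j (ψ p.1 p.2)) ((𝒰 : Filter ι) ×ˢ 𝓝 x)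
      (𝓝 (g j (e x))))
    {x₀ : X} (hx₀ : x₀ ∈ W) (hnd : NDq E E' 𝒰 ψ g m e x₀) :
    W ⊆ closure {x | x ∈ W ∧ NDq E E' 𝒰 ψ g m e x} := by
  have hgc : ∀ x ∈ W, ∀ j, ContinuousAt (fun x => g j (e x)) x := by
    intro x hx j
    refine continuousAt_of_cc (F := fun k x => g j (ψ k x)) (l := (𝒰 : Filter ι)) ?_ (hcc x hx j)
    filter_upwards [hW.mem_nhds hx] with x' hx'
    exact cc_pointwise (F := fun k x => g j (ψ k x)) (hcc x' hx' j)
  set S : Set X := {x | x ∈ W ∧ NDq E E' 𝒰 ψ g m e x} with hS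
  have hloc : ∀ q ∈ W, q ∈ closure S → q ∈ interior (closure S) := by
    intro q hqW hqD
    have hqs : q ∈ (chartAt E q).source := mem_chart_source E q
    let y : Fin s → Y := fun j => g j (e q)
    have hgs : ∀ j, g j (e q) ∈ (chartAt E' (y j)).source := fun j => mem_chart_source E' _
    have hV : {x | x ∈ W ∧ ∀ j, g j (e x) ∈ (chartAt E' (y j)).source} ∈ 𝓝 q := by
      have h1 : ∀ᶠ x in 𝓝 q, ∀ j, g j (e x) ∈ (chartAt E' (y j)).source :=
        eventually_all.2 fun j => (hgc q hqW j).eventually_mem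
          ((chartAt E' (y j)).open_source.mem_nhds (hgs j))
      filter_upwards [hW.mem_nhds hqW, h1] with x h1 h2
      exact ⟨h1, h2⟩
    obtain ⟨R, hR, M, hRt, hRV, hev⟩ := exists_good_ball2 hψ hg hqs hgs (hcc q hqW) hV
    set c := chartAt E q with hc
    set B : Set X := c.source ∩ c ⁻¹' ball (c q) (R / 2) with hB
    have hBo : IsOpen B := c.isOpen_inter_preimage isOpen_ball
    have hqB : q ∈ B := ⟨hqs, mem_ball_self (half_pos hR)⟩
    have hBV : ∀ x ∈ B, x ∈ W ∧ ∀ j, g j (e x) ∈ (chartAt E' (y j)).source := by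
      intro x hx
      have h1 := hRV (ball_subset_ball (by linarith : R / 2 ≤ R) hx.2)
      rw [c.left_inv hx.1] at h1
      exact h1
    obtain ⟨p, hpB, hpD⟩ := mem_closure_iff_nhds.1 hqD _ (hBo.mem_nhds hqB)
    obtain ⟨x₁, y₁, hx₁, hy₁, hp⟩ := hpD.2
    have hp2 : NDD E E' 𝒰 ψ g m q y p :=
      NDD_change hψ hg hx₁ hpB.1 hy₁ (hBV p hpB).2
        (fun j => cc_pointwise (F := fun k x => g j (ψ k x)) (hcc p (hBV p hpB).1 j)) hp
    obtain ⟨D, hDt, hDr⟩ := hp2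
    rw [mem_interior_iff_mem_nhds]
    refine mem_of_superset (hBo.mem_nhds hqB) ?_
    intro x hx
    rw [mem_closure_iff_nhds]
    intro T hT
    obtain ⟨T', hT'T, hT'o, hxT'⟩ := _root_.mem_nhds_iff.1 (inter_mem hT (hBo.mem_nhds hx))
    have hVo : IsOpen (c.target ∩ c.symm ⁻¹' T') := c.isOpen_inter_preimage_symm hT'o
    have hVa : c.target ∩ c.symm ⁻¹' T' ⊆ ball (c q) (R / 2) := by
      rintro v ⟨hv1, hv2⟩
      have h1 := (hT'T hv2).2.2
      change c (c.symm v) ∈ ball (c q) (R / 2) at h1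
      rwa [c.right_inv hv1] at h1
    have hxV : c x ∈ c.target ∩ c.symm ⁻¹' T' := by
      refine ⟨c.map_source hx.1, ?_⟩
      change c.symm (c x) ∈ T'
      rwa [c.left_inv hx.1]
    obtain ⟨v, hv, D', hD't, hD'r⟩ := rk_dense (𝒰 := 𝒰) (F := fun k => rr E E' g y q (ψ k))
      (a := c q) (M := M) hR (hev.mono fun k hk => ⟨hk.1, hk.2.1⟩) (x := c p) hpB.2 hDr hDt
      hVo hVa hxV
    have hvB : c.symm v ∈ B := (hT'T hv.2).2
    refine ⟨c.symm v, (hT'T hv.2).1, (hBV _ hvB).1, q, y, hvB.1, (hBV _ hvB).2, D', ?_, hD'r⟩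
    rw [← hc, c.right_inv hv.1]
    exact hD't
  have hsub : W ⊆ interior (closure S) := by
    refine hWc.subset_of_closure_inter_subset isOpen_interior ?_ ?_
    · exact ⟨x₀, hx₀, hloc x₀ hx₀ (subset_closure ⟨hx₀, hnd⟩)⟩
    · rintro q ⟨hq1, hq2⟩
      refine hloc q hq2 ?_
      exact closure_minimal interior_subset isClosed_closure hq1
  exact hsub.trans interior_subset

end Family

end Pool.Agent.NonTame
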