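import Pool.Agent.Lib_MP_884f32_an.Robust

/-! Robust openness modulo the relation defined by all holomorphic maps: main statement. -/

open Filter Metric Set Topology
open scoped Manifold ContDiff

set_option linter.unusedSectionVars false

namespace Pool.Agent.NonTame

variable {E : Type*} [NormedAddCommGroup E] [NormedSpace ℂ E] [FiniteDimensional ℂ E]
variable {X : Type*} [TopologicalSpace X] [ChartedSpace E X] [IsManifold 𝓘(ℂ, E) ω X]
variable {E' : Type*} [NormedAddCommGroup E'] [NormedSpace ℂ E'] [FiniteDimensional ℂ E']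
variable {Y : Type*} [MetricSpace Y] [ChartedSpace E' Y] [IsManifold 𝓘(ℂ, E') ω Y]

theorem RR_continuousAt {s : ℕ} {g : Fin s → X → Y} {y : Fin s → Y}
    (hg : ∀ j, ContMDiff 𝓘(ℂ, E) 𝓘(ℂ, E') ω (g j)) {z : X}
    (hz : ∀ j, g j z ∈ (chartAt E' (y j)).source) : ContinuousAt (RR E' g y) z := by
  rw [continuousAt_pi]
  intro j
  exact ContinuousAt.comp (g := chartAt E' (y j)) ((chartAt E' (y j)).continuousAt (hz j))
    (hg j).continuous.continuousAt

theorem robust_rel {ι : Type*} {𝒰 : Ultrafilter ι} {ψ θ : ι → X → X} {s : ℕ}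
    {g : Fin s → X → Y}
    (hψ : ∀ k, ContMDiff 𝓘(ℂ, E) 𝓘(ℂ, E) ω (ψ k)) (hθ : ∀ k, ContMDiff 𝓘(ℂ, E) 𝓘(ℂ, E) ω (θ k))
    (hinv : ∀ k x, θ k (ψ k x) = x) (hinv' : ∀ k x, ψ k (θ k x) = x)
    (hg : ∀ j, ContMDiff 𝓘(ℂ, E) 𝓘(ℂ, E') ω (g j)) {m : ℕ} {e : X → X} {p : X}
    (hcc : ∀ j, Tendsto (fun q : ι × X => g j (ψ q.1 q.2)) ((𝒰 : Filter ι) ×ˢ 𝓝 p)
      (𝓝 (g j (e p))))
    (hlim : Tendsto (fun k => ψ k p) 𝒰 (𝓝 (e p)))
    (hmax : ∀ k, ∀ᶠ x in 𝓝 p, ¬ HasRank E E' Y (m + 1) (ψ k x))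
    (hnd : NDq E E' 𝒰 ψ g m e p) {V : Set X} (hV : V ∈ 𝓝 p) :
    ∃ C ∈ 𝓝 (e p), ∀ᶠ k in (𝒰 : Filter ι), ∀ z ∈ C, ∃ v ∈ V,
      FRel (HolF E E' X Y) z (ψ k v) := by
  have hlc : LocallyConnectedSpace X := ChartedSpace.locallyConnectedSpace E X
  have hcE' : CompleteSpace E' := FiniteDimensional.complete ℂ E'
  have hid : ContMDiff 𝓘(ℂ, E) 𝓘(ℂ, E) ω (id : X → X) := contMDiff_id
  obtain ⟨x', y, hx', hy, D, hDt, Λ, hΛ⟩ := hnd
  obtain ⟨ι', hι'⟩ := exists_slice hΛ
  obtain ⟨R, hR, M, hRt, hRV, hev⟩ := exists_good_ball2 hψ hg hx' hy hcc hV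
  set c := chartAt E x' with hc
  set a := c p with ha
  set R' : ℝ := R / (‖ι'‖ + 1) with hR'
  have hι0 : 0 < ‖ι'‖ + 1 := by positivity
  have hR'pos : 0 < R' := by positivity
  have hslice : ∀ v ∈ ball (0 : Fin m → ℂ) R', a + ι' v ∈ ball a R := by
    intro v hv
    rw [mem_ball_zero_iff] at hv
    rw [mem_ball, dist_eq_norm, add_sub_cancel_left]
    have h1 := ι'.le_opNorm v
    have h2 : ‖v‖ * (‖ι'‖ + 1) < R := by
      rw [hR', lt_div_iff₀ hι0] at hv
      exact hv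
    nlinarith [norm_nonneg v, norm_nonneg ι']
  set Θ : ι → (Fin m → ℂ) → (Fin m → ℂ) := fun k v =>
    Λ (rr E E' g y x' (ψ k) (a + ι' v)) with hΘ
  have hline : ∀ v, AnalyticAt ℂ (fun v : Fin m → ℂ => a + ι' v) v := fun v =>
    analyticAt_const.add (ι'.analyticAt v)
  have hF : ∀ᶠ k in (𝒰 : Filter ι), AnalyticOnNhd ℂ (Θ k) (ball 0 R') ∧
      MapsTo (Θ k) (ball 0 R') (closedBall 0 (‖Λ‖ * M)) := by
    filter_upwards [hev] with k hk
    constructor
    · intro v hv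
      have h1 : AnalyticAt ℂ (fun v : Fin m → ℂ => rr E E' g y x' (ψ k) (a + ι' v)) v :=
        AnalyticAt.comp (g := rr E E' g y x' (ψ k)) (f := fun v : Fin m → ℂ => a + ι' v)
          (hk.1 _ (hslice v hv)) (hline v)
      exact AnalyticAt.comp (g := Λ) (Λ.analyticAt _) h1
    · intro v hv
      rw [mem_closedBall_zero_iff]
      have h1 := hk.2.1 (hslice v hv)
      rw [mem_closedBall_zero_iff] at h1
      exact (Λ.le_opNorm _).trans (mul_le_mul_of_nonneg_left h1 (norm_nonneg Λ))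
  have haR : a ∈ ball a R := mem_ball_self hR
  have hfd : ∀ᶠ k in (𝒰 : Filter ι), fderiv ℂ (Θ k) 0 =
      Λ ∘L fderiv ℂ (rr E E' g y x' (ψ k)) a ∘L ι' := by
    filter_upwards [hev] with k hk
    have h0 : a + ι' 0 = a := by rw [map_zero, add_zero]
    have h1 : HasFDerivAt (fun v : Fin m → ℂ => a + ι' v) ι' 0 :=
      ι'.hasFDerivAt.const_add a
    have h2 : HasFDerivAt (rr E E' g y x' (ψ k)) (fderiv ℂ (rr E E' g y x' (ψ k)) a)
        (a + ι' 0) := by
      rw [h0]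
      exact (hk.1 a haR).differentiableAt.hasFDerivAt
    have h4 : HasFDerivAt (fun v : Fin m → ℂ => rr E E' g y x' (ψ k) (a + ι' v))
        (fderiv ℂ (rr E E' g y x' (ψ k)) a ∘L ι') 0 :=
      HasFDerivAt.comp (g := rr E E' g y x' (ψ k)) (f := fun v : Fin m → ℂ => a + ι' v)
        0 h2 h1
    have h3 : HasFDerivAt (Θ k) (Λ ∘L fderiv ℂ (rr E E' g y x' (ψ k)) a ∘L ι') 0 :=
      Λ.hasFDerivAt.comp 0 h4
    exact h3.fderiv
  have hcl : Continuous fun A : E →L[ℂ] (Fin s → E') => Λ ∘L A ∘L ι' :=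
    continuous_const.clm_comp (continuous_id.clm_comp continuous_const)
  have hA : Tendsto (fun k => fderiv ℂ (Θ k) 0) 𝒰 (𝓝 (Λ ∘L D ∘L ι')) := by
    refine ((hcl.tendsto D).comp hDt).congr' ?_
    filter_upwards [hfd] with k hk
    exact hk.symm
  have hAid : Λ ∘L D ∘L ι' = ContinuousLinearMap.id ℂ (Fin m → ℂ) := hι'
  have hAdet : (Λ ∘L D ∘L ι').det ≠ 0 := by
    rw [hAid, det_id_clm]
    exact one_ne_zero
  set b : Fin m → ℂ := Λ (RR E' g y (e p)) with hb
  have hrra : ∀ k, rr E E' g y x' (ψ k) a = RR E' g y (ψ k p) := by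
    intro k
    simp only [rr]
    rw [← hc, ha, c.left_inv hx']
  have hΘ0 : ∀ k, Θ k 0 = Λ (RR E' g y (ψ k p)) := by
    intro k
    simp only [hΘ, map_zero, add_zero, hrra]
  have hlimΘ : Tendsto (fun k => Θ k 0) 𝒰 (𝓝 b) := by
    simp_rw [hΘ0]
    have h1 : ContinuousAt (fun z => Λ (RR E' g y z)) (e p) :=
      Λ.continuous.continuousAt.comp (RR_continuousAt hg hy)
    exact h1.tendsto.comp hlim
  obtain ⟨ρ, hρ, hinvs⟩ := robust_inverse (𝒰 := 𝒰) (θ := Θ) hR'pos hF hAdet hA hlimΘ hR'pos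
  -- the connected neighbourhood
  set O : Set X := {z | (∀ j, g j z ∈ (chartAt E' (y j)).source) ∧
    Λ (RR E' g y z) ∈ ball b ρ} with hO
  have hOn : O ∈ 𝓝 (e p) := by
    have h1 : ContinuousAt (fun z => Λ (RR E' g y z)) (e p) :=
      Λ.continuous.continuousAt.comp (RR_continuousAt hg hy)
    have h2 : ∀ᶠ z in 𝓝 (e p), ∀ j, g j z ∈ (chartAt E' (y j)).source :=
      eventually_all.2 fun j => (hg j).continuous.continuousAt.eventually_mem
        ((chartAt E' (y j)).open_source.mem_nhds (hy j))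
    filter_upwards [h2, h1.eventually_mem (ball_mem_nhds b hρ)] with z h1 h2
    exact ⟨h1, h2⟩
  set C : Set X := connectedComponentIn (interior O) (e p) with hC
  have hCo : IsOpen C := isOpen_interior.connectedComponentIn
  have hpO : e p ∈ interior O := mem_interior_iff_mem_nhds.2 hOn
  have hpC : e p ∈ C := mem_connectedComponentIn hpO
  have hCO : C ⊆ O := (connectedComponentIn_subset _ _).trans interior_subset
  have hCp : IsPreconnected C := isPreconnected_connectedComponentIn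
  have hdet : ∀ᶠ k in (𝒰 : Filter ι),
      ((Λ ∘L fderiv ℂ (rr E E' g y x' (ψ k)) a) ∘L ι').det ≠ 0 := by
    have h1 : Tendsto (fun k => (Λ ∘L fderiv ℂ (rr E E' g y x' (ψ k)) a ∘L ι').det) 𝒰
        (𝓝 (Λ ∘L D ∘L ι').det) :=
      ((ContinuousLinearMap.continuous_det.comp hcl).tendsto D).comp hDt
    exact h1.eventually_ne hAdet
  refine ⟨C, hCo.mem_nhds hpC, ?_⟩
  filter_upwards [hev, hinvs, hlim.eventually_mem (hCo.mem_nhds hpC), hdet]
    with k hk hks hkC hkd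
  obtain ⟨σ, hσd, hσm, hσr, hσ0, hσ1⟩ := hks
  set vf : X → X := fun z => c.symm (a + ι' (σ (Λ (RR E' g y z)))) with hvf
  have hball : ∀ z ∈ C, a + ι' (σ (Λ (RR E' g y z))) ∈ ball a R := fun z hz =>
    hslice _ (hσm (hCO hz).2)
  have hvV : ∀ z ∈ C, vf z ∈ V := fun z hz => hRV (hball z hz)
  intro z hz
  refine ⟨vf z, hvV z hz, ?_⟩
  intro f hf
  have hfm : ContMDiff 𝓘(ℂ, E) 𝓘(ℂ, E') ω f := hf
  -- continuity of the composite
  have hcontv : ∀ w ∈ C, ContinuousAt vf w := by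
    intro w hw
    have h1 : ContinuousAt (fun z => Λ (RR E' g y z)) w :=
      Λ.continuous.continuousAt.comp (RR_continuousAt hg (hCO hw).1)
    have h2 : ContinuousAt σ (Λ (RR E' g y w)) :=
      (hσd.continuousOn).continuousAt (isOpen_ball.mem_nhds (hCO hw).2)
    have h3 : ContinuousAt (fun z => a + ι' (σ (Λ (RR E' g y z)))) w := by
      have h4 : ContinuousAt (fun z => σ (Λ (RR E' g y z))) w :=
        ContinuousAt.comp (g := σ) h2 h1
      exact continuousAt_const.add (ι'.continuous.continuousAt.comp h4)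
    exact ContinuousAt.comp (g := c.symm) (c.continuousAt_symm (hRt (hball w hw))) h3
  have hmψ : MDifferentiable 𝓘(ℂ, E) 𝓘(ℂ, E) (ψ k) := (hψ k).mdifferentiable (by simp)
  have hmf : MDifferentiable 𝓘(ℂ, E) 𝓘(ℂ, E') f := hfm.mdifferentiable (by simp)
  have hD1 : DHol E E' C (fun z => f (ψ k (vf z))) := by
    refine ⟨fun w hw => ?_, ?_⟩
    · exact (ContinuousAt.comp (g := fun z => f (ψ k z))
        (hfm.continuous.comp (hψ k).continuous).continuousAt (hcontv w hw)).continuousWithinAt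
    · intro U γ hU hγ hγC
      have h1 : DifferentiableOn ℂ (fun t => RR E' g y (γ t)) U := by
        rw [differentiableOn_pi]
        intro j
        have h2 : MDifferentiableOn 𝓘(ℂ, ℂ) 𝓘(ℂ, E') (g j ∘ γ) U :=
          ((hg j).mdifferentiable (by simp)).comp_mdifferentiableOn hγ
        exact curve_chart (z := y j) h2 (fun t ht => (hCO (hγC ht)).1 j)
      have h2 : DifferentiableOn ℂ (fun t => Λ (RR E' g y (γ t))) U :=
        Λ.differentiable.comp_differentiableOn h1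
      have h3 : DifferentiableOn ℂ (fun t => σ (Λ (RR E' g y (γ t)))) U :=
        hσd.comp h2 (fun t ht => (hCO (hγC ht)).2)
      have h4 : DifferentiableOn ℂ (fun t => a + ι' (σ (Λ (RR E' g y (γ t))))) U :=
        (ι'.differentiable.comp_differentiableOn h3).const_add a
      rw [← mdifferentiableOn_iff_differentiableOn] at h4
      have h5 : MDifferentiableOn 𝓘(ℂ, ℂ) 𝓘(ℂ, E) (fun t => vf (γ t)) U :=
        (tchart_symm_mdiff x').comp h4 (fun t ht => hRt (hball _ (hγC ht)))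
      exact hmf.comp_mdifferentiableOn (hmψ.comp_mdifferentiableOn h5)
  have hD2 : DHol E E' C f := dHol_of_mdiffOn hmf.mdifferentiableOn
  -- agreement near the point ψ k p
  set z₀ : X := ψ k p with hz₀
  have hvz₀ : vf z₀ = p := by
    have h1 : σ (Λ (RR E' g y z₀)) = 0 := by
      rw [hz₀, ← hΘ0]
      exact hσ1
    simp only [hvf]
    rw [h1, map_zero, add_zero, ha, c.left_inv hx']
  have hz₀s : z₀ ∈ (chartAt E z₀).source := mem_chart_source E z₀
  have hgz₀ : ∀ j, g j z₀ ∈ (chartAt E' (y j)).source := (hCO hkC).1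
  have hsur : Function.Surjective (Λ ∘L fderiv ℂ (rr E E' g y z₀ (id : X → X))
      (chartAt E z₀ z₀)) := by
    have e1 := rr_comp (E := E) hg (hψ k) hid (x₁ := x') (z₁ := z₀) (x := p) hx' hz₀s hgz₀
    have e2 : rr E E' g y x' ((id : X → X) ∘ ψ k) = rr E E' g y x' (ψ k) := rfl
    rw [e2] at e1
    have e3 := surjective_of_det hkd
    intro w
    obtain ⟨u, hu⟩ := e3 w
    refine ⟨fderiv ℂ (rdd E E x' z₀ (ψ k)) a u, ?_⟩
    have e4 : fderiv ℂ (rr E E' g y x' (ψ k)) a u =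
        fderiv ℂ (rr E E' g y z₀ (id : X → X)) (chartAt E z₀ z₀)
          (fderiv ℂ (rdd E E x' z₀ (ψ k)) a u) :=
      congrArg (fun l : E →L[ℂ] (Fin s → E') => l u) e1
    change Λ (fderiv ℂ (rr E E' g y z₀ (id : X → X)) (chartAt E z₀ z₀)
          (fderiv ℂ (rdd E E x' z₀ (ψ k)) a u)) = w
    rw [← e4]
    exact hu
  have hθc : Tendsto (θ k) (𝓝 z₀) (𝓝 p) := by
    have := (hθ k).continuous.tendsto z₀
    rwa [hz₀, hinv] at this
  have hmaxz : ∀ᶠ w in 𝓝 z₀, ¬ HasRank E E' Y (m + 1) w := by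
    filter_upwards [hθc.eventually (hmax k)] with w hw
    rwa [hinv'] at hw
  obtain ⟨U, hU, hUf⟩ := local_function hg hz₀s hgz₀ hsur hmaxz hfm
  have hev2 : ∀ᶠ w in 𝓝 z₀, f (ψ k (vf w)) = f w := by
    have h1 : ContinuousAt (fun w => ψ k (vf w)) z₀ :=
      ContinuousAt.comp (g := ψ k) (hψ k).continuous.continuousAt (hcontv z₀ hkC)
    have h2 : ∀ᶠ w in 𝓝 z₀, ψ k (vf w) ∈ U := by
      refine h1.eventually_mem ?_
      rw [hvz₀]
      exact hU
    filter_upwards [h2, hU, hCo.mem_nhds hkC] with w h1 h2 h3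
    refine hUf _ h1 _ h2 ?_
    have h4 := hσr _ (hCO h3).2
    exact h4
  exact (dHol_eq hCo hCp hD1 hD2 hkC hev2 z hz).symm

end Pool.Agent.NonTame
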